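import Pool.Agent.Y24.F1

set_option autoImplicit false

/-!
The density theorem.
-/

namespace Pool.Agent.Y24

open Finset Filter MeasureTheory Complex Metric Topology

noncomputable section

/-- the number of zeros, as a finite sum -/
def NZ (σ T : ℝ) : ℝ := ∑ ρ ∈ (ZZ_fin σ T).toFinset, (analyticOrderNatAt riemannZeta ρ : ℝ)

lemma NZ_mono {σ σ' T T' : ℝ} (h1 : σ' ≤ σ) (h2 : T ≤ T') : NZ σ T ≤ NZ σ' T' := by
  apply Finset.sum_le_sum_of_subset_of_nonneg
  · intro ρ hρ
    rw [Set.Finite.mem_toFinset] at hρ ⊢
    exact ⟨hρ.1, h1.trans hρ.2.1, hρ.2.2.1, hρ.2.2.2.trans h2⟩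
  · intro ρ _ _
    positivity

lemma NZ_step {σ T T' : ℝ} : NZ σ T ≤ NZ σ T' +
    ∑ ρ ∈ (ZZ_fin σ T).toFinset.filter (fun ρ => T' < ρ.im), (analyticOrderNatAt riemannZeta ρ : ℝ) := by
  unfold NZ
  rw [← Finset.sum_filter_add_sum_filter_not (ZZ_fin σ T).toFinset (fun ρ => T' < ρ.im), add_comm]
  apply add_le_add_left
  apply Finset.sum_le_sum_of_subset_of_nonneg
  · intro ρ hρ
    rw [Finset.mem_filter, Set.Finite.mem_toFinset] at hρ
    rw [Set.Finite.mem_toFinset]
    exact ⟨hρ.1.1, hρ.1.2.1, hρ.1.2.2.1, not_lt.mp hρ.2⟩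
  · intro ρ _ _
    positivity

theorem density1 {q0 : ℝ} (hq0 : 1 / 2 ≤ q0) (hq1 : q0 < 1) : ∃ C : ℝ, 0 < C ∧ ∀ σ T : ℝ, 1 / 2 ≤ σ → σ ≤ 1 → 2 ≤ T →
    NZ σ T ≤ C * T ^ (1 - 4 / 3 * q0 * (σ - 1 / 2)) * Real.log T := by
  obtain ⟨C0, hC0, hW⟩ := window hq0 hq1
  obtain ⟨C2, hC2, hTot⟩ := total_count
  obtain ⟨T0, hT0⟩ := eventually_atTop.mp hW
  set T1 := max T0 (max 100 0) with hT1
  set c := 4 / 3 * q0 with hc
  have hc0 : 0 < c := by rw [hc]; positivity
  have hc43 : c ≤ 4 / 3 := by rw [hc]; linarith
  set C' := C2 * T1 + C2 * Real.exp 2 + 12 * C0 * Real.exp 2 with hC'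
  have hT1pos : 0 < T1 := lt_of_lt_of_le (by norm_num) ((le_max_left (100:ℝ) 0).trans (le_max_right T0 _))
  have hC'0 : 0 < C' := by positivity
  refine ⟨C', hC'0, ?_⟩
  -- the induction
  have hind : ∀ n : ℕ, ∀ σ T : ℝ, T ≤ n → 1 / 2 ≤ σ → σ ≤ 1 → 2 ≤ T →
      NZ σ T ≤ C' * T ^ (1 - c * (σ - 1 / 2)) * Real.log T := by
    intro n
    induction n with
    | zero =>
      intro σ T h1 _ _ h2
      exfalso
      norm_num at h1
      linarith
    | succ n ih =>
      intro σ T hTn hσ1 hσ2 hT2
      have hTpos : 0 < T := by linarith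
      set L := Real.log T with hL
      have hL0 : 0 < L := Real.log_pos (by linarith)
      have htot : NZ σ T ≤ C2 * T * L := by
        refine (NZ_mono hσ1 le_rfl).trans ?_
        exact hTot T hT2 _ (fun ρ hρ => by rwa [Set.Finite.mem_toFinset] at hρ)
      set α := 1 - c * (σ - 1 / 2) with hα
      have hα1 : α ≤ 1 := by
        rw [hα]
        have : 0 ≤ c * (σ - 1 / 2) := mul_nonneg hc0.le (by linarith)
        linarith
      have hα3 : 1 / 3 ≤ α := by
        rw [hα]
        have : c * (σ - 1 / 2) ≤ 4 / 3 * (1 / 2) := mul_le_mul hc43 (by linarith) (by linarith) (by norm_num)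
        linarith
      have hTα1 : 1 ≤ T ^ α := Real.one_le_rpow (by linarith) (by linarith)
      rcases lt_or_ge T T1 with hlt | hge
      · refine htot.trans ?_
        calc C2 * T * L ≤ C2 * T1 * L := by gcongr
          _ = C2 * T1 * 1 * L := by ring
          _ ≤ C' * T ^ α * L := by
            have h1 : C2 * T1 ≤ C' := by
              rw [hC']
              have : 0 ≤ C2 * Real.exp 2 + 12 * C0 * Real.exp 2 := by positivity
              linarith
            gcongr
      · rcases le_or_gt ((σ - 1 / 2) * L) 1 with hs | hs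
        · refine htot.trans ?_
          have h1 : T ≤ T ^ α * Real.exp 2 := by
            have h2 : T = T ^ α * Real.exp (c * ((σ - 1 / 2) * L)) := by
              have h3 : Real.exp (c * ((σ - 1 / 2) * L)) = T ^ (c * (σ - 1 / 2)) := by
                rw [Real.rpow_def_of_pos hTpos]; congr 1; ring
              rw [h3, ← Real.rpow_add hTpos, hα, sub_add_cancel, Real.rpow_one]
            have h4 : Real.exp (c * ((σ - 1 / 2) * L)) ≤ Real.exp 2 := by
              apply Real.exp_le_exp.mpr
              have : c * ((σ - 1 / 2) * L) ≤ c * 1 := mul_le_mul_of_nonneg_left hs hc0.le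
              linarith
            calc T = T ^ α * Real.exp (c * ((σ - 1 / 2) * L)) := h2
              _ ≤ _ := by gcongr
          calc C2 * T * L ≤ C2 * (T ^ α * Real.exp 2) * L := by gcongr
            _ = C2 * Real.exp 2 * T ^ α * L := by ring
            _ ≤ C' * T ^ α * L := by
              have h2 : C2 * Real.exp 2 ≤ C' := by
                rw [hC']
                have : 0 ≤ C2 * T1 + 12 * C0 * Real.exp 2 := by positivity
                linarith
              gcongr
        · -- the step
          have hT100 : 100 ≤ T := ((le_max_left (100:ℝ) 0).trans (le_max_right T0 _)).trans hge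
          have hTT0 : T0 ≤ T := (le_max_left T0 _).trans hge
          have hL1 : 1 ≤ L := by
            rw [hL, Real.le_log_iff_exp_le hTpos]
            have := Real.exp_one_lt_d9
            linarith
          have hLT : 4 * L ≤ T := by
            have h1 := Real.log_le_sub_one_of_pos (show 0 < Real.sqrt T by positivity)
            rw [Real.log_sqrt hTpos.le, ← hL] at h1
            have h2 : 10 ≤ Real.sqrt T := Real.le_sqrt_of_sq_le (by linarith)
            have h3 : Real.sqrt T * Real.sqrt T = T := Real.mul_self_sqrt hTpos.le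
            have h4 : 10 * Real.sqrt T ≤ Real.sqrt T * Real.sqrt T := mul_le_mul_of_nonneg_right h2 (by positivity)
            linarith
          set δ := 1 / (4 * L) with hδ
          have hδ0 : 0 < δ := by positivity
          have hδ4 : δ ≤ 1 / 4 := by
            rw [hδ]
            apply one_div_le_one_div_of_le (by norm_num); linarith
          set T' := T * (1 - δ) with hT'
          have hTδ : T * δ = T / (4 * L) := by rw [hδ]; ring
          have hT'n : T' ≤ n := by
            have h1 : 1 ≤ T * δ := by
              rw [hTδ, le_div_iff₀ (by positivity)]; linarith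
            have h2 : T' = T - T * δ := by rw [hT']; ring
            push_cast at hTn
            linarith
          have hT'2 : 2 ≤ T' := by
            have : T * (3 / 4) ≤ T' := mul_le_mul_of_nonneg_left (by linarith) hTpos.le
            linarith
          have hT'pos : 0 < T' := by linarith
          have hT'T : T' ≤ T := by
            rw [hT']; exact mul_le_of_le_one_right hTpos.le (by linarith)
          have hih := ih σ T' hT'n hσ1 hσ2 hT'2
          have hw := hT0 T hTT0 (σ - 1 / L) (by
            have : 1 / L ≤ σ - 1 / 2 := by rw [div_le_iff₀ hL0]; exact hs.le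
            linarith) (by
            have : 0 < 1 / L := by positivity
            linarith) ((ZZ_fin σ T).toFinset.filter (fun ρ => T' < ρ.im)) (fun ρ hρ => by
              rw [Finset.mem_filter, Set.Finite.mem_toFinset] at hρ
              obtain ⟨⟨g1, g2, g3, g4⟩, g5⟩ := hρ
              refine ⟨?_, (re_lt_one g1).le, ?_⟩
              · rw [← hL]; linarith
              · rw [← hL, ← hTδ]
                have h2 : T' = T - T * δ := by rw [hT']; ring
                rw [abs_le]
                have : 0 ≤ T * δ := by positivity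
                constructor <;> linarith)
          have hw2 : ∑ ρ ∈ (ZZ_fin σ T).toFinset.filter (fun ρ => T' < ρ.im), (analyticOrderNatAt riemannZeta ρ : ℝ) ≤
              C0 * Real.exp 2 * T ^ α := by
            refine hw.trans ?_
            have h1 : T * Real.exp (-(4 / 3 * q0 * (σ - 1 / L - 1 / 2) * Real.log T)) = T ^ α * Real.exp c := by
              rw [← hc, ← hL]
              have h3 : -(c * (σ - 1 / L - 1 / 2) * L) = -(c * (σ - 1 / 2)) * L + c := by
                field_simp
                ring
              have h4 : Real.exp (-(c * (σ - 1 / 2)) * L) = T ^ (-(c * (σ - 1 / 2))) := by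
                rw [Real.rpow_def_of_pos hTpos]; congr 1; ring
              rw [h3, Real.exp_add, h4, ← mul_assoc]
              congr 1
              nth_rewrite 1 [← Real.rpow_one T]
              rw [← Real.rpow_add hTpos]
              congr 1
            rw [mul_assoc, h1]
            have h5 : Real.exp c ≤ Real.exp 2 := Real.exp_le_exp.mpr (by linarith)
            calc C0 * (T ^ α * Real.exp c) ≤ C0 * (T ^ α * Real.exp 2) := by gcongr
              _ = _ := by ring
          have hpow : T' ^ α ≤ T ^ α * (1 - α * δ) := by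
            rw [hT', Real.mul_rpow hTpos.le (by linarith)]
            apply mul_le_mul_of_nonneg_left _ (by positivity)
            have h1 := rpow_one_add_le_one_add_mul_self (s := -δ) (p := α) (by linarith) (by linarith) hα1
            have h2 : 1 + -δ = 1 - δ := by ring
            rw [h2] at h1
            linarith
          have hlog : Real.log T' ≤ L := Real.log_le_log hT'pos hT'T
          have hlog0 : 0 ≤ Real.log T' := Real.log_nonneg (by linarith)
          have hfac : 0 ≤ 1 - α * δ := by
            have : α * δ ≤ 1 * (1 / 4) := mul_le_mul hα1 hδ4 hδ0.le zero_le_one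
            linarith
          calc NZ σ T ≤ NZ σ T' + _ := NZ_step (T' := T')
            _ ≤ C' * T' ^ α * Real.log T' + C0 * Real.exp 2 * T ^ α := add_le_add hih hw2
            _ ≤ C' * (T ^ α * (1 - α * δ)) * L + C0 * Real.exp 2 * T ^ α := by gcongr
            _ = C' * T ^ α * L - T ^ α * (C' * α * (δ * L) - C0 * Real.exp 2) := by ring
            _ ≤ C' * T ^ α * L := by
              have h1 : δ * L = 1 / 4 := by rw [hδ]; field_simp
              rw [h1]
              have h2 : 12 * C0 * Real.exp 2 ≤ C' := by
                rw [hC']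
                have : 0 ≤ C2 * T1 + C2 * Real.exp 2 := by positivity
                linarith
              have h3 : 0 ≤ C' * α * (1 / 4) - C0 * Real.exp 2 := by
                have : 12 * C0 * Real.exp 2 * (1 / 3) ≤ C' * α := mul_le_mul h2 hα3 (by norm_num) hC'0.le
                linarith
              have h4 : 0 ≤ T ^ α * (C' * α * (1 / 4) - C0 * Real.exp 2) := by positivity
              linarith
  intro σ T hσ1 hσ2 hT2
  exact hind ⌈T⌉₊ σ T (Nat.le_ceil T) hσ1 hσ2 hT2

/-- **The density theorem.** -/
theorem density {c : ℝ} (hc : c < 4 / 3) : ∃ C : ℝ, 0 < C ∧ ∀ σ T : ℝ, 1 / 2 ≤ σ → σ ≤ 1 → 2 ≤ T →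
    (ZZ σ T).Finite ∧
    ∑ᶠ ρ ∈ ZZ σ T, (analyticOrderNatAt riemannZeta ρ : ℝ) ≤ C * T ^ (1 - c * (σ - 1 / 2)) * Real.log T := by
  set c' := max c 1 with hc'
  have hc'1 : 1 ≤ c' := le_max_right _ _
  have hc'2 : c' < 4 / 3 := max_lt hc (by norm_num)
  obtain ⟨C, hC, h⟩ := density1 (q0 := 3 / 4 * c') (by linarith) (by linarith)
  refine ⟨C, hC, fun σ T hσ1 hσ2 hT => ⟨ZZ_fin σ T, ?_⟩⟩
  have h1 := h σ T hσ1 hσ2 hT
  have e : 4 / 3 * (3 / 4 * c') = c' := by ring
  rw [e] at h1
  rw [finsum_mem_eq_finite_toFinset_sum _ (ZZ_fin σ T)]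
  refine h1.trans ?_
  have hlog : 0 ≤ Real.log T := Real.log_nonneg (by linarith)
  have hcc : c ≤ c' := le_max_left _ _
  have hpow : T ^ (1 - c' * (σ - 1 / 2)) ≤ T ^ (1 - c * (σ - 1 / 2)) := by
    apply Real.rpow_le_rpow_of_exponent_le (by linarith)
    have : c * (σ - 1 / 2) ≤ c' * (σ - 1 / 2) := mul_le_mul_of_nonneg_right hcc (by linarith)
    linarith
  gcongr

end

end Pool.Agent.Y24
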