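import Pool.Agent.TH806.Tor6

set_option autoImplicit false

/-!
Pointwise bounds for the multipliers with exponent up to `17/8`, the average over one prime, and the
average over the torus of a product of general local factors.
-/

namespace Pool.Agent.Y24

open Finset MeasureTheory Complex
open Pool.Agent.W184.NZ
open Pool.Agent.TH806

noncomputable section

lemma gf_le6 {R : ℕ} (hR : 1 ≤ R) {a : ℝ} (ha : |a| ≤ 2) (z : ℂ) :
    gf (20 * R) a R z ≤ (1 + Real.exp (-(R:ℝ))) ^ 2 * Real.exp (2 * a * z.re) +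
      2 * Real.exp (-(3 / 2 * (R:ℝ))) * Real.exp (6 * ‖z‖) := by
  have hcl := cl_two hR (a := a) (by linarith)
  have hR0 : (0:ℝ) ≤ R := Nat.cast_nonneg _
  have hb := ball_pow_le hR z
  have hz0 := norm_nonneg z
  have hb2 : Real.exp (-(2 * (R:ℝ))) * Real.exp (4 * ‖z‖) ≤ Real.exp (-(3 / 2 * (R:ℝ))) * Real.exp (6 * ‖z‖) := by
    rw [← Real.exp_add, ← Real.exp_add]
    exact Real.exp_le_exp.mpr (by linarith)
  have h1 : ‖NK (20 * R) a z‖ ^ 2 ≤ (1 + Real.exp (-(R:ℝ))) ^ 2 * Real.exp (2 * a * z.re) +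
      Real.exp (-(3 / 2 * (R:ℝ))) * Real.exp (6 * ‖z‖) := by
    by_cases hz : ‖z‖ ≤ R
    · have h2 := NK_le_of_cl hcl hz
      have h3 : ‖NK (20 * R) a z‖ ^ 2 ≤ ((1 + Real.exp (-(R:ℝ))) * ‖Complex.exp (a * z)‖) ^ 2 :=
        pow_le_pow_left₀ (norm_nonneg _) h2 2
      rw [mul_pow, norm_exp_sq] at h3
      have : 0 ≤ Real.exp (-(3 / 2 * (R:ℝ))) * Real.exp (6 * ‖z‖) := by positivity
      linarith
    · push Not at hz
      have h2 : ‖NK (20 * R) a z‖ ^ 2 ≤ Real.exp (|a| * ‖z‖) ^ 2 :=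
        pow_le_pow_left₀ (norm_nonneg _) (norm_NK_le _ _ _) 2
      have h3 : Real.exp (|a| * ‖z‖) ^ 2 ≤ Real.exp (-(3 / 2 * (R:ℝ))) * Real.exp (6 * ‖z‖) := by
        rw [← Real.exp_nat_mul, ← Real.exp_add]
        apply Real.exp_le_exp.mpr
        push_cast
        have h4 : |a| * ‖z‖ ≤ 2 * ‖z‖ := mul_le_mul_of_nonneg_right ha (norm_nonneg _)
        linarith
      have : 0 ≤ (1 + Real.exp (-(R:ℝ))) ^ 2 * Real.exp (2 * a * z.re) := by positivity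
      linarith
  unfold gf
  linarith [hb.trans hb2]

/-- coefficients of the exponentials -/
def cg (a : ℝ) : Fin 5 → ℂ := ![((2 * a : ℝ) : ℂ), 6 - 6 * Complex.I, 6 + 6 * Complex.I,
  -6 - 6 * Complex.I, -6 + 6 * Complex.I]

lemma cg_norm {a : ℝ} (ha : |a| ≤ 2) (i : Fin 5) : ‖cg a i‖ ≤ 9 := by
  have h4 : ∀ s t : ℝ, |s| = 6 → |t| = 6 → ‖(s:ℂ) + t * Complex.I‖ ≤ 9 := by
    intro s t hs ht
    have h1 : ‖(s:ℂ) + t * Complex.I‖ ^ 2 = s ^ 2 + t ^ 2 := by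
      rw [← Complex.normSq_eq_norm_sq, Complex.normSq_add_mul_I]
    have h2 : s ^ 2 = 36 := by rw [← sq_abs, hs]; norm_num
    have h3 : t ^ 2 = 36 := by rw [← sq_abs, ht]; norm_num
    nlinarith [norm_nonneg ((s:ℂ) + t * Complex.I)]
  unfold cg
  fin_cases i
  · simp only [Fin.zero_eta, Matrix.cons_val_zero]
    rw [Complex.norm_real, Real.norm_eq_abs, abs_mul, abs_two]; linarith
  · have := h4 6 (-6) (by norm_num) (by norm_num)
    simpa [sub_eq_add_neg] using this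
  · have := h4 6 6 (by norm_num) (by norm_num)
    simpa using this
  · have := h4 (-6) (-6) (by norm_num) (by norm_num)
    simpa [sub_eq_add_neg] using this
  · have := h4 (-6) 6 (by norm_num) (by norm_num)
    simpa using this

lemma gf_le_sum6 {R : ℕ} (hR : 1 ≤ R) {a : ℝ} (ha : |a| ≤ 2) (z : ℂ) :
    gf (20 * R) a R z ≤ ∑ i : Fin 5, Af R i * Real.exp ((cg a i * z).re) := by
  refine (gf_le6 hR ha z).trans ?_
  have h := norm_exp_le (((3 / 2 : ℝ) : ℂ) * z)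
  rw [norm_mul, Complex.norm_real, Real.norm_eq_abs, abs_of_pos (by norm_num : (0:ℝ) < 3 / 2)] at h
  have h0 : 0 ≤ 2 * Real.exp (-(3 / 2 * (R:ℝ))) := by positivity
  have e7 : (4:ℝ) * (3 / 2 * ‖z‖) = 6 * ‖z‖ := by ring
  rw [e7] at h
  have h1 := mul_le_mul_of_nonneg_left h h0
  rw [Fin.sum_univ_five]
  have e0 : (cg a 0 * z).re = 2 * a * z.re := by
    simp only [cg, Matrix.cons_val_zero]
    rw [Complex.re_ofReal_mul]
  have e1 : Af R 0 = (1 + Real.exp (-(R:ℝ))) ^ 2 := rfl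
  have e2 : Af R 1 = 2 * Real.exp (-(3 / 2 * (R:ℝ))) := rfl
  have e3 : Af R 2 = 2 * Real.exp (-(3 / 2 * (R:ℝ))) := rfl
  have e4 : Af R 3 = 2 * Real.exp (-(3 / 2 * (R:ℝ))) := rfl
  have e5 : Af R 4 = 2 * Real.exp (-(3 / 2 * (R:ℝ))) := rfl
  have c1 : cg a 1 * z = (4 - 4 * Complex.I) * (((3 / 2 : ℝ) : ℂ) * z) := by
    change (6 - 6 * Complex.I) * z = _
    push_cast; ring
  have c2 : cg a 2 * z = (4 + 4 * Complex.I) * (((3 / 2 : ℝ) : ℂ) * z) := by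
    change (6 + 6 * Complex.I) * z = _
    push_cast; ring
  have c3 : cg a 3 * z = (-4 - 4 * Complex.I) * (((3 / 2 : ℝ) : ℂ) * z) := by
    change (-6 - 6 * Complex.I) * z = _
    push_cast; ring
  have c4 : cg a 4 * z = (-4 + 4 * Complex.I) * (((3 / 2 : ℝ) : ℂ) * z) := by
    change (-6 + 6 * Complex.I) * z = _
    push_cast; ring
  rw [e0, e1, e2, e3, e4, e5, c1, c2, c3, c4]
  linarith

/-! ### one prime -/

lemma exp_cubic2 {y : ℝ} (hy : |y| ≤ 3 / 2) : Real.exp y ≤ 1 + y + y ^ 2 / 2 + |y| ^ 3 := by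
  have h0 : |y / 2| ≤ 3 / 4 := by rw [abs_div, abs_two]; linarith
  rcases le_or_gt |y| 1 with h | h
  · exact exp_cubic' h
  · have h3 : (1:ℝ) < |y| ^ 3 := one_lt_pow₀ h (by norm_num)
    rcases le_or_gt 0 y with hy0 | hy0
    · rw [abs_of_nonneg hy0] at *
      have h4 := Real.exp_bound' (x := y / 2) (by linarith) (by linarith) (n := 4) (by norm_num)
      norm_num [Finset.sum_range_succ, Nat.factorial] at h4
      have h5 : Real.exp y = Real.exp (y / 2) ^ 2 := by rw [← Real.exp_nat_mul]; congr 1; push_cast; ring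
      have h6 : Real.exp (y / 2) ≤ 1 + y / 2 + y ^ 2 / 8 + y ^ 3 / 48 + y ^ 4 / 300 := by nlinarith [pow_nonneg hy0 4]
      rw [h5]
      have h7 : Real.exp (y / 2) ^ 2 ≤ (1 + y / 2 + y ^ 2 / 8 + y ^ 3 / 48 + y ^ 4 / 300) ^ 2 :=
        pow_le_pow_left₀ (Real.exp_pos _).le h6 2
      refine h7.trans ?_
      have p1 : 0 ≤ y ^ 3 := by positivity
      have a1 : y ^ 4 ≤ 3 / 2 * y ^ 3 := by
        have : y ^ 4 = y * y ^ 3 := by ring
        rw [this]; exact mul_le_mul_of_nonneg_right hy p1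
      have a2 : y ^ 5 ≤ 9 / 4 * y ^ 3 := by
        have : y ^ 5 = y * y ^ 4 := by ring
        have p2 : 0 ≤ y ^ 4 := by positivity
        have := mul_le_mul_of_nonneg_right hy p2
        nlinarith
      have a3 : y ^ 6 ≤ 27 / 8 * y ^ 3 := by
        have : y ^ 6 = y * y ^ 5 := by ring
        have p2 : 0 ≤ y ^ 5 := by positivity
        have := mul_le_mul_of_nonneg_right hy p2
        nlinarith
      have a4 : y ^ 7 ≤ 81 / 16 * y ^ 3 := by
        have : y ^ 7 = y * y ^ 6 := by ring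
        have p2 : 0 ≤ y ^ 6 := by positivity
        have := mul_le_mul_of_nonneg_right hy p2
        nlinarith
      have a5 : y ^ 8 ≤ 243 / 32 * y ^ 3 := by
        have : y ^ 8 = y * y ^ 7 := by ring
        have p2 : 0 ≤ y ^ 7 := by positivity
        have := mul_le_mul_of_nonneg_right hy p2
        nlinarith
      nlinarith
    · have h4 : Real.exp y ≤ 1 := Real.exp_le_one_iff.mpr hy0.le
      have h5 : -|y| ≤ y := neg_abs_le y
      nlinarith [sq_nonneg (y + 1)]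

lemma int_re_const (x : ℝ) : ∫ _θ : ℝ, x ∂uu = x := by simp

/-- the basic one prime average -/
theorem loc_gen {x : ℝ} (hx : 0 < x) (hx1 : x ≤ 1 / 12) {β γ : ℂ} (hβ : ‖β‖ ≤ 27 / 2 * x) (hγ : ‖γ‖ ≤ 3 * x ^ 2) :
    ∫ θ, Real.exp ((β * ec θ).re + (γ * ec θ ^ 2).re) ∂uu ≤ Real.exp (‖β‖ ^ 2 / 4 + 2700 * x ^ 3) := by
  have hpt : ∀ θ : ℝ, Real.exp ((β * ec θ).re + (γ * ec θ ^ 2).re) ≤
      (1 + ‖β‖ ^ 2 / 4 + 2700 * x ^ 3) + ((β * ec θ ^ 1).re + ((γ + β ^ 2 / 4) * ec θ ^ 2).re) := by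
    intro θ
    have hw : ‖ec θ‖ = 1 := ec_norm θ
    set s1 := (β * ec θ).re with hs1
    set s2 := (γ * ec θ ^ 2).re with hs2
    have hs1b : |s1| ≤ 27 / 2 * x := by
      have := Complex.abs_re_le_norm (β * ec θ)
      rw [norm_mul, hw, mul_one] at this
      exact this.trans hβ
    have hs2b : |s2| ≤ 3 * x ^ 2 := by
      have := Complex.abs_re_le_norm (γ * ec θ ^ 2)
      rw [norm_mul, norm_pow, hw, one_pow, mul_one] at this
      exact this.trans hγ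
    have hx2 : x ^ 2 ≤ 1 / 12 * x := by
      calc x ^ 2 = x * x := by ring
        _ ≤ _ := by gcongr
    have hs : |s1 + s2| ≤ 55 / 4 * x := by
      calc |s1 + s2| ≤ |s1| + |s2| := abs_add_le _ _
        _ ≤ _ := by linarith
    have hs3 : |s1 + s2| ≤ 3 / 2 := by linarith
    have h1 := exp_cubic2 hs3
    have h2 : |s1 + s2| ^ 3 ≤ 2600 * x ^ 3 := by
      calc |s1 + s2| ^ 3 ≤ (55 / 4 * x) ^ 3 := pow_le_pow_left₀ (abs_nonneg _) hs 3
        _ = (55 / 4) ^ 3 * x ^ 3 := by ring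
        _ ≤ _ := by
            have : 0 < x ^ 3 := by positivity
            gcongr
            norm_num
    have h3 : (s1 + s2) ^ 2 / 2 ≤ s1 ^ 2 / 2 + 42 * x ^ 3 := by
      have a1 : s1 * s2 ≤ 27 / 2 * x * (3 * x ^ 2) := by
        calc s1 * s2 ≤ |s1 * s2| := le_abs_self _
          _ = |s1| * |s2| := abs_mul _ _
          _ ≤ _ := mul_le_mul hs1b hs2b (abs_nonneg _) (by positivity)
      have a2 : s2 ^ 2 ≤ (3 * x ^ 2) ^ 2 := by
        rw [← sq_abs]; exact pow_le_pow_left₀ (abs_nonneg _) hs2b 2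
      have a3 : x ^ 4 ≤ 1 / 12 * x ^ 3 := by
        have : 0 < x ^ 3 := by positivity
        calc x ^ 4 = x * x ^ 3 := by ring
          _ ≤ _ := by gcongr
      have : 0 < x ^ 3 := by positivity
      have a4 : 27 / 2 * x * (3 * x ^ 2) = 81 / 2 * x ^ 3 := by ring
      have a5 : (3 * x ^ 2) ^ 2 = 9 * x ^ 4 := by ring
      have a6 : (s1 + s2) ^ 2 / 2 = s1 ^ 2 / 2 + s1 * s2 + s2 ^ 2 / 2 := by ring
      rw [a4] at a1
      rw [a5] at a2
      rw [a6]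
      linarith
    have h4 : s1 ^ 2 = (‖β‖ ^ 2 + ((β ^ 2) * ec θ ^ 2).re) / 2 := by
      rw [hs1, re_sq, norm_mul, hw, mul_one, mul_pow]
    have h5 : ((γ + β ^ 2 / 4) * ec θ ^ 2).re = s2 + (β ^ 2 * ec θ ^ 2).re / 4 := by
      have : (γ + β ^ 2 / 4) * ec θ ^ 2 = γ * ec θ ^ 2 + ((1/4 : ℝ) : ℂ) * (β ^ 2 * ec θ ^ 2) := by
        push_cast; ring
      rw [this, Complex.add_re, Complex.re_ofReal_mul]; ring
    rw [h5, pow_one, ← hs1]
    have h6 : (s1 + s2) ^ 2 / 2 ≤ (‖β‖ ^ 2 + ((β ^ 2) * ec θ ^ 2).re) / 4 + 42 * x ^ 3 := by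
      rw [h4] at h3; linarith
    have : 0 < x ^ 3 := by positivity
    linarith
  have i1 : Integrable (fun θ : ℝ => (β * ec θ ^ 1).re) uu := int_re_integrable _ _
  have i2 : Integrable (fun θ : ℝ => ((γ + β ^ 2 / 4) * ec θ ^ 2).re) uu := int_re_integrable _ _
  have i12 : Integrable (fun θ : ℝ => (β * ec θ ^ 1).re + ((γ + β ^ 2 / 4) * ec θ ^ 2).re) uu := i1.add i2
  have hint : Integrable (fun θ : ℝ =>
      (1 + ‖β‖ ^ 2 / 4 + 2700 * x ^ 3) + ((β * ec θ ^ 1).re + ((γ + β ^ 2 / 4) * ec θ ^ 2).re)) uu :=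
    (integrable_const _).add i12
  have hval : ∫ θ, ((1 + ‖β‖ ^ 2 / 4 + 2700 * x ^ 3) + ((β * ec θ ^ 1).re + ((γ + β ^ 2 / 4) * ec θ ^ 2).re)) ∂uu
      = 1 + ‖β‖ ^ 2 / 4 + 2700 * x ^ 3 := by
    rw [integral_add (integrable_const _) i12, integral_add i1 i2,
          int_re_ec _ one_ne_zero, int_re_ec _ two_ne_zero]
    simp
  calc ∫ θ, Real.exp ((β * ec θ).re + (γ * ec θ ^ 2).re) ∂uu ≤
      ∫ θ, ((1 + ‖β‖ ^ 2 / 4 + 2700 * x ^ 3) + ((β * ec θ ^ 1).re + ((γ + β ^ 2 / 4) * ec θ ^ 2).re)) ∂uu :=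
        integral_mono_of_nonneg (Filter.Eventually.of_forall fun θ => (Real.exp_pos _).le) hint
          (Filter.Eventually.of_forall hpt)
    _ = 1 + ‖β‖ ^ 2 / 4 + 2700 * x ^ 3 := hval
    _ ≤ Real.exp (‖β‖ ^ 2 / 4 + 2700 * x ^ 3) := by
        linarith [Real.add_one_le_exp (‖β‖ ^ 2 / 4 + 2700 * x ^ 3)]

/-- the local factor of the fourth moment, pointwise -/
lemma Hf_pt {x : ℝ} (hx : 0 < x) (hx1 : x ≤ 1 / 12) {a u c : ℂ} (ha : ‖a‖ ≤ 6 / 5 * x)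
    (hu : ‖u‖ ≤ x) (θ : ℝ) : Hf a u c θ ≤ Real.exp (-(a ^ 2).re + 6 * x ^ 3) *
      Real.exp (((a + (starRingEnd ℂ) a + 2 * u + c) * ec θ).re +
        (((a ^ 2 + (starRingEnd ℂ) a ^ 2) / 2 + u ^ 2) * ec θ ^ 2).re) := by
  set β := a + (starRingEnd ℂ) a + 2 * u + c with hβ
  set γ := (a ^ 2 + (starRingEnd ℂ) a ^ 2) / 2 + u ^ 2 with hγ
  have hca : ‖(starRingEnd ℂ) a‖ = ‖a‖ := Complex.norm_conj a
  have hw : ‖ec θ‖ = 1 := ec_norm θ
  have n1 : ‖a * ec θ‖ = ‖a‖ := by rw [norm_mul, hw, mul_one]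
  have n2 : ‖(starRingEnd ℂ) a * ec θ‖ = ‖a‖ := by rw [norm_mul, hw, mul_one, hca]
  have n3 : ‖u * ec θ‖ = ‖u‖ := by rw [norm_mul, hw, mul_one]
  have b1 := inv_norm_le (q := a * ec θ) (by rw [n1]; linarith)
  have b2 := inv_norm_le (q := (starRingEnd ℂ) a * ec θ) (by rw [n2]; linarith)
  have b3 := inv_norm_le (q := u * ec θ) (by rw [n3]; linarith)
  have b0 := norm_one_sub_le (a ^ 2)
  rw [n1] at b1
  rw [n2] at b2
  rw [n3] at b3
  have step1 : Hf a u c θ ≤ Real.exp (-(a ^ 2).re + ‖a ^ 2‖ ^ 2 / 2) *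
      Real.exp ((a * ec θ + (a * ec θ) ^ 2 / 2).re + ‖a‖ ^ 3) *
      Real.exp (((starRingEnd ℂ) a * ec θ + ((starRingEnd ℂ) a * ec θ) ^ 2 / 2).re + ‖a‖ ^ 3) *
      Real.exp ((u * ec θ + (u * ec θ) ^ 2 / 2).re + ‖u‖ ^ 3) ^ 2 * Real.exp ((c * ec θ).re) := by
    unfold Hf
    rw [Pk_norm]
    gcongr
  have hE0 : ‖a ^ 2‖ ^ 2 / 2 + 2 * ‖a‖ ^ 3 + 2 * ‖u‖ ^ 3 ≤ 6 * x ^ 3 := by
    have h3 : ‖a‖ ^ 3 ≤ (6 / 5 * x) ^ 3 := pow_le_pow_left₀ (norm_nonneg _) ha 3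
    have h4 : ‖a‖ ^ 4 ≤ (6 / 5 * x) ^ 4 := pow_le_pow_left₀ (norm_nonneg _) ha 4
    have h5 : ‖u‖ ^ 3 ≤ x ^ 3 := pow_le_pow_left₀ (norm_nonneg _) hu 3
    have h6 : x ^ 4 ≤ 1 / 12 * x ^ 3 := by
      have : 0 < x ^ 3 := by positivity
      calc x ^ 4 = x * x ^ 3 := by ring
        _ ≤ _ := by gcongr
    have h7 : 0 < x ^ 3 := by positivity
    have h8 : ‖a ^ 2‖ ^ 2 = ‖a‖ ^ 4 := by rw [norm_pow, ← pow_mul]
    have h9 : (6 / 5 * x) ^ 3 = 216 / 125 * x ^ 3 := by ring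
    have h10 : (6 / 5 * x) ^ 4 = 1296 / 625 * x ^ 4 := by ring
    rw [h8]
    rw [h9] at h3
    rw [h10] at h4
    linarith
  refine step1.trans ?_
  rw [← Real.exp_nat_mul, ← Real.exp_add, ← Real.exp_add, ← Real.exp_add, ← Real.exp_add, ← Real.exp_add]
  apply Real.exp_le_exp.mpr
  have e1 : (β * ec θ).re + (γ * ec θ ^ 2).re = (a * ec θ + (a * ec θ) ^ 2 / 2).re +
      ((starRingEnd ℂ) a * ec θ + ((starRingEnd ℂ) a * ec θ) ^ 2 / 2).re +
      2 * (u * ec θ + (u * ec θ) ^ 2 / 2).re + (c * ec θ).re := by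
    have : β * ec θ + γ * ec θ ^ 2 = (a * ec θ + (a * ec θ) ^ 2 / 2) +
      ((starRingEnd ℂ) a * ec θ + ((starRingEnd ℂ) a * ec θ) ^ 2 / 2) +
      ((2:ℝ):ℂ) * (u * ec θ + (u * ec θ) ^ 2 / 2) + (c * ec θ) := by
      rw [hβ, hγ]; push_cast; ring
    rw [← Complex.add_re, this, Complex.add_re, Complex.add_re, Complex.add_re, Complex.re_ofReal_mul]
  push_cast
  linarith

/-- the basic one prime estimate, larger parameter -/
theorem one_prime9 {x : ℝ} (hx : 0 < x) (hx1 : x ≤ 1 / 12) {a u c : ℂ} (ha : ‖a‖ ≤ 6 / 5 * x)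
    (hu : ‖u‖ ≤ x) (hc : ‖c‖ ≤ 9 * x) :
    ∫ θ, Hf a u c θ ∂uu ≤ Real.exp (-(a ^ 2).re +
      ‖a + (starRingEnd ℂ) a + 2 * u + c‖ ^ 2 / 4 + 3000 * x ^ 3) := by
  set β := a + (starRingEnd ℂ) a + 2 * u + c with hβ
  set γ := (a ^ 2 + (starRingEnd ℂ) a ^ 2) / 2 + u ^ 2 with hγ
  have hca : ‖(starRingEnd ℂ) a‖ = ‖a‖ := Complex.norm_conj a
  have hβn : ‖β‖ ≤ 27 / 2 * x := by
    calc ‖β‖ ≤ ‖a‖ + ‖(starRingEnd ℂ) a‖ + ‖2 * u‖ + ‖c‖ := by
          rw [hβ]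
          exact (norm_add_le _ _).trans (add_le_add_left ((norm_add_le _ _).trans
            (add_le_add_left (norm_add_le _ _) _)) _)
      _ ≤ 6 / 5 * x + 6 / 5 * x + 2 * x + 9 * x := by
          rw [hca, norm_mul, Complex.norm_ofNat]; linarith
      _ ≤ _ := by linarith
  have hγn : ‖γ‖ ≤ 3 * x ^ 2 := by
    have h1 : ‖a‖ ^ 2 ≤ (6 / 5 * x) ^ 2 := pow_le_pow_left₀ (norm_nonneg _) ha 2
    have h2 : ‖u‖ ^ 2 ≤ x ^ 2 := pow_le_pow_left₀ (norm_nonneg _) hu 2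
    calc ‖γ‖ ≤ ‖(a ^ 2 + (starRingEnd ℂ) a ^ 2) / 2‖ + ‖u ^ 2‖ := norm_add_le _ _
      _ ≤ (‖a‖ ^ 2 + ‖a‖ ^ 2) / 2 + ‖u‖ ^ 2 := by
          rw [norm_div, Complex.norm_ofNat, norm_pow]
          gcongr
          refine (norm_add_le _ _).trans ?_
          rw [norm_pow, norm_pow, hca]
      _ ≤ _ := by
          have : (6 / 5 * x) ^ 2 = 36 / 25 * x ^ 2 := by ring
          rw [this] at h1
          nlinarith [sq_nonneg x]
  have h1 := loc_gen hx hx1 hβn hγn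
  have hcont : Continuous fun θ : ℝ => Real.exp ((β * ec θ).re + (γ * ec θ ^ 2).re) := by
    have := ec_cont
    have h2 : Continuous fun θ : ℝ => (β * ec θ).re := Complex.continuous_re.comp (by fun_prop)
    have h3 : Continuous fun θ : ℝ => (γ * ec θ ^ 2).re := Complex.continuous_re.comp (by fun_prop)
    fun_prop
  have hi : Integrable (fun θ : ℝ => Real.exp ((β * ec θ).re + (γ * ec θ ^ 2).re)) uu := by
    refine Integrable.of_bound (C := Real.exp (‖β‖ + ‖γ‖)) hcont.aestronglyMeasurable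
      (Filter.Eventually.of_forall fun θ => ?_)
    rw [Real.norm_eq_abs, abs_of_pos (Real.exp_pos _)]
    apply Real.exp_le_exp.mpr
    have a1 := Complex.re_le_norm (β * ec θ)
    have a2 := Complex.re_le_norm (γ * ec θ ^ 2)
    rw [norm_mul, ec_norm, mul_one] at a1
    rw [norm_mul, norm_pow, ec_norm, one_pow, mul_one] at a2
    linarith
  calc ∫ θ, Hf a u c θ ∂uu ≤ ∫ θ, Real.exp (-(a ^ 2).re + 6 * x ^ 3) *
      Real.exp ((β * ec θ).re + (γ * ec θ ^ 2).re) ∂uu :=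
        integral_mono_of_nonneg (Filter.Eventually.of_forall fun θ => Hf_nonneg _ _ _ _) (hi.const_mul _)
          (Filter.Eventually.of_forall fun θ => Hf_pt hx hx1 ha hu θ)
    _ = Real.exp (-(a ^ 2).re + 6 * x ^ 3) * ∫ θ, Real.exp ((β * ec θ).re + (γ * ec θ ^ 2).re) ∂uu :=
        integral_const_mul _ _
    _ ≤ Real.exp (-(a ^ 2).re + 6 * x ^ 3) * Real.exp (‖β‖ ^ 2 / 4 + 2700 * x ^ 3) :=
        mul_le_mul_of_nonneg_left h1 (Real.exp_pos _).le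
    _ ≤ _ := by
        rw [← Real.exp_add]
        apply Real.exp_le_exp.mpr
        have : 0 < x ^ 3 := by positivity
        linarith

/-- upper bound for one minus a small number -/
lemma one_sub_norm_le {q : ℂ} (hq : ‖q‖ ≤ 1 / 8) :
    ‖1 - q‖ ≤ Real.exp (-(q + q ^ 2 / 2).re + ‖q‖ ^ 3) := by
  have h1 : ‖-q‖ < 1 := by rw [norm_neg]; linarith
  have h := Complex.norm_log_sub_logTaylor_le 2 h1
  have e1 : logTaylor (2 + 1) (-q) = -q - q ^ 2 / 2 := by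
    simp [logTaylor, Finset.sum_range_succ]; ring
  rw [e1, norm_neg] at h
  have h2 : ‖q‖ ^ (2 + 1) * (1 - ‖q‖)⁻¹ / (((2:ℕ):ℝ) + 1) ≤ ‖q‖ ^ 3 := by
    have h3 : (1 - ‖q‖)⁻¹ ≤ 3 := by
      rw [inv_le_comm₀ (by linarith) (by norm_num)]; linarith
    have h4 : 0 ≤ ‖q‖ ^ 3 := by positivity
    push_cast
    rw [div_le_iff₀ (by norm_num)]
    calc ‖q‖ ^ (2+1) * (1 - ‖q‖)⁻¹ ≤ ‖q‖ ^ 3 * 3 := mul_le_mul_of_nonneg_left h3 h4
      _ = _ := by ring
  have hne : 1 - q ≠ 0 := one_sub_ne (by linarith)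
  have e2 : ‖1 - q‖ = Real.exp ((Complex.log (1 + -q)).re) := by
    have : 1 - q = Complex.exp (Complex.log (1 + -q)) := by
      rw [Complex.exp_log (by simpa [sub_eq_add_neg] using hne), sub_eq_add_neg]
    conv_lhs => rw [this]
    rw [Complex.norm_exp]
  rw [e2]
  apply Real.exp_le_exp.mpr
  have h5 := Complex.abs_re_le_norm (Complex.log (1 + -q) - (-q - q ^ 2 / 2))
  have h6 := (abs_le.mp (h5.trans (h.trans h2))).2
  simp only [Complex.sub_re, Complex.neg_re, Complex.add_re] at h6 ⊢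
  linarith

/-- the integrand of the mollifier at one prime -/
def Hm (u c : ℂ) (x : ℝ) : ℝ := ‖1 - u * ec x‖ ^ 2 * Real.exp ((c * ec x).re)

lemma Hm_nonneg (u c : ℂ) (x : ℝ) : 0 ≤ Hm u c x := by unfold Hm; positivity

lemma Hm_cont (u c : ℂ) : Continuous (Hm u c) := by
  unfold Hm
  have := ec_cont
  have h2 : Continuous fun θ : ℝ => (c * ec θ).re := Complex.continuous_re.comp (by fun_prop)
  fun_prop

lemma Hm_bdd {u : ℂ} (hu : ‖u‖ ≤ 1) (c : ℂ) (x : ℝ) : Hm u c x ≤ 4 * Real.exp ‖c‖ := by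
  unfold Hm
  have h1 : (c * ec x).re ≤ ‖c‖ := by
    have := Complex.re_le_norm (c * ec x)
    rwa [norm_mul, ec_norm, mul_one] at this
  have h2 : ‖1 - u * ec x‖ ≤ 2 := by
    calc ‖1 - u * ec x‖ ≤ ‖(1:ℂ)‖ + ‖u * ec x‖ := norm_sub_le _ _
      _ ≤ 2 := by rw [norm_one, norm_mul, ec_norm, mul_one]; linarith
  have h3 : ‖1 - u * ec x‖ ^ 2 ≤ 2 ^ 2 := pow_le_pow_left₀ (norm_nonneg _) h2 2
  calc _ ≤ (2:ℝ) ^ 2 * Real.exp ‖c‖ := by gcongr
    _ = _ := by norm_num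

theorem one_primeM {x : ℝ} (hx : 0 < x) (hx1 : x ≤ 1 / 12) {u c : ℂ} (hu : ‖u‖ ≤ x) (hc : ‖c‖ ≤ 9 * x) :
    ∫ θ, Hm u c θ ∂uu ≤ Real.exp (‖c / 2 - u‖ ^ 2 + 3000 * x ^ 3) := by
  set β := c - 2 * u with hβ
  set γ := -u ^ 2 with hγ
  have hβn : ‖β‖ ≤ 27 / 2 * x := by
    calc ‖β‖ ≤ ‖c‖ + ‖2 * u‖ := norm_sub_le _ _
      _ ≤ 9 * x + 2 * x := by rw [norm_mul, Complex.norm_ofNat]; linarith
      _ ≤ _ := by linarith
  have hγn : ‖γ‖ ≤ 3 * x ^ 2 := by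
    rw [hγ, norm_neg, norm_pow]
    have h2 : ‖u‖ ^ 2 ≤ x ^ 2 := pow_le_pow_left₀ (norm_nonneg _) hu 2
    nlinarith [sq_nonneg x]
  have h1 := loc_gen hx hx1 hβn hγn
  have hpt : ∀ θ : ℝ, Hm u c θ ≤ Real.exp (2 * x ^ 3) * Real.exp ((β * ec θ).re + (γ * ec θ ^ 2).re) := by
    intro θ
    have hw : ‖ec θ‖ = 1 := ec_norm θ
    have n3 : ‖u * ec θ‖ = ‖u‖ := by rw [norm_mul, hw, mul_one]
    have b3 := one_sub_norm_le (q := u * ec θ) (by rw [n3]; linarith)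
    rw [n3] at b3
    have h5 : ‖u‖ ^ 3 ≤ x ^ 3 := pow_le_pow_left₀ (norm_nonneg _) hu 3
    unfold Hm
    calc ‖1 - u * ec θ‖ ^ 2 * Real.exp ((c * ec θ).re) ≤
        Real.exp (-(u * ec θ + (u * ec θ) ^ 2 / 2).re + ‖u‖ ^ 3) ^ 2 * Real.exp ((c * ec θ).re) := by gcongr
      _ ≤ _ := by
          rw [← Real.exp_nat_mul, ← Real.exp_add, ← Real.exp_add]
          apply Real.exp_le_exp.mpr
          have e1 : (β * ec θ).re + (γ * ec θ ^ 2).re = (c * ec θ).re - 2 * (u * ec θ + (u * ec θ) ^ 2 / 2).re := by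
            have : β * ec θ + γ * ec θ ^ 2 = c * ec θ - ((2:ℝ):ℂ) * (u * ec θ + (u * ec θ) ^ 2 / 2) := by
              rw [hβ, hγ]; push_cast; ring
            rw [← Complex.add_re, this, Complex.sub_re, Complex.re_ofReal_mul]
          push_cast
          linarith
  have hcont : Continuous fun θ : ℝ => Real.exp ((β * ec θ).re + (γ * ec θ ^ 2).re) := by
    have := ec_cont
    have h2 : Continuous fun θ : ℝ => (β * ec θ).re := Complex.continuous_re.comp (by fun_prop)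
    have h3 : Continuous fun θ : ℝ => (γ * ec θ ^ 2).re := Complex.continuous_re.comp (by fun_prop)
    fun_prop
  have hi : Integrable (fun θ : ℝ => Real.exp ((β * ec θ).re + (γ * ec θ ^ 2).re)) uu := by
    refine Integrable.of_bound (C := Real.exp (‖β‖ + ‖γ‖)) hcont.aestronglyMeasurable
      (Filter.Eventually.of_forall fun θ => ?_)
    rw [Real.norm_eq_abs, abs_of_pos (Real.exp_pos _)]
    apply Real.exp_le_exp.mpr
    have a1 := Complex.re_le_norm (β * ec θ)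
    have a2 := Complex.re_le_norm (γ * ec θ ^ 2)
    rw [norm_mul, ec_norm, mul_one] at a1
    rw [norm_mul, norm_pow, ec_norm, one_pow, mul_one] at a2
    linarith
  have e2 : ‖β‖ ^ 2 / 4 = ‖c / 2 - u‖ ^ 2 := by
    have : β = 2 * (c / 2 - u) := by rw [hβ]; ring
    rw [this, norm_mul, Complex.norm_ofNat]; ring
  calc ∫ θ, Hm u c θ ∂uu ≤ ∫ θ, Real.exp (2 * x ^ 3) *
      Real.exp ((β * ec θ).re + (γ * ec θ ^ 2).re) ∂uu :=
        integral_mono_of_nonneg (Filter.Eventually.of_forall fun θ => Hm_nonneg _ _ _) (hi.const_mul _)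
          (Filter.Eventually.of_forall hpt)
    _ = Real.exp (2 * x ^ 3) * ∫ θ, Real.exp ((β * ec θ).re + (γ * ec θ ^ 2).re) ∂uu :=
        integral_const_mul _ _
    _ ≤ Real.exp (2 * x ^ 3) * Real.exp (‖β‖ ^ 2 / 4 + 2700 * x ^ 3) :=
        mul_le_mul_of_nonneg_left h1 (Real.exp_pos _).le
    _ ≤ _ := by
        rw [← Real.exp_add, e2]
        apply Real.exp_le_exp.mpr
        have : 0 < x ^ 3 := by positivity
        linarith

end

end Pool.Agent.Y24
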