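import Pool.Agent.Y24.A1

set_option autoImplicit false

/-!
The average over the torus of a product of general local factors and the multiplier.
-/

namespace Pool.Agent.Y24

open Finset MeasureTheory Complex
open Pool.Agent.W184.NZ
open Pool.Agent.TH806

noncomputable section

variable {N : ℕ}

/-- the coefficients at the primes -/
def ccg (J : ℕ) (a : ℝ) (I : ℕ → Finset ℕ) (s : Fin J → Fin 5) (p : Ix N) : ℂ :=
  ∑ i : Fin J, if p.1 ∈ I i then cg a (s i) * ((p.1 : ℕ) : ℂ) ^ (-(1 / 2) : ℂ) else 0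

lemma ccg_sum (J : ℕ) (a : ℝ) {I : ℕ → Finset ℕ} (hI : ∀ i < J, I i ⊆ Nat.primesBelow N)
    (s : Fin J → Fin 5) (θ : Ix N → ℝ) :
    ∑ p : Ix N, (ccg J a I s p * ec (θ p)).re = ∑ i : Fin J, (cg a (s i) * PT θ (I i)).re := by
  have h1 : ∀ p : Ix N, (ccg J a I s p * ec (θ p)).re = ∑ i : Fin J,
      (cg a (s i) * (if p.1 ∈ I i then ((p.1 : ℕ) : ℂ) ^ (-(1 / 2) : ℂ) * ec (θ p) else 0)).re := by
    intro p
    unfold ccg
    rw [sum_mul, Complex.re_sum]
    refine sum_congr rfl fun i _ => ?_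
    split_ifs
    · rw [mul_assoc]
    · simp
  rw [sum_congr rfl fun p _ => h1 p, sum_comm]
  refine sum_congr rfl fun i _ => ?_
  rw [PT_eq θ (hI i i.2), mul_sum, Complex.re_sum]

lemma gt_le6 {J : ℕ} {a : ℝ} (ha : |a| ≤ 2) {R : ℕ → ℕ} (hR : ∀ i, 1 ≤ R i) (I : ℕ → Finset ℕ)
    (θ : Ix N → ℝ) :
    gt J a R I θ ≤ ∑ s : Fin J → Fin 5, (∏ i : Fin J, Af (R i) (s i)) *
      Real.exp (∑ i : Fin J, (cg a (s i) * PT θ (I i)).re) := by
  unfold gt
  rw [Finset.prod_range]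
  have h1 : ∏ i : Fin J, gf (20 * R i) a (R i) (PT θ (I i)) ≤
      ∏ i : Fin J, ∑ j : Fin 5, Af (R i) j * Real.exp ((cg a j * PT θ (I i)).re) :=
    prod_le_prod (fun i _ => gf_nonneg _ _ _ _) fun i _ => gf_le_sum6 (hR i) ha _
  refine h1.trans (le_of_eq ?_)
  rw [Fintype.prod_sum]
  refine sum_congr rfl fun s _ => ?_
  rw [prod_mul_distrib, Real.exp_sum]

/-- the local factor times an exponential -/
def FE (F : Ix N → ℝ → ℝ) (c : ℂ) (p : Ix N) (x : ℝ) : ℝ := F p x * Real.exp ((c * ec x).re)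

/-- admissible families of local factors -/
structure LF (F : Ix N → ℝ → ℝ) : Prop where
  nn : ∀ p x, 0 ≤ F p x
  cont : ∀ p, Continuous (F p)
  bdd : ∀ p, ∃ B : ℝ, ∀ x, F p x ≤ B

lemma LF.FE_nn {F : Ix N → ℝ → ℝ} (h : LF F) (c : ℂ) (p : Ix N) (x : ℝ) : 0 ≤ FE F c p x :=
  mul_nonneg (h.nn p x) (Real.exp_pos _).le

lemma LF.FE_cont {F : Ix N → ℝ → ℝ} (h : LF F) (c : ℂ) (p : Ix N) : Continuous (FE F c p) := by
  unfold FE
  have := ec_cont
  have h2 : Continuous fun θ : ℝ => (c * ec θ).re := Complex.continuous_re.comp (by fun_prop)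
  exact (h.cont p).mul (Real.continuous_exp.comp h2)

lemma LF.FE_bdd {F : Ix N → ℝ → ℝ} (h : LF F) (c : ℂ) (p : Ix N) : ∃ B : ℝ, 0 ≤ B ∧ ∀ x, FE F c p x ≤ B := by
  obtain ⟨B, hB⟩ := h.bdd p
  have hB0 : 0 ≤ B := (h.nn p 0).trans (hB 0)
  refine ⟨B * Real.exp ‖c‖, by positivity, fun x => ?_⟩
  unfold FE
  have h1 : (c * ec x).re ≤ ‖c‖ := by
    have := Complex.re_le_norm (c * ec x)
    rwa [norm_mul, ec_norm, mul_one] at this
  have := hB x
  gcongr

/-- the average of the product -/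
theorem tor_gen {F : Ix N → ℝ → ℝ} (hF : LF F) {J : ℕ} {a : ℝ} (ha : |a| ≤ 2) {R : ℕ → ℕ} (hR : ∀ i, 1 ≤ R i)
    {I : ℕ → Finset ℕ} (hI : ∀ i < J, I i ⊆ Nat.primesBelow N) (hd : ∀ i j, i < j → Disjoint (I i) (I j))
    {u0 : ℕ → ℝ} {u1 : ℕ → Fin 5 → ℝ}
    (h0 : ∀ p : Ix N, (∀ i < J, p.1 ∉ I i) → ∫ x, FE F 0 p x ∂uu ≤ Real.exp (u0 p.1))
    (h1 : ∀ p : Ix N, ∀ i < J, p.1 ∈ I i → ∀ j : Fin 5,
      ∫ x, FE F (cg a j * ((p.1 : ℕ) : ℂ) ^ (-(1 / 2) : ℂ)) p x ∂uu ≤ Real.exp (u1 p.1 j)) :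
    ∫ θ, (∏ p : Ix N, F p (θ p)) * gt J a R I θ ∂(TT N) ≤
      Real.exp (∑ p ∈ (Nat.primesBelow N).filter (fun p => ∀ i < J, p ∉ I i), u0 p) *
      ∏ i ∈ range J, ∑ j : Fin 5, Af (R i) j * Real.exp (∑ p ∈ I i, u1 p j) := by
  have hHc : ∀ s : Fin J → Fin 5, Continuous fun θ : Ix N → ℝ =>
      ∏ p : Ix N, FE F (ccg J a I s p) p (θ p) := fun s =>
    continuous_finsetProd _ fun p _ => (hF.FE_cont _ p).comp (continuous_apply p)
  have hHi : ∀ s : Fin J → Fin 5, Integrable (fun θ : Ix N → ℝ =>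
      ∏ p : Ix N, FE F (ccg J a I s p) p (θ p)) (TT N) := by
    intro s
    choose B hB0 hB using fun p : Ix N => hF.FE_bdd (ccg J a I s p) p
    refine Integrable.of_bound (C := ∏ p : Ix N, B p) (hHc s).aestronglyMeasurable
      (Filter.Eventually.of_forall fun θ => ?_)
    rw [norm_prod]
    refine prod_le_prod (fun p _ => norm_nonneg _) fun p _ => ?_
    rw [Real.norm_eq_abs, abs_of_nonneg (hF.FE_nn _ _ _)]
    exact hB p _
  have hpr : ∀ (s : Fin J → Fin 5) (θ : Ix N → ℝ), ∏ p : Ix N, FE F (ccg J a I s p) p (θ p) =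
      (∏ p : Ix N, F p (θ p)) * Real.exp (∑ i : Fin J, (cg a (s i) * PT θ (I i)).re) := by
    intro s θ
    unfold FE
    rw [prod_mul_distrib, ← Real.exp_sum, ccg_sum J a hI s θ]
  have hprod0 : ∀ θ : Ix N → ℝ, 0 ≤ ∏ p : Ix N, F p (θ p) := fun θ => prod_nonneg fun p _ => hF.nn p _
  have step1 : ∫ θ, (∏ p : Ix N, F p (θ p)) * gt J a R I θ ∂(TT N) ≤
      ∫ θ, ∑ s : Fin J → Fin 5, (∏ i : Fin J, Af (R i) (s i)) *
        ∏ p : Ix N, FE F (ccg J a I s p) p (θ p) ∂(TT N) := by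
    refine integral_mono_of_nonneg (Filter.Eventually.of_forall fun θ => ?_)
      (integrable_finsetSum _ fun s _ => (hHi s).const_mul _) (Filter.Eventually.of_forall fun θ => ?_)
    · exact mul_nonneg (hprod0 θ) (gt_nonneg _ _ _ _ _)
    · simp only
      calc (∏ p : Ix N, F p (θ p)) * gt J a R I θ ≤ (∏ p : Ix N, F p (θ p)) *
          ∑ s : Fin J → Fin 5, (∏ i : Fin J, Af (R i) (s i)) *
            Real.exp (∑ i : Fin J, (cg a (s i) * PT θ (I i)).re) :=
            mul_le_mul_of_nonneg_left (gt_le6 ha hR I θ) (hprod0 θ)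
        _ = _ := by
            rw [mul_sum]
            refine sum_congr rfl fun s _ => ?_
            rw [hpr s θ]; ring
  refine step1.trans ?_
  rw [integral_finsetSum _ fun s _ => (hHi s).const_mul _]
  have step2 : ∀ s : Fin J → Fin 5, ∫ θ, (∏ i : Fin J, Af (R i) (s i)) *
        ∏ p : Ix N, FE F (ccg J a I s p) p (θ p) ∂(TT N) ≤
      Real.exp (∑ p ∈ (Nat.primesBelow N).filter (fun p => ∀ i < J, p ∉ I i), u0 p) *
        ∏ i : Fin J, (Af (R i) (s i) * Real.exp (∑ p ∈ I i, u1 p (s i))) := by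
    intro s
    rw [integral_const_mul]
    unfold TT
    rw [integral_fintype_prod_eq_prod (𝕜 := ℝ) (f := fun (p : Ix N) (x : ℝ) =>
      FE F (ccg J a I s p) p x)]
    -- exponent at p
    set V : ℕ → ℝ := fun q => (∑ i : Fin J, if q ∈ I i then u1 q (s i) else 0) +
      (if (∀ i < J, q ∉ I i) then u0 q else 0) with hV
    have hp : ∀ p : Ix N, ∫ x, FE F (ccg J a I s p) p x ∂uu ≤ Real.exp (V p.1) := by
      intro p
      by_cases hex : ∀ i < J, p.1 ∉ I i
      · have e1 : ccg J a I s p = 0 := by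
          unfold ccg
          exact sum_eq_zero fun i _ => if_neg (hex i i.2)
        have e2 : V p.1 = u0 p.1 := by
          rw [hV]; simp only
          rw [sum_eq_zero fun (i : Fin J) _ => if_neg (hex i i.2), if_pos hex, zero_add]
        rw [e1, e2]; exact h0 p hex
      · push Not at hex
        obtain ⟨i, hi, hpi⟩ := hex
        have huniq : ∀ j : Fin J, j ≠ ⟨i, hi⟩ → p.1 ∉ I j := by
          intro j hj hpj
          have hne : (j : ℕ) ≠ i := fun h => hj (Fin.ext h)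
          rcases lt_or_gt_of_ne hne with h | h
          · exact disjoint_left.mp (hd _ _ h) hpj hpi
          · exact disjoint_left.mp (hd _ _ h) hpi hpj
        have e1 : ccg J a I s p = cg a (s ⟨i, hi⟩) * ((p.1 : ℕ) : ℂ) ^ (-(1 / 2) : ℂ) := by
          unfold ccg
          rw [sum_eq_single ⟨i, hi⟩ (fun j _ hj => if_neg (huniq j hj)) (fun h => absurd (mem_univ _) h)]
          exact if_pos hpi
        have e2 : V p.1 = u1 p.1 (s ⟨i, hi⟩) := by
          rw [hV]; simp only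
          rw [sum_eq_single ⟨i, hi⟩ (fun j _ hj => if_neg (huniq j hj)) (fun h => absurd (mem_univ _) h),
            if_pos hpi, if_neg (by push Not; exact ⟨i, hi, hpi⟩), add_zero]
        rw [e1, e2]; exact h1 p i hi hpi _
    have hprod : ∏ p : Ix N, ∫ x, FE F (ccg J a I s p) p x ∂uu ≤ Real.exp (∑ p : Ix N, V p.1) := by
      rw [Real.exp_sum]
      exact prod_le_prod (fun p _ => integral_nonneg fun x => hF.FE_nn _ _ _) fun p _ => hp p
    have hsum : ∑ p : Ix N, V p.1 = (∑ p ∈ (Nat.primesBelow N).filter (fun p => ∀ i < J, p ∉ I i), u0 p) +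
        ∑ i : Fin J, ∑ p ∈ I i, u1 p (s i) := by
      rw [Finset.sum_coe_sort (Nat.primesBelow N) V, hV]
      simp only
      rw [sum_add_distrib, sum_comm, add_comm, sum_filter]
      congr 1
      refine sum_congr rfl fun i _ => ?_
      rw [← sum_filter]
      refine sum_congr ?_ fun _ _ => rfl
      ext q
      rw [mem_filter]
      exact ⟨fun h => h.2, fun h => ⟨hI i i.2 h, h⟩⟩
    have hA : 0 ≤ ∏ i : Fin J, Af (R i) (s i) := prod_nonneg fun i _ => Af_nonneg _ _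
    refine (mul_le_mul_of_nonneg_left hprod hA).trans (le_of_eq ?_)
    have e3 : Real.exp (∑ i : Fin J, ∑ p ∈ I i, u1 p (s i)) =
        ∏ i : Fin J, Real.exp (∑ p ∈ I i, u1 p (s i)) := Real.exp_sum _ _
    rw [hsum, Real.exp_add, e3, prod_mul_distrib]
    ring
  refine (sum_le_sum fun s _ => step2 s).trans (le_of_eq ?_)
  rw [← mul_sum, Finset.prod_range, Fintype.prod_sum]

/-- the error terms -/
def eg (L : ℝ) (p : ℕ) : ℝ := 50 / L * (Real.log p / p) + 3000 * (p : ℝ) ^ (-(3 / 2 : ℝ))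

lemma eg_nonneg {L : ℝ} (hL : 1 ≤ L) {p : ℕ} (hp : 1 ≤ p) : 0 ≤ eg L p := by
  unfold eg
  have : (1:ℝ) ≤ p := by exact_mod_cast hp
  have := Real.log_nonneg this
  positivity

/-- sums of the error terms -/
lemma eg_sum : ∃ C : ℝ, 0 ≤ C ∧ ∀ (N : ℕ) (L : ℝ), 1 ≤ L → (∀ p : ℕ, p < N → Real.log p ≤ 3 * L) →
    ∀ S : Finset ℕ, S ⊆ Nat.primesBelow N → ∑ p ∈ S, eg L p ≤ C := by
  obtain ⟨C, hC0, hC⟩ := err_sum
  refine ⟨3 * C, by positivity, fun N L hL hN S hS => ?_⟩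
  have h1 := hC N L hL hN S hS
  have h2 : ∑ p ∈ S, eg L p ≤ 3 * ∑ p ∈ S, (25 / L * (Real.log p / p) + 1300 * (p : ℝ) ^ (-(3 / 2 : ℝ))) := by
    rw [mul_sum]
    refine sum_le_sum fun p hp => ?_
    have hp' := (Nat.mem_primesBelow.mp (hS hp)).2
    have hp1 : (1:ℝ) ≤ p := by exact_mod_cast hp'.one_le
    have h3 : 0 ≤ Real.log p / p := div_nonneg (Real.log_nonneg hp1) (by linarith)
    have h4 : 0 ≤ (p : ℝ) ^ (-(3 / 2 : ℝ)) := by positivity
    have h5 : 0 ≤ 25 / L * (Real.log p / p) := by positivity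
    unfold eg
    have e : 50 / L * (Real.log p / p) = 2 * (25 / L * (Real.log p / p)) := by ring
    rw [e]
    linarith
  linarith

variable {J Rs : ℕ} {L c y : ℝ}

/-- one block -/
lemma block_gen {I : Finset ℕ} (hv : vI I ≤ c) (R : ℕ) {u1 : ℕ → Fin 5 → ℝ}
    (hu : ∀ p ∈ I, ∀ j, u1 p j ≤ u1 p 0 + 50 * (1 / (p:ℝ))) :
    ∑ j : Fin 5, Af R j * Real.exp (∑ p ∈ I, u1 p j) ≤
      Real.exp (∑ p ∈ I, u1 p 0) * Real.exp ((3 + 8 * Real.exp (50 * c)) * Real.exp (-(R:ℝ))) := by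
  have hv0 := vI_nonneg I
  set S0 := ∑ p ∈ I, u1 p 0 with hS0
  have h1 : ∀ j : Fin 5, ∑ p ∈ I, u1 p j ≤ S0 + 50 * c := by
    intro j
    refine (sum_le_sum fun p hp => hu p hp j).trans ?_
    rw [sum_add_distrib, ← mul_sum]
    have : ∑ p ∈ I, 1 / (p:ℝ) = vI I := rfl
    rw [this]
    linarith
  rw [Fin.sum_univ_five]
  have e1 : Af R 0 = (1 + Real.exp (-(R:ℝ))) ^ 2 := rfl
  have e2 : ∀ j : Fin 5, j ≠ 0 → Af R j = 2 * Real.exp (-(3 / 2 * (R:ℝ))) := by
    intro j hj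
    fin_cases j
    · exact absurd rfl hj
    all_goals rfl
  have hR0 : (0:ℝ) ≤ R := Nat.cast_nonneg _
  have hfar : ∀ j : Fin 5, j ≠ 0 → Af R j * Real.exp (∑ p ∈ I, u1 p j) ≤
      Real.exp S0 * (2 * Real.exp (50 * c) * Real.exp (-(R:ℝ))) := by
    intro j hj
    rw [e2 j hj]
    have h6 : Real.exp (∑ p ∈ I, u1 p j) ≤ Real.exp (S0 + 50 * c) := Real.exp_le_exp.mpr (h1 j)
    have h7 : Real.exp (-(3 / 2 * (R:ℝ))) ≤ Real.exp (-(R:ℝ)) := Real.exp_le_exp.mpr (by linarith)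
    calc _ ≤ 2 * Real.exp (-(R:ℝ)) * Real.exp (S0 + 50 * c) := by gcongr
      _ = _ := by rw [Real.exp_add]; ring
  have f1 := hfar 1 (by decide)
  have f2 := hfar 2 (by decide)
  have f3 := hfar 3 (by decide)
  have f4 := hfar 4 (by decide)
  rw [e1]
  set X := Real.exp (-(R:ℝ)) with hX
  have hX0 : 0 < X := Real.exp_pos _
  have hX1 : X ≤ 1 := Real.exp_le_one_iff.mpr (by linarith)
  have h8 : (1 + X) ^ 2 ≤ 1 + 3 * X := by nlinarith
  have h9 : (1 + X) ^ 2 * Real.exp S0 ≤ (1 + 3 * X) * Real.exp S0 := mul_le_mul_of_nonneg_right h8 (Real.exp_pos _).le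
  have h10 : 1 + (3 + 8 * Real.exp (50 * c)) * X ≤ Real.exp ((3 + 8 * Real.exp (50 * c)) * X) := by
    linarith [Real.add_one_le_exp ((3 + 8 * Real.exp (50 * c)) * X)]
  have h11 := mul_le_mul_of_nonneg_left h10 (Real.exp_pos S0).le
  nlinarith

/-- the bound for the average over the torus -/
theorem tor_fin (c A : ℝ) : ∃ C : ℝ, 0 < C ∧ ∀ (y L a : ℝ) (N J Rs : ℕ) (F : Ix N → ℝ → ℝ) (u1 : ℕ → Fin 5 → ℝ)
    (m : ℕ → ℝ),
    BL c y J → 1 ≤ Rs → 1 ≤ L → (∀ p : ℕ, p < N → Real.log p ≤ 3 * L) → |a| ≤ 2 → Real.log y ≤ L →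
    L ≤ A * Real.log y → y < N → LF F →
    (∀ p : Ix N, p.1 < 144 → ∫ x, FE F 0 p x ∂uu ≤ Real.exp 6) →
    (∀ p : Ix N, 144 ≤ p.1 → ∫ x, FE F 0 p x ∂uu ≤ Real.exp (3 * (1 / (p.1:ℝ)) + eg L p.1)) →
    (∀ p : Ix N, 144 ≤ p.1 → ∀ j : Fin 5,
      ∫ x, FE F (cg a j * ((p.1 : ℕ) : ℂ) ^ (-(1 / 2) : ℂ)) p x ∂uu ≤ Real.exp (u1 p.1 j)) →
    (∀ p : ℕ, 144 ≤ p → ∀ j, u1 p j ≤ u1 p 0 + 50 * (1 / (p:ℝ))) →
    (∀ p : ℕ, 144 ≤ p → u1 p 0 ≤ m p * (1 / (p:ℝ)) + eg L p) →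
    ∫ θ, (∏ p : Ix N, F p (θ p)) * gt J a (RR Rs) (II y) θ ∂(TT N) ≤
      C * Real.exp (∑ p ∈ PF y (bb y J), m p * (1 / (p:ℝ))) := by
  obtain ⟨C2, hC20, hC2⟩ := gap_sum
  obtain ⟨C3, hC30, hC3⟩ := eg_sum
  refine ⟨Real.exp (6 * 144 + (3 * (Real.log (3 * A) + C2) + C3) + C3 +
    (3 + 8 * Real.exp (50 * c)) * 2), Real.exp_pos _, ?_⟩
  intro y L a N J Rs F u1 m hB hRs hL hlogN ha hyL hLy hyN hF hsmall hbig0 hbig hu1 hm
  have hy := hB.y1
  have hR1 : ∀ i, 1 ≤ RR Rs i := fun i => by unfold RR; omega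
  have hIsub : ∀ i < J, II y i ⊆ Nat.primesBelow N := by
    intro i _ p hp
    rw [mem_II] at hp
    rw [Nat.mem_primesBelow]
    refine ⟨?_, hp.1⟩
    have h1 : (p:ℝ) ≤ y := hp.2.2.2.trans (bb_le (by linarith) i)
    have h2 : (p:ℝ) < N := lt_of_le_of_lt h1 hyN
    exact_mod_cast h2
  set u0 : ℕ → ℝ := fun p => if p < 144 then 6 else 3 * (1 / (p:ℝ)) + eg L p with hu0
  have hmain := tor_gen (N := N) hF (J := J) ha hR1 hIsub hB.rg.dj
    (u0 := u0) (u1 := u1)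
    (fun p _ => by
      rw [hu0]; simp only
      split_ifs with h144
      · exact hsmall p h144
      · exact hbig0 p (by omega))
    (fun p i hi hpi j => hbig p (hB.rg.pr i p.1 hpi).2.1 j)
  refine hmain.trans ?_
  -- first factor
  have F1 : ∑ p ∈ (Nat.primesBelow N).filter (fun p => ∀ i < J, p ∉ II y i), u0 p ≤
      6 * 144 + (3 * (Real.log (3 * A) + C2) + C3) := by
    rw [← sum_filter_add_sum_filter_not _ (fun p : ℕ => p < 144)]
    refine add_le_add ?_ ?_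
    · calc _ ≤ ∑ p ∈ ((Nat.primesBelow N).filter (fun p => ∀ i < J, p ∉ II y i)).filter (fun p => p < 144), (6:ℝ) := by
            refine sum_le_sum fun p hp => ?_
            rw [mem_filter] at hp
            rw [hu0]; simp only; rw [if_pos hp.2]
        _ ≤ _ := by
            rw [sum_const, nsmul_eq_mul, mul_comm]
            have hcard : (((Nat.primesBelow N).filter (fun p => ∀ i < J, p ∉ II y i)).filter (fun p => p < 144)).card ≤ 144 := by
              calc _ ≤ (range 144).card := card_le_card (fun p hp => by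
                    rw [mem_filter] at hp; exact mem_range.mpr hp.2)
                _ = 144 := card_range _
            have : ((((Nat.primesBelow N).filter (fun p => ∀ i < J, p ∉ II y i)).filter (fun p => p < 144)).card : ℝ) ≤ 144 := by
              exact_mod_cast hcard
            linarith
    · set S := ((Nat.primesBelow N).filter (fun p => ∀ i < J, p ∉ II y i)).filter (fun p : ℕ => ¬ p < 144) with hS
      have hSm : ∀ p ∈ S, p ∈ Nat.primesBelow N ∧ y < (p:ℝ) ∧ 144 ≤ p := by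
        intro p hp
        rw [hS, mem_filter, mem_filter] at hp
        refine ⟨hp.1.1, ?_, by omega⟩
        by_contra hcon
        push Not at hcon
        obtain ⟨i, hi, hpi⟩ := hB.cover (Nat.mem_primesBelow.mp hp.1.1).2 (by omega) hcon
        exact hp.1.2 i hi hpi
      have h1 : ∑ p ∈ S, u0 p ≤ ∑ p ∈ S, (3 * (1 / (p:ℝ)) + eg L p) := by
        refine sum_le_sum fun p hp => ?_
        rw [hu0]; simp only
        rw [if_neg (by have := (hSm p hp).2.2; omega)]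
      refine h1.trans ?_
      rw [sum_add_distrib, ← mul_sum]
      have h2 : ∑ p ∈ S, 1 / (p:ℝ) ≤ ∑ p ∈ (Nat.primesBelow N).filter (fun p : ℕ => y < (p:ℝ)), (1:ℝ) / p := by
        refine sum_le_sum_of_subset_of_nonneg (fun p hp => ?_) fun p _ _ => by positivity
        rw [mem_filter]; exact ⟨(hSm p hp).1, (hSm p hp).2.1⟩
      have h3 := hC2 y (by linarith) N L hL hlogN (by linarith)
      have hly : 0 < Real.log y := Real.log_pos (by linarith)
      have h4 : Real.log (3 * L) - Real.log (Real.log y) ≤ Real.log (3 * A) := by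
        rw [← Real.log_div (by positivity) hly.ne']
        refine Real.log_le_log (by positivity) ?_
        rw [div_le_iff₀ hly]; linarith
      have h5 := hC3 N L hL hlogN S (fun p hp => (hSm p hp).1)
      linarith
  -- blocks
  have hpI : ∀ i < J, ∀ p ∈ II y i, 144 ≤ p := fun i _ p hp => (hB.rg.pr i p hp).2.1
  have F2 : ∏ i ∈ range J, ∑ j : Fin 5, Af (RR Rs i) j * Real.exp (∑ p ∈ II y i, u1 p j) ≤
      Real.exp (∑ i ∈ range J, ∑ p ∈ II y i, u1 p 0) *
        Real.exp ((3 + 8 * Real.exp (50 * c)) * 2) := by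
    calc _ ≤ ∏ i ∈ range J, (Real.exp (∑ p ∈ II y i, u1 p 0) *
        Real.exp ((3 + 8 * Real.exp (50 * c)) * Real.exp (-(RR Rs i:ℝ)))) := by
          refine prod_le_prod (fun i _ => sum_nonneg fun j _ => mul_nonneg (Af_nonneg _ _) (Real.exp_pos _).le) ?_
          intro i hi
          exact block_gen (hB.rg.v i (mem_range.mp hi)) _ fun p hp j => hu1 p (hpI i (mem_range.mp hi) p hp) j
      _ = Real.exp (∑ i ∈ range J, ∑ p ∈ II y i, u1 p 0) *
          Real.exp ((3 + 8 * Real.exp (50 * c)) * ∑ i ∈ range J, Real.exp (-(RR Rs i:ℝ))) := by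
          rw [prod_mul_distrib, ← Real.exp_sum, ← Real.exp_sum, mul_sum]
      _ ≤ _ := by
          refine mul_le_mul_of_nonneg_left (Real.exp_le_exp.mpr ?_) (Real.exp_pos _).le
          have h1 := sum_exp_le J Rs (RR_ge Rs)
          have h2 : Real.exp (-(Rs:ℝ)) ≤ 1 := Real.exp_le_one_iff.mpr (by simp)
          refine mul_le_mul_of_nonneg_left (by linarith) (by positivity)
  have F3 : ∑ i ∈ range J, ∑ p ∈ II y i, u1 p 0 ≤ ∑ p ∈ PF y (bb y J), m p * (1 / (p:ℝ)) + C3 := by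
    have hy1 : 1 ≤ y := by linarith
    have e1 : ∑ i ∈ range J, ∑ p ∈ II y i, u1 p 0 = ∑ p ∈ PF y (bb y J), u1 p 0 := sum_II hy1 _ J
    rw [e1]
    have h1 : ∑ p ∈ PF y (bb y J), u1 p 0 ≤ ∑ p ∈ PF y (bb y J), (m p * (1 / (p:ℝ)) + eg L p) := by
      refine sum_le_sum fun p hp => ?_
      rw [mem_PF (by linarith)] at hp
      exact hm p hp.2.1
    refine h1.trans ?_
    rw [sum_add_distrib]
    have h8 : ∑ p ∈ PF y (bb y J), eg L p ≤ C3 := by
      refine hC3 N L hL hlogN _ fun p hp => ?_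
      rw [mem_PF (by linarith)] at hp
      rw [Nat.mem_primesBelow]
      refine ⟨?_, hp.1⟩
      have : (p:ℝ) < N := lt_of_le_of_lt hp.2.2.2 hyN
      exact_mod_cast this
    linarith
  calc _ ≤ Real.exp (6 * 144 + (3 * (Real.log (3 * A) + C2) + C3)) *
      (Real.exp (∑ p ∈ PF y (bb y J), m p * (1 / (p:ℝ)) + C3) *
        Real.exp ((3 + 8 * Real.exp (50 * c)) * 2)) := by
        refine mul_le_mul (Real.exp_le_exp.mpr F1) (F2.trans ?_) ?_ (Real.exp_pos _).le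
        · exact mul_le_mul_of_nonneg_right (Real.exp_le_exp.mpr F3) (Real.exp_pos _).le
        · exact prod_nonneg fun i _ => sum_nonneg fun j _ => mul_nonneg (Af_nonneg _ _) (Real.exp_pos _).le
    _ = _ := by
        rw [← Real.exp_add, ← Real.exp_add, ← Real.exp_add]
        congr 1
        ring

end

end Pool.Agent.Y24
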