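import Pool.Agent.Y24.A2

set_option autoImplicit false

/-!
The two averages over the torus: the fourth moment with multiplier of exponent `-2`, and the mollifier with
multiplier of exponent `1`.
-/

namespace Pool.Agent.Y24

open Finset MeasureTheory Complex
open Pool.Agent.W184.NZ
open Pool.Agent.TH806

noncomputable section

variable {N J Rs : ℕ} {L c y δ τ : ℝ} {z : ℂ}

/-- the number of modulus one -/
def Wp (τ : ℝ) (p : ℕ) : ℂ := Complex.exp (((-(τ * Real.log p) : ℝ) : ℂ) * I)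

lemma Wp_norm (τ : ℝ) (p : ℕ) : ‖Wp τ p‖ = 1 := Complex.norm_exp_ofReal_mul_I _

lemma big_prime9 (h : Par L N z δ τ) (p : Ix N) (hp : 144 ≤ p.1) {c : ℂ} (hc : ‖c‖ ≤ 9) :
    ∫ x, Hf (ap N z p) (ub N (wp δ τ) p) (c * ((p.1 : ℕ) : ℂ) ^ (-(1 / 2) : ℂ)) x ∂uu ≤
      Real.exp ((-1 + ‖1 + Wp τ p.1 + c / 2‖ ^ 2) * (1 / (p.1 : ℝ)) + eg L p.1) := by
  have hp0 : p.1 ≠ 0 := by omega
  have hx := xh_pos p.1
  have hx12 := xh_le hp
  have hlog : 0 ≤ Real.log p.1 := Real.log_nonneg (by exact_mod_cast (by omega : 1 ≤ p.1))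
  rw [half_eq hp0]
  have h1 := one_prime9 hx hx12 (a := ap N z p) (u := ub N (wp δ τ) p) (c := c * ((xh p.1 : ℝ) : ℂ))
    ((ap_le h p).trans (by linarith)) (ub_le h p) (by
      rw [norm_mul, Complex.norm_real, Real.norm_eq_abs, abs_of_pos hx]
      exact mul_le_mul_of_nonneg_right hc hx.le)
  refine h1.trans (Real.exp_le_exp.mpr ?_)
  obtain ⟨z1, z2, z3⟩ := h.zl (ix_lt p) (by omega)
  unfold Wp eg
  set ℓ := Real.log p.1 with hℓ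
  set x := xh p.1 with hxd
  set q := ℓ / L with hq
  set E := Complex.exp (-(z * (ℓ : ℝ))) with hE
  set D := Real.exp (-(δ * ℓ)) with hD
  set W := Complex.exp (((-(τ * ℓ) : ℝ) : ℂ) * I) with hW
  have hWn : ‖W‖ = 1 := Complex.norm_exp_ofReal_mul_I _
  have eE : ‖E - 1‖ ≤ 1 / 10 * q := by
    have := Complex.norm_exp_sub_one_le (x := -(z * (ℓ : ℝ))) (by rw [norm_neg]; linarith)
    rw [norm_neg] at this
    linarith
  have eE2 : ‖E ^ 2 - 1‖ ≤ 1 / 5 * q := by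
    have e0 : E ^ 2 = Complex.exp (-(2 * (z * (ℓ : ℝ)))) := by
      rw [hE, ← Complex.exp_nat_mul]; congr 1; push_cast; ring
    have hn : ‖-(2 * (z * (ℓ : ℝ)))‖ ≤ 1 / 10 * q := by
      rw [norm_neg, norm_mul, Complex.norm_ofNat]; linarith
    have := Complex.norm_exp_sub_one_le (x := -(2 * (z * (ℓ : ℝ)))) (by linarith)
    rw [e0]
    linarith
  have eD : |D - 1| ≤ 2 * q ∧ |D - 1| ≤ 1 := by
    have hδ : 0 ≤ δ * ℓ := mul_nonneg h.d0 hlog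
    have hδ2 : δ * ℓ ≤ 2 * q := by
      calc δ * ℓ ≤ 2 / L * ℓ := mul_le_mul_of_nonneg_right h.d1 hlog
        _ = _ := by rw [hq]; ring
    have h5 : D ≤ 1 := Real.exp_le_one_iff.mpr (by linarith)
    have h6 : 0 < D := Real.exp_pos _
    have h7 : 1 - δ * ℓ ≤ D := by have := Real.add_one_le_exp (-(δ * ℓ)); linarith
    rw [abs_of_nonpos (by linarith)]
    exact ⟨by linarith, by linarith⟩
  have hap : ap N z p = (x : ℂ) * E := ap_eq p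
  have hub : ub N (wp δ τ) p = (x : ℂ) * ((D : ℂ) * W) := ub_eq p
  have hx2 : x ^ 2 = 1 / (p.1 : ℝ) := xh_sq hp0
  have hx3 : x ^ 3 = (p.1 : ℝ) ^ (-(3 / 2 : ℝ)) := xh_cube hp0
  -- first term
  have t1 : -((ap N z p) ^ 2).re ≤ x ^ 2 * (-1 + 1 / 5 * q) := by
    rw [hap, mul_pow, ← Complex.ofReal_pow, Complex.re_ofReal_mul]
    have h8 : 1 - 1 / 5 * q ≤ (E ^ 2).re := by
      have := (abs_le.mp ((Complex.abs_re_le_norm (E ^ 2 - 1)).trans eE2)).1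
      rw [Complex.sub_re, Complex.one_re] at this
      linarith
    nlinarith [sq_nonneg x]
  -- second term
  have e9 : ap N z p + (starRingEnd ℂ) (ap N z p) + 2 * ub N (wp δ τ) p + c * ((x : ℝ) : ℂ) =
      (2 * x : ℂ) * ((1 + W + c / 2) + (((E - 1).re : ℝ) + ((D - 1 : ℝ) : ℂ) * W)) := by
    rw [hap, hub, map_mul, Complex.conj_ofReal]
    have : (((E - 1).re : ℝ) : ℂ) = (E + (starRingEnd ℂ) E) / 2 - 1 := by
      rw [Complex.sub_re, Complex.one_re, Complex.ofReal_sub, Complex.ofReal_one, Complex.re_eq_add_conj]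
    rw [this]
    push_cast
    ring
  set A := 1 + W + c / 2 with hA
  set F := (((E - 1).re : ℝ) + ((D - 1 : ℝ) : ℂ) * W : ℂ) with hF
  have hAn : ‖A‖ ≤ 13 / 2 := by
    calc ‖A‖ ≤ ‖(1:ℂ)‖ + ‖W‖ + ‖c / 2‖ := norm_add₃_le
      _ ≤ 1 + 1 + 9 / 2 := by
          rw [norm_one, hWn, norm_div, Complex.norm_ofNat]; linarith
      _ = 13 / 2 := by norm_num
  have hFn : ‖F‖ ≤ 21 / 10 * q ∧ ‖F‖ ≤ 13 / 10 := by
    have a1 : ‖F‖ ≤ ‖E - 1‖ + |D - 1| := by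
      calc ‖F‖ ≤ ‖(((E - 1).re : ℝ) : ℂ)‖ + ‖((D - 1 : ℝ) : ℂ) * W‖ := norm_add_le _ _
        _ = |(E - 1).re| + |D - 1| := by
            rw [norm_mul, hWn, mul_one, Complex.norm_real, Complex.norm_real, Real.norm_eq_abs, Real.norm_eq_abs]
        _ ≤ _ := by linarith [Complex.abs_re_le_norm (E - 1)]
    exact ⟨by linarith [eD.1], by linarith [eD.2]⟩
  have t2 : ‖ap N z p + (starRingEnd ℂ) (ap N z p) + 2 * ub N (wp δ τ) p + c * ((x : ℝ) : ℂ)‖ ^ 2 / 4 ≤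
      x ^ 2 * (‖A‖ ^ 2 + 31 * q) := by
    rw [e9, norm_mul, norm_mul, Complex.norm_ofNat, Complex.norm_real, Real.norm_eq_abs, abs_of_pos hx]
    have a2 : ‖A + F‖ ^ 2 ≤ ‖A‖ ^ 2 + 31 * q := by
      have a3 : ‖A + F‖ ≤ ‖A‖ + ‖F‖ := norm_add_le _ _
      have a4 : ‖A + F‖ ^ 2 ≤ (‖A‖ + ‖F‖) ^ 2 := pow_le_pow_left₀ (norm_nonneg _) a3 2
      have a5 : ‖A‖ * ‖F‖ ≤ 13 / 2 * ‖F‖ := mul_le_mul_of_nonneg_right hAn (norm_nonneg _)
      have a6 : ‖F‖ * ‖F‖ ≤ 13 / 10 * ‖F‖ := mul_le_mul_of_nonneg_right hFn.2 (norm_nonneg _)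
      nlinarith [hFn.1]
    calc (2 * x * ‖A + F‖) ^ 2 / 4 = x ^ 2 * ‖A + F‖ ^ 2 := by ring
      _ ≤ _ := mul_le_mul_of_nonneg_left a2 (sq_nonneg x)
  have t3 : (-1 + ‖A‖ ^ 2) * (1 / (p.1:ℝ)) + (50 / L * (ℓ / (p.1:ℝ)) + 3000 * (p.1 : ℝ) ^ (-(3 / 2 : ℝ))) =
      x ^ 2 * (-1 + ‖A‖ ^ 2) + 50 * (x ^ 2 * q) + 3000 * x ^ 3 := by
    rw [← hx2, ← hx3, hq]
    have : 50 / L * (ℓ / (p.1:ℝ)) = 50 * ((1 / (p.1 : ℝ)) * (ℓ / L)) := by ring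
    rw [this, ← hx2]
    ring
  rw [t3]
  have t4 : 0 ≤ x ^ 2 * q := by positivity
  nlinarith

/-- the norm of a real number minus a number of modulus one -/
lemma normW' (τ : ℝ) (p : ℕ) (α : ℝ) :
    ‖(α : ℂ) + Wp τ p‖ ^ 2 = α ^ 2 + 2 * α * Real.cos (τ * Real.log p) + 1 := normW τ (Real.log p) α

/-- the exponents, fourth moment -/
def uA (L τ : ℝ) (p : ℕ) (j : Fin 5) : ℝ :=
  (-1 + ‖1 + Wp τ p + cg (-2) j / 2‖ ^ 2) * (1 / (p : ℝ)) + eg L p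

lemma uA_zero (L τ : ℝ) (p : ℕ) : uA L τ p 0 = (1 - 2 * Real.cos (τ * Real.log p)) * (1 / (p : ℝ)) + eg L p := by
  unfold uA
  have e : (1 : ℂ) + Wp τ p + cg (-2) 0 / 2 = ((-1 : ℝ) : ℂ) + Wp τ p := by
    simp only [cg, Matrix.cons_val_zero]; push_cast; ring
  rw [e, normW']
  ring

lemma uA_far (L τ : ℝ) (p : ℕ) (j : Fin 5) : uA L τ p j ≤ uA L τ p 0 + 50 * (1 / (p : ℝ)) := by
  have h0 : (0:ℝ) ≤ 1 / p := by positivity
  have h1 : ‖(1 : ℂ) + Wp τ p + cg (-2) j / 2‖ ≤ 13 / 2 := by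
    calc _ ≤ ‖(1:ℂ)‖ + ‖Wp τ p‖ + ‖cg (-2) j / 2‖ := norm_add₃_le
      _ ≤ 1 + 1 + 9 / 2 := by
          rw [norm_one, Wp_norm, norm_div, Complex.norm_ofNat]
          linarith [cg_norm (a := -2) (by norm_num) j]
      _ = 13 / 2 := by norm_num
  have h2 : ‖(1 : ℂ) + Wp τ p + cg (-2) j / 2‖ ^ 2 ≤ (13 / 2) ^ 2 := pow_le_pow_left₀ (norm_nonneg _) h1 2
  rw [uA_zero]
  unfold uA
  have h3 := Real.cos_le_one (τ * Real.log p)
  nlinarith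

lemma uA_far0 (L τ : ℝ) (p : ℕ) : (-1 + ‖1 + Wp τ p + 0 / 2‖ ^ 2) * (1 / (p : ℝ)) + eg L p ≤ 3 * (1 / (p:ℝ)) + eg L p := by
  have h0 : (0:ℝ) ≤ 1 / p := by positivity
  have h1 : ‖(1 : ℂ) + Wp τ p + 0 / 2‖ ≤ 2 := by
    rw [zero_div, add_zero]
    calc _ ≤ ‖(1:ℂ)‖ + ‖Wp τ p‖ := norm_add_le _ _
      _ = 2 := by rw [norm_one, Wp_norm]; norm_num
  have h2 : ‖(1 : ℂ) + Wp τ p + 0 / 2‖ ^ 2 ≤ 2 ^ 2 := pow_le_pow_left₀ (norm_nonneg _) h1 2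
  nlinarith

/-- the local factors of the fourth moment -/
def FA (N : ℕ) (z w : ℂ) (p : Ix N) (x : ℝ) : ℝ := ‖Pk (ap N z p) x‖ * ‖(1 - ub N w p * ec x)⁻¹‖ ^ 2

lemma FE_FA (z w c : ℂ) (p : Ix N) (x : ℝ) : FE (FA N z w) c p x = Hf (ap N z p) (ub N w p) c x := by
  unfold FE FA Hf; rfl

lemma LF_FA (h : Par L N z δ τ) : LF (FA N z (wp δ τ)) where
  nn p x := by unfold FA; positivity
  cont p := by
    have h1 : ‖ap N z p‖ < 1 := by linarith [ap_lt h p]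
    have h2 : ‖ub N (wp δ τ) p‖ < 1 := by linarith [ub_lt h p]
    unfold FA
    exact (Pk_cont h1).norm.mul ((geo_cont h2 continuous_id).norm.pow 2)
  bdd p := by
    have h1 : ‖ap N z p‖ < 1 := by linarith [ap_lt h p]
    have h2 : ‖ub N (wp δ τ) p‖ < 1 := by linarith [ub_lt h p]
    refine ⟨2 * (1 - ‖ap N z p‖)⁻¹ * (1 - ‖ub N (wp δ τ) p‖)⁻¹ ^ 2 * Real.exp ‖(0:ℂ)‖, fun x => ?_⟩
    have h3 := Hf_bdd h1 h2 0 x
    rw [← FE_FA] at h3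
    unfold FE at h3
    simpa using h3

lemma prod_FA (z w : ℂ) (θ : Ix N → ℝ) : ∏ p : Ix N, FA N z w p (θ p) = ‖PP (ap N z) θ‖ * ‖ZT w θ‖ ^ 2 := by
  unfold FA PP ZT
  rw [prod_mul_distrib, norm_prod, norm_prod, prod_pow]

lemma sum_cos (c : ℝ) : ∃ C : ℝ, 0 ≤ C ∧ ∀ (y L τ : ℝ) (J : ℕ), BL c y J → 1 ≤ L → Real.log y ≤ L →
    Real.exp (∑ p ∈ PF y (bb y J), (2 - 2 * Real.cos (τ * Real.log p)) * (1 / (p:ℝ))) ≤
      Real.exp C * (1 + L * |τ|) ^ 4 := by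
  obtain ⟨C1, hC10, hC1⟩ := cos_sum
  refine ⟨2 * C1, by positivity, fun y L τ J hB hL hyL => ?_⟩
  have h1 := hC1 y (bb y J) τ L hB.y1 hyL
  have h0 : 0 < 1 + L * |τ| := by
    have : 0 ≤ L * |τ| := mul_nonneg (by linarith) (abs_nonneg _)
    linarith
  have e1 : ∑ p ∈ PF y (bb y J), (2 - 2 * Real.cos (τ * Real.log p)) * (1 / (p:ℝ)) =
      2 * ∑ p ∈ PF y (bb y J), (1 - Real.cos (τ * Real.log p)) / p := by
    rw [mul_sum]
    refine sum_congr rfl fun p _ => ?_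
    ring
  have e2 : Real.exp (2 * C1) * (1 + L * |τ|) ^ 4 = Real.exp (2 * C1 + 4 * Real.log (1 + L * |τ|)) := by
    rw [Real.exp_add]
    congr 1
    have : (4:ℝ) * Real.log (1 + L * |τ|) = ((4:ℕ):ℝ) * Real.log (1 + L * |τ|) := by norm_num
    rw [this, Real.exp_nat_mul, Real.exp_log h0]
  rw [e1, e2]
  apply Real.exp_le_exp.mpr
  linarith

/-- fourth moment -/
theorem torA (c A : ℝ) : ∃ C : ℝ, 0 < C ∧ ∀ (y L δ τ : ℝ) (z : ℂ) (N J Rs : ℕ),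
    BL c y J → 1 ≤ Rs → Par L N z δ τ → Real.log y ≤ L → L ≤ A * Real.log y → y < N →
    ∫ θ, ‖PP (ap N z) θ‖ * ‖ZT (wp δ τ) θ‖ ^ 2 * gt J (-2) (RR Rs) (II y) θ ∂(TT N) ≤
      C * Real.exp (-∑ i ∈ range J, vI (II y i)) * (1 + L * |τ|) ^ 4 := by
  obtain ⟨C, hC0, hC⟩ := tor_fin c A
  obtain ⟨C1, hC10, hC1⟩ := sum_cos c
  refine ⟨C * Real.exp C1, by positivity, ?_⟩
  intro y L δ τ z N J Rs hB hRs hP hyL hLy hyN
  have hmain := hC y L (-2) N J Rs (FA N z (wp δ τ)) (uA L τ) (fun p => 1 - 2 * Real.cos (τ * Real.log p))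
    hB hRs hP.L1 hP.hN (by norm_num) hyL hLy hyN (LF_FA hP)
    (fun p _ => by simp_rw [FE_FA]; exact small_prime hP p)
    (fun p hp => by
      simp_rw [FE_FA]
      have := big_prime9 hP p hp (c := 0) (by simp)
      rw [zero_mul] at this
      exact this.trans (Real.exp_le_exp.mpr (uA_far0 L τ p.1)))
    (fun p hp j => by
      simp_rw [FE_FA]
      exact big_prime9 hP p hp (cg_norm (by norm_num) j))
    (fun p _ j => uA_far L τ p j)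
    (fun p _ => le_of_eq (uA_zero L τ p))
  simp_rw [prod_FA] at hmain
  refine hmain.trans ?_
  have hy1 : 1 ≤ y := by linarith [hB.y1]
  have e2 : ∑ i ∈ range J, vI (II y i) = ∑ p ∈ PF y (bb y J), 1 / (p:ℝ) := by
    unfold vI; exact sum_II hy1 (fun p => 1 / (p:ℝ)) J
  have e3 : ∑ p ∈ PF y (bb y J), (1 - 2 * Real.cos (τ * Real.log p)) * (1 / (p:ℝ)) =
      -(∑ i ∈ range J, vI (II y i)) + ∑ p ∈ PF y (bb y J), (2 - 2 * Real.cos (τ * Real.log p)) * (1 / (p:ℝ)) := by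
    rw [e2, ← sum_neg_distrib, ← sum_add_distrib]
    refine sum_congr rfl fun p _ => ?_
    ring
  rw [e3, Real.exp_add]
  have h1 := hC1 y L τ J hB hP.L1 hyL
  calc _ ≤ C * (Real.exp (-∑ i ∈ range J, vI (II y i)) * (Real.exp C1 * (1 + L * |τ|) ^ 4)) := by gcongr
    _ = _ := by ring

/-! ### the mollifier -/

lemma big_primeM (h : Par L N z δ τ) (p : Ix N) (hp : 144 ≤ p.1) {c : ℂ} (hc : ‖c‖ ≤ 9) :
    ∫ x, Hm (ub N (wp δ τ) p) (c * ((p.1 : ℕ) : ℂ) ^ (-(1 / 2) : ℂ)) x ∂uu ≤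
      Real.exp (‖c / 2 - Wp τ p.1‖ ^ 2 * (1 / (p.1 : ℝ)) + eg L p.1) := by
  have hp0 : p.1 ≠ 0 := by omega
  have hx := xh_pos p.1
  have hx12 := xh_le hp
  have hlog : 0 ≤ Real.log p.1 := Real.log_nonneg (by exact_mod_cast (by omega : 1 ≤ p.1))
  rw [half_eq hp0]
  have h1 := one_primeM hx hx12 (u := ub N (wp δ τ) p) (c := c * ((xh p.1 : ℝ) : ℂ))
    (ub_le h p) (by
      rw [norm_mul, Complex.norm_real, Real.norm_eq_abs, abs_of_pos hx]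
      exact mul_le_mul_of_nonneg_right hc hx.le)
  refine h1.trans (Real.exp_le_exp.mpr ?_)
  obtain ⟨z1, z2, z3⟩ := h.zl (ix_lt p) (by omega)
  unfold Wp eg
  set ℓ := Real.log p.1 with hℓ
  set x := xh p.1 with hxd
  set q := ℓ / L with hq
  set D := Real.exp (-(δ * ℓ)) with hD
  set W := Complex.exp (((-(τ * ℓ) : ℝ) : ℂ) * I) with hW
  have hWn : ‖W‖ = 1 := Complex.norm_exp_ofReal_mul_I _
  have eD : |D - 1| ≤ 2 * q ∧ |D - 1| ≤ 1 := by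
    have hδ : 0 ≤ δ * ℓ := mul_nonneg h.d0 hlog
    have hδ2 : δ * ℓ ≤ 2 * q := by
      calc δ * ℓ ≤ 2 / L * ℓ := mul_le_mul_of_nonneg_right h.d1 hlog
        _ = _ := by rw [hq]; ring
    have h5 : D ≤ 1 := Real.exp_le_one_iff.mpr (by linarith)
    have h6 : 0 < D := Real.exp_pos _
    have h7 : 1 - δ * ℓ ≤ D := by have := Real.add_one_le_exp (-(δ * ℓ)); linarith
    rw [abs_of_nonpos (by linarith)]
    exact ⟨by linarith, by linarith⟩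
  have hub : ub N (wp δ τ) p = (x : ℂ) * ((D : ℂ) * W) := ub_eq p
  have hx2 : x ^ 2 = 1 / (p.1 : ℝ) := xh_sq hp0
  have hx3 : x ^ 3 = (p.1 : ℝ) ^ (-(3 / 2 : ℝ)) := xh_cube hp0
  have e9 : c * ((x : ℝ) : ℂ) / 2 - ub N (wp δ τ) p = (x : ℂ) * ((c / 2 - W) + ((1 - D : ℝ) : ℂ) * W) := by
    rw [hub]; push_cast; ring
  set A := c / 2 - W with hA
  set F := ((1 - D : ℝ) : ℂ) * W with hF
  have hAn : ‖A‖ ≤ 11 / 2 := by
    calc ‖A‖ ≤ ‖c / 2‖ + ‖W‖ := norm_sub_le _ _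
      _ ≤ 9 / 2 + 1 := by rw [hWn, norm_div, Complex.norm_ofNat]; linarith
      _ = 11 / 2 := by norm_num
  have hFn : ‖F‖ ≤ 2 * q ∧ ‖F‖ ≤ 1 := by
    have a1 : ‖F‖ = |D - 1| := by rw [hF, norm_mul, hWn, mul_one, Complex.norm_real, Real.norm_eq_abs, abs_sub_comm]
    rw [a1]; exact eD
  have t2 : ‖c * ((x : ℝ) : ℂ) / 2 - ub N (wp δ τ) p‖ ^ 2 ≤ x ^ 2 * (‖A‖ ^ 2 + 24 * q) := by
    rw [e9, norm_mul, Complex.norm_real, Real.norm_eq_abs, abs_of_pos hx, mul_pow]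
    refine mul_le_mul_of_nonneg_left ?_ (sq_nonneg x)
    have a3 : ‖A + F‖ ≤ ‖A‖ + ‖F‖ := norm_add_le _ _
    have a4 : ‖A + F‖ ^ 2 ≤ (‖A‖ + ‖F‖) ^ 2 := pow_le_pow_left₀ (norm_nonneg _) a3 2
    have a5 : ‖A‖ * ‖F‖ ≤ 11 / 2 * ‖F‖ := mul_le_mul_of_nonneg_right hAn (norm_nonneg _)
    have a6 : ‖F‖ * ‖F‖ ≤ 1 * ‖F‖ := mul_le_mul_of_nonneg_right hFn.2 (norm_nonneg _)
    nlinarith [hFn.1]
  have t3 : ‖A‖ ^ 2 * (1 / (p.1:ℝ)) + (50 / L * (ℓ / (p.1:ℝ)) + 3000 * (p.1 : ℝ) ^ (-(3 / 2 : ℝ))) =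
      x ^ 2 * ‖A‖ ^ 2 + 50 * (x ^ 2 * q) + 3000 * x ^ 3 := by
    rw [← hx2, ← hx3, hq]
    have : 50 / L * (ℓ / (p.1:ℝ)) = 50 * ((1 / (p.1 : ℝ)) * (ℓ / L)) := by ring
    rw [this, ← hx2]
    ring
  rw [t3]
  have t4 : 0 ≤ x ^ 2 * q := by positivity
  nlinarith

/-- the exponents, mollifier -/
def uM (L τ : ℝ) (p : ℕ) (j : Fin 5) : ℝ := ‖cg 1 j / 2 - Wp τ p‖ ^ 2 * (1 / (p : ℝ)) + eg L p

lemma uM_zero (L τ : ℝ) (p : ℕ) : uM L τ p 0 = (2 - 2 * Real.cos (τ * Real.log p)) * (1 / (p : ℝ)) + eg L p := by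
  unfold uM
  have e : cg 1 0 / 2 - Wp τ p = -(((-1 : ℝ) : ℂ) + Wp τ p) := by
    simp only [cg, Matrix.cons_val_zero]; push_cast; ring
  rw [e, norm_neg, normW']
  ring

lemma uM_far (L τ : ℝ) (p : ℕ) (j : Fin 5) : uM L τ p j ≤ uM L τ p 0 + 50 * (1 / (p : ℝ)) := by
  have h0 : (0:ℝ) ≤ 1 / p := by positivity
  have h1 : ‖cg 1 j / 2 - Wp τ p‖ ≤ 11 / 2 := by
    calc _ ≤ ‖cg 1 j / 2‖ + ‖Wp τ p‖ := norm_sub_le _ _
      _ ≤ 9 / 2 + 1 := by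
          rw [Wp_norm, norm_div, Complex.norm_ofNat]
          linarith [cg_norm (a := 1) (by norm_num) j]
      _ = 11 / 2 := by norm_num
  have h2 : ‖cg 1 j / 2 - Wp τ p‖ ^ 2 ≤ (11 / 2) ^ 2 := pow_le_pow_left₀ (norm_nonneg _) h1 2
  rw [uM_zero]
  unfold uM
  have h3 := Real.cos_le_one (τ * Real.log p)
  nlinarith

/-- the local factors of the mollifier -/
def FM (N : ℕ) (w : ℂ) (p : Ix N) (x : ℝ) : ℝ := ‖1 - ub N w p * ec x‖ ^ 2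

lemma FE_FM (w c : ℂ) (p : Ix N) (x : ℝ) : FE (FM N w) c p x = Hm (ub N w p) c x := by
  unfold FE FM Hm; rfl

lemma LF_FM (h : Par L N z δ τ) : LF (FM N (wp δ τ)) where
  nn p x := by unfold FM; positivity
  cont p := by
    unfold FM
    have := ec_cont
    fun_prop
  bdd p := by
    refine ⟨4 * Real.exp ‖(0:ℂ)‖, fun x => ?_⟩
    have h3 := Hm_bdd (u := ub N (wp δ τ) p) (by linarith [ub_lt h p]) 0 x
    rw [← FE_FM] at h3
    unfold FE at h3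
    simpa using h3

/-- the finite product -/
def IZ (w : ℂ) (θ : Ix N → ℝ) : ℂ := ∏ p : Ix N, (1 - ub N w p * ec (θ p))

lemma prod_FM (w : ℂ) (θ : Ix N → ℝ) : ∏ p : Ix N, FM N w p (θ p) = ‖IZ w θ‖ ^ 2 := by
  unfold FM IZ
  rw [norm_prod, prod_pow]

/-- the mollifier -/
theorem torM (c A : ℝ) : ∃ C : ℝ, 0 < C ∧ ∀ (y L δ τ : ℝ) (N J Rs : ℕ),
    BL c y J → 1 ≤ Rs → Par L N 0 δ τ → Real.log y ≤ L → L ≤ A * Real.log y → y < N →
    ∫ θ, ‖IZ (wp δ τ) θ‖ ^ 2 * gt J 1 (RR Rs) (II y) θ ∂(TT N) ≤ C * (1 + L * |τ|) ^ 4 := by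
  obtain ⟨C, hC0, hC⟩ := tor_fin c A
  obtain ⟨C1, hC10, hC1⟩ := sum_cos c
  refine ⟨C * Real.exp C1, by positivity, ?_⟩
  intro y L δ τ N J Rs hB hRs hP hyL hLy hyN
  have h6 : (4:ℝ) ≤ Real.exp 6 := by
    have := Real.add_one_le_exp (6:ℝ); linarith
  have hmain := hC y L 1 N J Rs (FM N (wp δ τ)) (uM L τ) (fun p => 2 - 2 * Real.cos (τ * Real.log p))
    hB hRs hP.L1 hP.hN (by norm_num) hyL hLy hyN (LF_FM hP)
    (fun p _ => by
      simp_rw [FE_FM]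
      calc ∫ x, Hm (ub N (wp δ τ) p) 0 x ∂uu ≤ ∫ _x, (4:ℝ) ∂uu :=
            integral_mono_of_nonneg (Filter.Eventually.of_forall fun x => Hm_nonneg _ _ _) (integrable_const _)
              (Filter.Eventually.of_forall fun x => by
                have := Hm_bdd (u := ub N (wp δ τ) p) (by linarith [ub_lt hP p]) 0 x
                simpa using this)
        _ = 4 := by simp
        _ ≤ _ := h6)
    (fun p hp => by
      simp_rw [FE_FM]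
      have := big_primeM hP p hp (c := 0) (by simp)
      rw [zero_mul] at this
      refine this.trans (Real.exp_le_exp.mpr ?_)
      rw [zero_div, zero_sub, norm_neg, Wp_norm]
      have h0 : (0:ℝ) ≤ 1 / p.1 := by positivity
      linarith)
    (fun p hp j => by
      simp_rw [FE_FM]
      exact big_primeM hP p hp (cg_norm (by norm_num) j))
    (fun p _ j => uM_far L τ p j)
    (fun p _ => le_of_eq (uM_zero L τ p))
  simp_rw [prod_FM] at hmain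
  refine hmain.trans ?_
  have h1 := hC1 y L τ J hB hP.L1 hyL
  calc _ ≤ C * (Real.exp C1 * (1 + L * |τ|) ^ 4) := by gcongr
    _ = _ := by ring

end

end Pool.Agent.Y24
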