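import Pool.Agent.Y24.A4
import Pool.Agent.TH806.X4

set_option autoImplicit false

/-!
The second moment of zeta times a smoothed sum of length slightly larger than `T^{1/2}` times the short product
of exponent `-2`.
-/

namespace Pool.Agent.Y24

open Finset Filter MeasureTheory Complex
open Pool.Agent.W184.NZ
open Pool.Agent.TH806
open Pool.Agent.H306R2.SM (om cl Yf)
open Pool.Agent.H262R4.TM (Rng Ck)
open Pool.Agent.H448R2.GC (cu cs cu_nonneg cu_le_one)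

noncomputable section

lemma E_ge2 {c y : ℝ} {J : ℕ} (h : BL c y J) {L : ℝ} (hL : 1 ≤ L) (hyL : Real.log y ≤ L) :
    Real.exp (-c) / L ≤ Real.exp (-∑ i ∈ range J, vI (II y i)) := by
  have hy := h.y1
  have hly : 1 < Real.log y := by
    have := Real.exp_one_lt_d9
    rw [Real.lt_log_iff_exp_lt (by linarith)]; linarith
  have hV1 : ∑ i ∈ range J, vI (II y i) ≤ Real.log L + c := by
    have h1 := (abs_le.mp h.vv).2
    have h2 : Real.log (Real.log y) ≤ Real.log L := Real.log_le_log (by linarith) hyL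
    linarith
  have e : Real.exp (-c) / L = Real.exp (-(Real.log L + c)) := by
    rw [neg_add, Real.exp_add, Real.exp_neg (Real.log L), Real.exp_log (by linarith)]
    field_simp
  rw [e]
  apply Real.exp_le_exp.mpr
  linarith

/-- the main estimate for the smoothed sums -/
theorem TB2 (k : ℕ) (hk : 5 ≤ k) : ∃ η' : ℝ, 0 < η' ∧ ∀ c A : ℝ, ∃ C : ℝ, 0 < C ∧ ∀ Rs : ℕ,
    1 ≤ Rs → ∀ᶠ T : ℝ in atTop, ∀ κ : ℕ, Rng T κ → ∀ (y ρ t' D : ℝ) (J : ℕ), BL c y J →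
    320 * ((Rs:ℝ) + 1) * Real.log y ≤ η' * Real.log T → Real.log T ≤ A * Real.log y →
    0 ≤ ρ → ρ ≤ 1 / Real.log T → 0 ≤ D → D ≤ 101 / 200 * Real.log T →
    ∫ t in Set.Ioi (0:ℝ), wz κ T t * (‖cs k (1 / 200 * Real.log T / k) D (((1 / 2 + ρ : ℝ) : ℂ) +
        ((t + t' : ℝ) : ℂ) * I)‖ ^ 2 * gp J (-2) (RR Rs) (II y) t) ≤
      C * Real.log T * Real.exp (-∑ i ∈ range J, vI (II y i)) * (1 + Real.log T * |t'|) ^ 4 := by
  obtain ⟨η, hη, hG⟩ := tw_G (517 / 1000) (by norm_num)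
  refine ⟨min (η / 2) (1 / 100), lt_min (by positivity) (by norm_num), fun c A => ?_⟩
  obtain ⟨C, hC0, hC⟩ := QS_bound2 c A (1 / 200) 1 k (by norm_num) le_rfl hk
  refine ⟨24 * C + 2 * Real.exp c, by positivity, fun Rs hRs => ?_⟩
  have hkp : (0:ℝ) < k := by exact_mod_cast (by omega : 0 < k)
  have hT3 : ∀ᶠ T : ℝ in atTop, Real.log T ^ 2 ≤ T ^ (η / 2) := by
    have h1 := (isLittleO_log_rpow_rpow_atTop (2:ℝ) (show (0:ℝ) < η / 2 by positivity)).def (zero_lt_one)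
    filter_upwards [h1, eventually_gt_atTop (1:ℝ)] with T h1 h2
    have h3 : 0 < Real.log T := Real.log_pos h2
    rw [Real.norm_eq_abs, Real.norm_eq_abs, abs_of_nonneg (by positivity), abs_of_nonneg (by positivity), one_mul] at h1
    calc Real.log T ^ 2 = Real.log T ^ (2:ℝ) := by norm_cast
      _ ≤ _ := h1
  filter_upwards [hG, hT3, eventually_gt_atTop (3:ℝ), Real.tendsto_log_atTop.eventually_ge_atTop 400] with
    T hGT hT3 hTgt hL κ hκ y ρ t' D J hBL hy1 hy2 hρ0 hρ1 hD0 hD1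
  set L := Real.log T with hLd
  have hL1 : 1 ≤ L := by linarith
  have hL0 : 0 < L := by linarith
  have hT0 : 0 < T := by linarith
  have hy := hBL.y1
  have hRs1 : (1:ℝ) ≤ Rs := by exact_mod_cast hRs
  have hly : 1 < Real.log y := by
    have := Real.exp_one_lt_d9
    rw [Real.lt_log_iff_exp_lt (by linarith)]; linarith
  have hm1 : min (η / 2) (1 / 100) ≤ η / 2 := min_le_left _ _
  have hm2 : min (η / 2) (1 / 100) ≤ 1 / 100 := min_le_right _ _
  have hlen1 : 320 * ((Rs:ℝ) + 1) * Real.log y ≤ 1 / 100 * L := hy1.trans (mul_le_mul_of_nonneg_right hm2 hL0.le)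
  have hlen2 : 320 * ((Rs:ℝ) + 1) * Real.log y ≤ η / 2 * L := hy1.trans (mul_le_mul_of_nonneg_right hm1 hL0.le)
  have hyL : Real.log y ≤ L := by
    have : 1 * Real.log y ≤ 320 * ((Rs:ℝ) + 1) * Real.log y :=
      mul_le_mul_of_nonneg_right (by linarith) (by linarith)
    linarith
  have hk1 : 1 ≤ κ := by
    have h1 := hκ.1
    have h2 : (1:ℝ) ≤ Real.log T ^ 2 := one_le_pow₀ hL1
    have : (1:ℝ) ≤ κ := h2.trans h1
    exact_mod_cast this
  set G := GP J (-2) (RR Rs) (II y) with hGd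
  set w : ℂ := ((1 / 2 + ρ : ℝ) : ℂ) + (t' : ℂ) * I with hw
  set c0 := 1 / 200 * L / k with hc0
  have hc0p : 0 < c0 := by positivity
  have hkc0 : (k:ℝ) * c0 = 1 / 200 * L := by rw [hc0]; field_simp
  set M := MS k c0 D with hM
  -- sizes
  have hMle : (M:ℝ) ≤ Real.exp (51 / 100 * L) := by
    rw [hM]; unfold MS
    refine (Nat.floor_le (Real.exp_pos _).le).trans (Real.exp_le_exp.mpr ?_)
    rw [hkc0]; linarith
  set B := ⌈Real.exp (Real.log y * (160 * ((Rs:ℝ) + 1)))⌉₊ with hB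
  have hBle : (B:ℝ) ≤ Real.exp (7 / 1000 * L) := by
    have h1 : (B:ℝ) < Real.exp (Real.log y * (160 * ((Rs:ℝ) + 1))) + 1 := Nat.ceil_lt_add_one (Real.exp_pos _).le
    have h2 : Real.exp (Real.log y * (160 * ((Rs:ℝ) + 1))) ≤ Real.exp (1 / 200 * L) := by
      apply Real.exp_le_exp.mpr; linarith
    have h3 : Real.exp (7 / 1000 * L) = Real.exp (1 / 200 * L) * Real.exp (1 / 500 * L) := by
      rw [← Real.exp_add]; congr 1; ring
    have h4 : 1 + 1 / 500 * L ≤ Real.exp (1 / 500 * L) := by linarith [Real.add_one_le_exp (1 / 500 * L)]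
    have h5 : 1 + 1 / 200 * L ≤ Real.exp (1 / 200 * L) := by linarith [Real.add_one_le_exp (1 / 200 * L)]
    have h6 : (1.8:ℝ) ≤ Real.exp (1 / 500 * L) := by linarith
    have h7 : Real.exp (1 / 200 * L) * 1.8 ≤ Real.exp (1 / 200 * L) * Real.exp (1 / 500 * L) :=
      mul_le_mul_of_nonneg_left h6 (Real.exp_pos _).le
    rw [h3]; linarith
  have hBd : Bd (B:ℝ) G := by
    have h1 := GP_Bd (Rs := Rs) (by linarith : 1 ≤ y) hBL.rg (-2)
    exact h1.mono (Nat.le_ceil _)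
  have hMB : ((M * B : ℕ) : ℝ) ≤ T ^ (517 / 1000 : ℝ) := by
    rw [Real.rpow_def_of_pos hT0, ← hLd]
    push_cast
    calc (M:ℝ) * B ≤ Real.exp (51 / 100 * L) * Real.exp (7 / 1000 * L) := by gcongr
      _ = Real.exp (L * (517 / 1000)) := by rw [← Real.exp_add]; congr 1; ring
  have hf : ∀ n, n ≠ 0 → ‖fS k c0 D w n‖ ≤ 1 := fun n hn => fS_norm k hc0p D (by rw [hw]; simp; linarith) n hn
  have hmain := hGT κ hκ M B (fS k c0 D w) hf hMB G hBd
  have hpr : ∀ i, ∀ p ∈ II y i, p.Prime := fun i p hp => (hBL.rg.pr i p hp).1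
  have e1 : ∀ t : ℝ, wz κ T t * (‖DP (fS k c0 D w) M t‖ ^ 2 * (ev t G).re) = wz κ T t *
      (‖cs k c0 D (((1 / 2 + ρ : ℝ) : ℂ) + ((t + t' : ℝ) : ℂ) * I)‖ ^ 2 * gp J (-2) (RR Rs) (II y) t) := by
    intro t
    rw [hM, hw, DP_cs, hGd, ev_GP t J _ _ hpr, Complex.ofReal_re]
  simp_rw [e1] at hmain
  rw [main_eq] at hmain
  -- the number N
  set N := ⌊Real.exp (3 * L)⌋₊ with hN
  have hNlog : ∀ p : ℕ, p < N → Real.log p ≤ 3 * L := by
    intro p hp
    rcases Nat.eq_zero_or_pos p with h0 | h0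
    · rw [h0]; simp; linarith
    · have hp0 : (0:ℝ) < p := by exact_mod_cast h0
      rw [Real.log_le_iff_le_exp hp0]
      have h1 : (p:ℝ) ≤ N := by exact_mod_cast hp.le
      exact h1.trans (Nat.floor_le (Real.exp_pos _).le)
  have hN2 : Real.exp L < N := by
    have h1 : Real.exp (3 * L) < N + 1 := Nat.lt_floor_add_one _
    have h2 : Real.exp (3 * L) = Real.exp L * Real.exp L * Real.exp L := by rw [← Real.exp_add, ← Real.exp_add]; congr 1; ring
    have h3 : L + 1 ≤ Real.exp L := Real.add_one_le_exp L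
    have h4 : Real.exp L * 400 ≤ Real.exp L * Real.exp L :=
      mul_le_mul_of_nonneg_left (by linarith) (Real.exp_pos _).le
    have h5 : Real.exp L * Real.exp L * 400 ≤ Real.exp L * Real.exp L * Real.exp L :=
      mul_le_mul_of_nonneg_left (by linarith) (by positivity)
    linarith
  have hyN : y < N := by
    refine lt_of_le_of_lt ?_ hN2
    rw [← Real.log_le_iff_le_exp (by linarith)]; exact hyL
  have hMBN : M * B < N := by
    have h1 : ((M * B : ℕ) : ℝ) < N := by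
      refine lt_of_le_of_lt hMB (lt_of_le_of_lt ?_ hN2)
      rw [Real.rpow_def_of_pos hT0, ← hLd]
      exact Real.exp_le_exp.mpr (by linarith)
    exact_mod_cast h1
  have hB1 : 1 ≤ B := Nat.one_le_ceil_iff.mpr (Real.exp_pos _)
  have hMN : M < N := lt_of_le_of_lt (Nat.le_mul_of_pos_right _ (by omega)) hMBN
  have hQ : ∀ z : ℂ, ‖z‖ ≤ 1 / (20 * L) → ‖QS z k c0 D w G‖ ≤
      C * Real.exp (-∑ i ∈ range J, vI (II y i)) * (1 + L * |t'|) ^ 4 := by
    intro z hz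
    exact hC y L ρ t' D z N J Rs B hBL hRs hNlog hL1 hz hyL hy2 hyN (by rw [abs_of_nonneg hD0]; linarith)
      hρ0 hρ1 hBd hMBN hMN
  set E := Real.exp (-∑ i ∈ range J, vI (II y i)) with hE
  have hE0 : 0 < E := Real.exp_pos _
  have hQ0 := hQ 0 (by rw [norm_zero]; positivity)
  have hdQ := deriv_bound (k := k) (c := c0) (D := D) (w := w) (G := G) (r := 1 / (20 * L)) (by positivity) hQ
  have hyf := yf_bound hk1 hT0
  have hyf2 : |Real.log (Yf κ T) + Ck κ| ≤ 2 * L := by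
    have h1 := abs_sub_abs_le_abs_sub (Real.log (Yf κ T) + Ck κ) L
    rw [abs_of_pos hL0] at h1
    linarith
  have ht0 : 0 ≤ L * |t'| := by positivity
  set P := C * E * (1 + L * |t'|) ^ 4 with hP
  have hP0 : 0 ≤ P := by rw [hP]; positivity
  have hre : ((((Real.log (Yf κ T) + Ck κ : ℝ) : ℂ)) * QS 0 k c0 D w G + deriv (fun z => QS z k c0 D w G) 0).re ≤
      22 * L * P := by
    refine (Complex.re_le_norm _).trans ((norm_add_le _ _).trans ?_)
    rw [norm_mul, Complex.norm_real, Real.norm_eq_abs]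
    have h1 : |Real.log (Yf κ T) + Ck κ| * ‖QS 0 k c0 D w G‖ ≤ 2 * L * P :=
      mul_le_mul hyf2 hQ0 (norm_nonneg _) (by positivity)
    have h2 : P / (1 / (20 * L)) = 20 * L * P := by field_simp
    rw [h2] at hdQ
    linarith
  have hl2 : l1 G ≤ Real.exp (Real.log y * (320 * ((Rs:ℝ) + 1))) :=
    GP_l1' (by linarith) hBL.rg hRs (by norm_num)
  have hl3 : l1 G ≤ Real.exp (η / 2 * L) := hl2.trans (Real.exp_le_exp.mpr (by linarith))
  have herr : 2 * T ^ (-η) * l1 G ≤ 2 * Real.exp c * L * E := by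
    have e2 : T ^ (-η) = Real.exp (-(η * L)) := by
      rw [Real.rpow_def_of_pos hT0, ← hLd]; congr 1; ring
    have e3 : T ^ (η / 2) = Real.exp (η / 2 * L) := by
      rw [Real.rpow_def_of_pos hT0, ← hLd]; congr 1; ring
    rw [e3] at hT3
    have h1 : Real.exp (-(η * L)) * Real.exp (η / 2 * L) = Real.exp (-(η / 2 * L)) := by
      rw [← Real.exp_add]; congr 1; ring
    have h2 : Real.exp (-(η / 2 * L)) ≤ 1 / L ^ 2 := by
      rw [Real.exp_neg, ← one_div]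
      exact one_div_le_one_div_of_le (by positivity) hT3
    have h3 := E_ge2 hBL hL1 hyL
    have h4 : 1 / L ^ 2 ≤ Real.exp c * L * E := by
      have h5 : Real.exp c * L * (Real.exp (-c) / L) ≤ Real.exp c * L * E :=
        mul_le_mul_of_nonneg_left h3 (by positivity)
      have h6 : Real.exp c * L * (Real.exp (-c) / L) = 1 := by
        rw [Real.exp_neg]
        field_simp
      have h7 : 1 / L ^ 2 ≤ 1 := by
        rw [div_le_one (by positivity)]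
        exact one_le_pow₀ hL1
      linarith
    rw [e2]
    calc 2 * Real.exp (-(η * L)) * l1 G ≤ 2 * Real.exp (-(η * L)) * Real.exp (η / 2 * L) := by gcongr
      _ = 2 * Real.exp (-(η / 2 * L)) := by rw [mul_assoc, h1]
      _ ≤ 2 * (1 / L ^ 2) := by linarith
      _ ≤ _ := by linarith
  have h9 := (abs_le.mp hmain).2
  have h14 : 1 ≤ (1 + L * |t'|) ^ 4 := one_le_pow₀ (by linarith)
  calc _ ≤ 22 * L * P + 2 * Real.exp c * L * E := by linarith
    _ ≤ (24 * C + 2 * Real.exp c) * L * E * (1 + L * |t'|) ^ 4 := by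
        rw [hP]
        have h12 : 0 ≤ C * (L * E * (1 + L * |t'|) ^ 4) := by positivity
        have h15 : 2 * Real.exp c * L * E * 1 ≤ 2 * Real.exp c * L * E * (1 + L * |t'|) ^ 4 :=
          mul_le_mul_of_nonneg_left h14 (by positivity)
        linarith

theorem X42 : ∃ η' : ℝ, 0 < η' ∧ η' ≤ 1 / 8 ∧ ∀ c A : ℝ, ∃ C : ℝ, 0 < C ∧ ∀ Rs : ℕ,
    1 ≤ Rs → ∀ᶠ T : ℝ in atTop, ∀ κ : ℕ, Rng T κ → ∀ (y : ℝ) (J : ℕ), BL c y J →
    320 * ((Rs:ℝ) + 1) * Real.log y ≤ η' * Real.log T → Real.log T ≤ A * Real.log y →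
    IntegrableOn (fun t => om κ (κ / T) t * (‖riemannZeta (cl t)‖ ^ 4 *
      gp J (-2) (RR Rs) (II y) t)) (Set.Ioi 0) ∧
    ∫ t in Set.Ioi (0:ℝ), om κ (κ / T) t * (‖riemannZeta (cl t)‖ ^ 4 * gp J (-2) (RR Rs) (II y) t) ≤
      C * Real.log T * Real.exp (-∑ i ∈ range J, vI (II y i)) := by
  obtain ⟨k₀, hk₀⟩ := Pool.Agent.TH806.zeta_pt 1 le_rfl
  set k := max k₀ 7 with hk
  have hk4 : 7 ≤ k := le_max_right _ _
  obtain ⟨Cz, T₀, hCz, hz⟩ := hk₀ k (le_max_left _ _)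
  obtain ⟨η1, hη1, hTB⟩ := TB2 k (by omega)
  refine ⟨min η1 (1 / 8), lt_min hη1 (by norm_num), min_le_right _ _, fun c A => ?_⟩
  obtain ⟨CT, hCT, hTB⟩ := hTB c A
  refine ⟨3 * CT + 2 * Cz * CT + 2 * Real.exp c, by positivity, fun Rs hRs => ?_⟩
  have hsm : ∀ᶠ T : ℝ in atTop, 6 * T ^ (-(3 / 2) : ℝ) * Real.log T ≤ 1 := by
    have h1 := (isLittleO_log_rpow_atTop (r := 3 / 2) (by norm_num)).bound (c := 1 / 6) (by norm_num)
    filter_upwards [h1, eventually_ge_atTop (1:ℝ)] with T hT hT1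
    have hT0 : 0 < T := by linarith
    rw [Real.norm_eq_abs, Real.norm_eq_abs, abs_of_nonneg (Real.log_nonneg hT1),
      abs_of_nonneg (by positivity)] at hT
    rw [Real.rpow_neg hT0.le]
    have h2 : 0 < T ^ (3 / 2 : ℝ) := by positivity
    calc 6 * (T ^ (3 / 2 : ℝ))⁻¹ * Real.log T ≤ 6 * (T ^ (3 / 2 : ℝ))⁻¹ * (1 / 6 * T ^ (3 / 2 : ℝ)) := by gcongr
      _ = 1 := by field_simp
  filter_upwards [hTB Rs hRs, tail_le 8, Zm_one, eventually_ge_atTop T₀, eventually_ge_atTop (24 ^ 4 * 2 : ℝ),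
    Real.tendsto_log_atTop.eventually_ge_atTop 1, hsm] with T hTB hTl hZ hT0' hTb hL1 hsm
  intro κ hκ y J hBL hy hA
  have hT1 : (1:ℝ) ≤ T := by linarith
  have hT0 : 0 < T := by linarith
  set L := Real.log T with hLd
  have hL0 : 0 < L := by linarith
  have hκ1 : 1 ≤ κ := by
    have := hκ.1
    have h2 : (0:ℝ) < κ := lt_of_lt_of_le (by positivity) this
    exact_mod_cast h2
  have hκ0 : (0:ℝ) < κ := by exact_mod_cast hκ1
  have hδ : 0 < (κ:ℝ) / T := by positivity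
  set E := Real.exp (-∑ i ∈ range J, vI (II y i)) with hE
  have hE0 : 0 < E := Real.exp_pos _
  have hy144 := hBL.y1
  have hly : 0 ≤ Real.log y := Real.log_nonneg (by linarith)
  have hyL : Real.log y ≤ L := by
    have h1 : (1:ℝ) ≤ Rs := by exact_mod_cast hRs
    have h2 : min η1 (1 / 8) * L ≤ 1 * L := mul_le_mul_of_nonneg_right ((min_le_right _ _).trans (by norm_num)) hL0.le
    nlinarith
  have hEge : Real.exp (-c) / L ≤ E := E_ge2 hBL hL1 hyL
  have h1E : 1 ≤ Real.exp c * L * E := by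
    rw [div_le_iff₀ hL0, Real.exp_neg] at hEge
    have hc0 : 0 < Real.exp c := Real.exp_pos c
    calc (1:ℝ) = Real.exp c * (Real.exp c)⁻¹ := by field_simp
      _ ≤ Real.exp c * (E * L) := by gcongr
      _ = _ := by ring
  set M : ℝ → ℝ := gp J (-2) (RR Rs) (II y) with hM
  have hα2 : |(-2 : ℝ)| ≤ 2 := by norm_num
  have hM0 : ∀ t, 0 ≤ M t := fun t => gp_nonneg _ _ _ _ t
  have hMc : Continuous M := gp_cont hBL _ _
  have hMB : ∀ t, M t ≤ T ^ (1 / 8 : ℝ) := by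
    intro t
    refine (gp_le hBL hRs hα2 t).trans ?_
    rw [Real.rpow_def_of_pos hT0, ← hLd]
    apply Real.exp_le_exp.mpr
    have h2 : min η1 (1 / 8) * L ≤ 1 / 8 * L := mul_le_mul_of_nonneg_right (min_le_right _ _) hL0.le
    nlinarith
  have hy1 : 320 * ((Rs:ℝ) + 1) * Real.log y ≤ η1 * L :=
    hy.trans (mul_le_mul_of_nonneg_right (min_le_left _ _) hL0.le)
  have h1L : 0 < 1 / L := by positivity
  -- the two quadratic quantities
  set c' : ℝ := 1 / 200 * L / k with hc'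
  set Q₁ : ℝ → ℝ := fun t => ‖cs k c' (1 / 2 * L) (((1 / 2 + 0 : ℝ) : ℂ) + ((t + 0 : ℝ) : ℂ) * I)‖ ^ 2 with hQ₁
  set Q : ℝ → ℝ → ℝ := fun t y' =>
    ‖cs k c' (101 / 200 * L) (((1 / 2 + 1 / L : ℝ) : ℂ) + ((t + y' : ℝ) : ℂ) * I)‖ ^ 2 with hQ
  obtain ⟨B₁, hB₁0, hB₁⟩ := Pool.Agent.H448R2.GC.M1.cs_bdd k c' (1 / 2 * L)
  obtain ⟨B, hB0, hB⟩ := Pool.Agent.H448R2.GC.M1.cs_bdd k c' (101 / 200 * L)
  have hQ₁0 : ∀ t, 0 ≤ Q₁ t := fun t => pow_nonneg (norm_nonneg _) 2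
  have hQ0 : ∀ t y', 0 ≤ Q t y' := fun t y' => pow_nonneg (norm_nonneg _) 2
  have hQ₁B : ∀ t, Q₁ t ≤ B₁ ^ 2 := by
    intro t
    refine pow_le_pow_left₀ (norm_nonneg _) (hB₁ _ ?_) 2
    have : (((1 / 2 + 0 : ℝ) : ℂ) + ((t + 0 : ℝ) : ℂ) * I).re = 1 / 2 := by simp
    rw [this]; norm_num
  have hQB : ∀ t y', Q t y' ≤ B ^ 2 := by
    intro t y'
    refine pow_le_pow_left₀ (norm_nonneg _) (hB _ ?_) 2
    have : (((1 / 2 + 1 / L : ℝ) : ℂ) + ((t + y' : ℝ) : ℂ) * I).re = 1 / 2 + 1 / L := by simp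
    rw [this]; positivity
  have hQ₁c : Continuous Q₁ := by
    rw [hQ₁]
    exact ((Pool.Agent.H448R2.GC.M1.cs_cont k c' (1 / 2 * L)).comp (by fun_prop :
      Continuous fun t : ℝ => (((1 / 2 + 0 : ℝ) : ℂ) + ((t + 0 : ℝ) : ℂ) * I))).norm.pow 2
  have hQc : Continuous (Function.uncurry Q) := by
    rw [hQ]
    exact ((Pool.Agent.H448R2.GC.M1.cs_cont k c' (101 / 200 * L)).comp (by fun_prop :
      Continuous fun p : ℝ × ℝ => (((1 / 2 + 1 / L : ℝ) : ℂ) + ((p.1 + p.2 : ℝ) : ℂ) * I))).norm.pow 2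
  have hΦi : Integrable (fun t => wz κ T t) (volume.restrict (Set.Ioi 0)) := by
    have := wz_int κ hδ (f := fun _ => 1) (C := 1) continuous_const (fun t => by simp)
    simp only [mul_one] at this
    exact this
  have hΦ0 : ∀ t ∈ Set.Ioi (0:ℝ), 0 ≤ wz κ T t := fun t ht => wz_nonneg κ hT0 (le_of_lt ht)
  obtain ⟨hdI, hdE⟩ := dual_int' (μ := volume.restrict (Set.Ioi 0)) (Pool.Agent.H448R2.GC.M1.gg L k) M (fun t => wz κ T t) Q
    (T ^ (1 / 8 : ℝ)) (B ^ 2) (Pool.Agent.H448R2.GC.M1.gg_int L k hL1 (by omega)) hΦi hM0 hMB hMc hQ0 hQB hQc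
  -- integrability
  have i1 : IntegrableOn (fun t => wz κ T t * (Q₁ t * M t)) (Set.Ioi 0) := by
    refine wz_int κ hδ (C := B₁ ^ 2 * T ^ (1 / 8 : ℝ)) (hQ₁c.mul hMc) fun t => ?_
    rw [abs_of_nonneg (mul_nonneg (hQ₁0 t) (hM0 t))]
    exact mul_le_mul (hQ₁B t) (hMB t) (hM0 t) (by positivity)
  have i3 : IntegrableOn (fun t => wz κ T t * M t) (Set.Ioi 0) := by
    refine wz_int κ hδ (C := T ^ (1 / 8 : ℝ)) hMc fun t => ?_
    rw [abs_of_nonneg (hM0 t)]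
    exact hMB t
  -- the pointwise bound
  set F : ℝ → ℝ := fun t => ‖riemannZeta (cl t)‖ ^ 4 * M t with hF
  have hFc : Continuous F := (Pool.Agent.H262R4.TM.TTW.zeta_cont.norm.pow 4).mul hMc
  have hF0 : ∀ t, 0 ≤ F t := fun t => mul_nonneg (by positivity) (hM0 t)
  have hF1 : ∀ t, 0 ≤ t → F t ≤ (24 ^ 4 * T ^ (1 / 8 : ℝ)) * (1 + t) ^ 8 := by
    intro t ht
    have h1 := pow_le_pow_left₀ (norm_nonneg _) (Pool.Agent.H262R4.TM.TTW.zeta_cl_bound t ht) 4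
    calc F t ≤ (24 * (1 + t) ^ 2) ^ 4 * T ^ (1 / 8 : ℝ) := mul_le_mul h1 (hMB t) (hM0 t) (by positivity)
      _ = _ := by ring
  obtain ⟨hI, hup, _⟩ := hTl κ hκ (24 ^ 4 * T ^ (1 / 8 : ℝ)) F (by positivity) hFc hF0 hF1
  refine ⟨hI, hup.trans ?_⟩
  have htail : 2 * (24 ^ 4 * T ^ (1 / 8 : ℝ)) * T ^ (-10 : ℝ) ≤ 1 := by
    have h1 : T ^ (1 / 8 : ℝ) * T ^ (-10 : ℝ) ≤ T ^ (-1 : ℝ) := by
      rw [← Real.rpow_add hT0]
      exact Real.rpow_le_rpow_of_exponent_le hT1 (by norm_num)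
    rw [Real.rpow_neg_one] at h1
    calc 2 * (24 ^ 4 * T ^ (1 / 8 : ℝ)) * T ^ (-10 : ℝ) = 24 ^ 4 * 2 * (T ^ (1 / 8 : ℝ) * T ^ (-10 : ℝ)) := by ring
      _ ≤ 24 ^ 4 * 2 * T⁻¹ := by gcongr
      _ ≤ T * T⁻¹ := by gcongr
      _ = 1 := by field_simp
  have hsub : Set.Ioc (T / 8) (8 * T) ⊆ Set.Ioi (0:ℝ) := fun t ht => lt_trans (by positivity) ht.1
  have iG : IntegrableOn (fun t => 3 * (wz κ T t * (Q₁ t * M t)) + Cz * (wz κ T t * ((∫ y', Q t y' * Pool.Agent.H448R2.GC.M1.gg L k y') * M t)) +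
      3 * (T ^ (-1 : ℝ)) ^ 2 * (wz κ T t * M t)) (Set.Ioi 0) :=
    ((i1.const_mul 3).add (hdI.const_mul Cz)).add (i3.const_mul _)
  have hgg0 := fun y' => Pool.Agent.H448R2.GC.M1.gg_nonneg L k y' hL1
  have hG0 : ∀ t ∈ Set.Ioi (0:ℝ), 0 ≤ 3 * (wz κ T t * (Q₁ t * M t)) +
      Cz * (wz κ T t * ((∫ y', Q t y' * Pool.Agent.H448R2.GC.M1.gg L k y') * M t)) + 3 * (T ^ (-1 : ℝ)) ^ 2 * (wz κ T t * M t) := by
    intro t ht
    have a1 := hΦ0 t ht
    have a2 := hQ₁0 t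
    have a3 := hM0 t
    have a4 : 0 ≤ ∫ y', Q t y' * Pool.Agent.H448R2.GC.M1.gg L k y' := integral_nonneg fun y' => mul_nonneg (hQ0 _ _) (hgg0 y')
    have a5 : (0:ℝ) ≤ 3 * (T ^ (-1 : ℝ)) ^ 2 := mul_nonneg (by norm_num) (sq_nonneg _)
    exact add_nonneg (add_nonneg (mul_nonneg (by norm_num) (mul_nonneg a1 (mul_nonneg a2 a3)))
      (mul_nonneg hCz.le (mul_nonneg a1 (mul_nonneg a4 a3)))) (mul_nonneg a5 (mul_nonneg a1 a3))
  have hpt : ∀ t ∈ Set.Ioc (T / 8) (8 * T), om κ (κ / T) t * F t ≤ 3 * (wz κ T t * (Q₁ t * M t)) +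
      Cz * (wz κ T t * ((∫ y', Q t y' * Pool.Agent.H448R2.GC.M1.gg L k y') * M t)) + 3 * (T ^ (-1 : ℝ)) ^ 2 * (wz κ T t * M t) := by
    intro t ht
    have ht0 : t ∈ Set.Ioi (0:ℝ) := hsub ht
    have h1 := hz T hT0' t ht.1.le ht.2
    rw [← hLd] at h1
    have e1 : (((Pool.Agent.H448R2.GC.sm 1 T + 1 / L : ℝ) : ℂ) + (t : ℂ) * I) = cl t := by
      have : Pool.Agent.H448R2.GC.sm 1 T + 1 / L = 1 / 2 := by unfold Pool.Agent.H448R2.GC.sm; rw [← hLd]; ring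
      rw [this]; unfold cl; push_cast; ring
    rw [e1] at h1
    have e2 : Q₁ t = ‖cs k c' (1 / 2 * L) (cl t)‖ ^ 2 := by
      simp only [hQ₁]
      congr 3
      unfold cl; push_cast; ring
    rw [← e2] at h1
    have a1 := hΦ0 t ht0
    have a3 := hM0 t
    have h2 := mul_le_mul_of_nonneg_left (mul_le_mul_of_nonneg_right h1 a3) a1
    have e3 : om κ (κ / T) t * F t = wz κ T t * (‖riemannZeta (cl t)‖ ^ 2 * M t) := by
      simp only [hF]; unfold wz; ring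
    rw [e3]
    refine h2.trans (le_of_eq ?_)
    simp only [hQ]
    ring
  have hmain : (∫ t in Set.Ioc (T / 8) (8 * T), om κ (κ / T) t * F t) ≤
      3 * (∫ t in Set.Ioi (0:ℝ), wz κ T t * (Q₁ t * M t)) +
      Cz * (∫ t in Set.Ioi (0:ℝ), wz κ T t * ((∫ y', Q t y' * Pool.Agent.H448R2.GC.M1.gg L k y') * M t)) +
      3 * (T ^ (-1 : ℝ)) ^ 2 * ∫ t in Set.Ioi (0:ℝ), wz κ T t * M t := by
    calc _ ≤ ∫ t in Set.Ioc (T / 8) (8 * T), (3 * (wz κ T t * (Q₁ t * M t)) +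
          Cz * (wz κ T t * ((∫ y', Q t y' * Pool.Agent.H448R2.GC.M1.gg L k y') * M t)) + 3 * (T ^ (-1 : ℝ)) ^ 2 * (wz κ T t * M t)) :=
          setIntegral_mono_on (hI.mono_set hsub) (iG.mono_set hsub) measurableSet_Ioc hpt
      _ ≤ ∫ t in Set.Ioi (0:ℝ), (3 * (wz κ T t * (Q₁ t * M t)) +
          Cz * (wz κ T t * ((∫ y', Q t y' * Pool.Agent.H448R2.GC.M1.gg L k y') * M t)) + 3 * (T ^ (-1 : ℝ)) ^ 2 * (wz κ T t * M t)) := by
          refine setIntegral_mono_set iG ?_ hsub.eventuallyLE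
          exact (ae_restrict_iff' measurableSet_Ioi).mpr (Eventually.of_forall hG0)
      _ = _ := by
          have e1 := integral_add (μ := volume.restrict (Set.Ioi (0:ℝ))) ((i1.const_mul 3).add (hdI.const_mul Cz))
            (i3.const_mul (3 * (T ^ (-1 : ℝ)) ^ 2))
          have e2 := integral_add (μ := volume.restrict (Set.Ioi (0:ℝ))) (i1.const_mul 3) (hdI.const_mul Cz)
          simp only [Pi.add_apply] at e1 e2
          rw [e1, e2, integral_const_mul, integral_const_mul, integral_const_mul]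
  -- first
  have b1 : ∫ t in Set.Ioi (0:ℝ), wz κ T t * (Q₁ t * M t) ≤ CT * L * E := by
    have := hTB κ hκ y 0 0 (1 / 2 * L) J hBL hy1 hA le_rfl h1L.le (by positivity) (by nlinarith)
    have e0 : (1 + L * |(0:ℝ)|) ^ 4 = 1 := by simp
    rw [e0, mul_one] at this
    exact this
  -- dual
  have b2 : ∫ t in Set.Ioi (0:ℝ), wz κ T t * ((∫ y', Q t y' * Pool.Agent.H448R2.GC.M1.gg L k y') * M t) ≤ 2 * (CT * L * E) := by
    rw [hdE]
    have h1 : ∀ y', Pool.Agent.H448R2.GC.M1.gg L k y' * ∫ t in Set.Ioi (0:ℝ), wz κ T t * (Q t y' * M t) ≤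
        CT * L * E * Pool.Agent.H448R2.GC.M1.gg L (k - 4) y' := by
      intro y'
      have h2 := hTB κ hκ y (1 / L) y' (101 / 200 * L) J hBL hy1 hA h1L.le le_rfl (by positivity) le_rfl
      have hp : 0 < 1 + L * |y'| := by positivity
      calc Pool.Agent.H448R2.GC.M1.gg L k y' * ∫ t in Set.Ioi (0:ℝ), wz κ T t * (Q t y' * M t)
          ≤ Pool.Agent.H448R2.GC.M1.gg L k y' * (CT * L * E * (1 + L * |y'|) ^ 4) := mul_le_mul_of_nonneg_left h2 (hgg0 y')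
        _ = CT * L * E * Pool.Agent.H448R2.GC.M1.gg L (k - 4) y' := by
            unfold Pool.Agent.H448R2.GC.M1.gg
            have : (1 + L * |y'|) ^ k = (1 + L * |y'|) ^ (k - 4) * (1 + L * |y'|) ^ 4 := by
              rw [← pow_add]; congr 1; omega
            rw [this]
            field_simp
    have h0 : 0 ≤ᵐ[volume] fun y' => Pool.Agent.H448R2.GC.M1.gg L k y' * ∫ t in Set.Ioi (0:ℝ), wz κ T t * (Q t y' * M t) :=
      Eventually.of_forall fun y' => mul_nonneg (hgg0 y')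
        (setIntegral_nonneg measurableSet_Ioi fun t ht => mul_nonneg (hΦ0 t ht) (mul_nonneg (hQ0 _ _) (hM0 _)))
    have hi := (Pool.Agent.H448R2.GC.M1.gg_int L (k - 4) hL1 (by omega)).const_mul (CT * L * E)
    refine (integral_mono_of_nonneg h0 hi (Eventually.of_forall h1)).trans ?_
    rw [integral_const_mul]
    have := Pool.Agent.H448R2.GC.scale_integral L (k - 4) hL1 (by omega)
    have h7 : ∫ y', Pool.Agent.H448R2.GC.M1.gg L (k - 4) y' ≤ 2 := this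
    calc CT * L * E * ∫ y', Pool.Agent.H448R2.GC.M1.gg L (k - 4) y' ≤ CT * L * E * 2 :=
          mul_le_mul_of_nonneg_left h7 (by positivity)
      _ = _ := by ring
  -- third
  have b3 : 3 * (T ^ (-1 : ℝ)) ^ 2 * ∫ t in Set.Ioi (0:ℝ), wz κ T t * M t ≤ 1 := by
    have h1 : ∫ t in Set.Ioi (0:ℝ), wz κ T t * M t ≤ T ^ (1 / 8 : ℝ) * (2 * L) := by
      calc _ ≤ ∫ t in Set.Ioi (0:ℝ), T ^ (1 / 8 : ℝ) * wz κ T t := by
            refine setIntegral_mono_on i3 (hΦi.const_mul _) measurableSet_Ioi fun t ht => ?_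
            rw [mul_comm]
            exact mul_le_mul_of_nonneg_right (hMB t) (hΦ0 t ht)
        _ = T ^ (1 / 8 : ℝ) * ∫ t in Set.Ioi (0:ℝ), wz κ T t := integral_const_mul _ _
        _ ≤ _ := mul_le_mul_of_nonneg_left (hZ κ hκ) (by positivity)
    calc 3 * (T ^ (-1 : ℝ)) ^ 2 * ∫ t in Set.Ioi (0:ℝ), wz κ T t * M t
        ≤ 3 * (T ^ (-1 : ℝ)) ^ 2 * (T ^ (1 / 8 : ℝ) * (2 * L)) := by gcongr
      _ = 6 * (T ^ (-2 + 1 / 8 : ℝ)) * L := by
          rw [← Real.rpow_natCast, ← Real.rpow_mul hT0.le, Real.rpow_add hT0]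
          norm_num
          ring
      _ ≤ 6 * T ^ (-(3 / 2) : ℝ) * L := by
          have := Real.rpow_le_rpow_of_exponent_le hT1 (show (-2 + 1 / 8 : ℝ) ≤ -(3 / 2) by norm_num)
          gcongr
      _ ≤ 1 := hsm
  calc (∫ t in Set.Ioc (T / 8) (8 * T), om κ (κ / T) t * F t) + 2 * (24 ^ 4 * T ^ (1 / 8 : ℝ)) * T ^ (-10 : ℝ)
      ≤ (3 * (CT * L * E) + Cz * (2 * (CT * L * E)) + 1) + 1 := by
        have := mul_le_mul_of_nonneg_left b2 hCz.le
        linarith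
    _ ≤ _ := by nlinarith

end

end Pool.Agent.Y24
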