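import Pool.Agent.Y24.A3
import Pool.Agent.TH806.Tor8

set_option autoImplicit false

/-!
The mollifier on the torus.
-/

namespace Pool.Agent.Y24

open Finset MeasureTheory Complex
open Pool.Agent.W184.NZ
open Pool.Agent.TH806
open Pool.Agent.H448R2.GC (cu ker cs fs Ps cu_mellin ker_scale scale_integral scale_integrable ker_integrable ker_cont
  cu_zero cu_nonneg cu_le_one)

noncomputable section

variable {N : ℕ}

/-! ### the diagonal functional as an average -/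

lemma PP_zero (θ : Ix N → ℝ) : PP (fun _ : Ix N => (0:ℂ)) θ = 1 := by
  unfold PP Pk
  simp

lemma natAbs_prod {m n : ℕ} (hm : m ≠ 0) (hn : n ≠ 0) (hmN : m < N) (hnN : n < N) :
    (∏ p : Ix N, (0:ℂ) ^ ((m.factorization p.1 : ℤ) - n.factorization p.1).natAbs) = if m = n then 1 else 0 := by
  split_ifs with h
  · subst h
    refine prod_eq_one fun p _ => ?_
    simp
  · have : ∃ p : Ix N, m.factorization p.1 ≠ n.factorization p.1 := by
      by_contra hcon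
      push Not at hcon
      apply h
      refine Nat.eq_of_factorization_eq hm hn fun p => ?_
      by_cases hp : p ∈ Nat.primesBelow N
      · exact hcon ⟨p, hp⟩
      · have e : ∀ k : ℕ, k ≠ 0 → k < N → k.factorization p = 0 := by
          intro k hk hkN
          by_contra h0
          have h1 : p ∈ k.factorization.support := Finsupp.mem_support_iff.mpr h0
          rw [Nat.support_factorization] at h1
          have h2 := Nat.mem_primeFactors.mp h1
          exact hp (Nat.mem_primesBelow.mpr ⟨lt_of_le_of_lt (Nat.le_of_dvd (Nat.pos_of_ne_zero hk) h2.2.1) hkN, h2.1⟩)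
        rw [e m hm hmN, e n hn hnN]
    obtain ⟨p, hp⟩ := this
    refine prod_eq_zero (mem_univ p) ?_
    rw [zero_pow]
    omega

theorem int_mt0 {x : ℕ × ℕ} (h1 : x.1 ≠ 0) (h2 : x.2 ≠ 0) (hN1 : x.1 < N) (hN2 : x.2 < N) :
    ∫ θ, mt θ x ∂(TT N) = (w0 x : ℂ) := by
  have h := int_chi (N := N) (a := fun _ => (0:ℂ)) (fun p => by simp) x.1 x.2
  simp_rw [PP_zero, mul_one] at h
  rw [natAbs_prod h1 h2 hN1 hN2] at h
  have e1 : ∀ θ : Ix N → ℝ, mt θ x = (x.1 : ℂ) ^ (-(1 / 2) : ℂ) * (x.2 : ℂ) ^ (-(1 / 2) : ℂ) *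
      (chi θ x.1 * (starRingEnd ℂ) (chi θ x.2)) := fun θ => mt_apply θ x
  simp_rw [e1]
  rw [integral_const_mul, h]
  unfold w0
  split_ifs with he
  · rw [← he, natCast_half h1, mul_one, ← Complex.ofReal_mul, ← Real.exp_add]
    congr 1
    have hx1 : 0 < (x.1 : ℝ) := by exact_mod_cast Nat.pos_of_ne_zero h1
    have : -(1 / 2) * Real.log x.1 + -(1 / 2) * Real.log x.1 = -Real.log x.1 := by ring
    rw [this, Real.exp_neg, Real.exp_log hx1, one_div]
  · simp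

theorem lam0_int {M : ℕ} {G : DA} (hG : Bd M G) (hMN : M < N) :
    (lam w0 G : ℂ) = ∫ θ, evt θ G ∂(TT N) := by
  simp_rw [evt_apply]
  have hx : ∀ x ∈ G.coeff.support, (x.1 ≠ 0 ∧ x.2 ≠ 0) ∧ x.1 < N ∧ x.2 < N := by
    intro x hx
    obtain ⟨h1, h2, h3⟩ := hG x hx
    have h2' : x.1 ≤ M := by exact_mod_cast h2
    have h3' : x.2 ≤ M := by exact_mod_cast h3
    exact ⟨h1, by omega, by omega⟩
  have hint : ∀ x ∈ G.coeff.support, Integrable (fun θ : Ix N → ℝ => mt θ x) (TT N) := by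
    intro x hxs
    obtain ⟨⟨h1, h2⟩, _, _⟩ := hx x hxs
    exact Integrable.of_bound (C := 1) (mt_cont x).aestronglyMeasurable
      (Filter.Eventually.of_forall fun θ => mt_norm_le θ h1 h2)
  rw [integral_finsetSum _ fun x hxs => (hint x hxs).const_mul _, lam_apply, Finsupp.sum]
  push_cast
  refine sum_congr rfl fun x hxs => ?_
  obtain ⟨⟨h1, h2⟩, h3, h4⟩ := hx x hxs
  rw [integral_const_mul, int_mt0 h1 h2 h3 h4]

/-! ### the Moebius product -/

/-- the completely multiplicative function as an arithmetic function -/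
def fa {w : ℂ} (hw : w ≠ 0) (θ : Ix N → ℝ) : ArithmeticFunction ℂ :=
  ⟨fun n => if n = 0 then 0 else fw hw θ n, by simp⟩

lemma fa_apply {w : ℂ} (hw : w ≠ 0) (θ : Ix N → ℝ) {n : ℕ} (hn : n ≠ 0) :
    fa hw θ n = (n : ℂ) ^ (-w) * chi θ n := by
  change (if n = 0 then 0 else fw hw θ n) = _
  rw [if_neg hn, fw_apply]

lemma fa_mult {w : ℂ} (hw : w ≠ 0) (θ : Ix N → ℝ) : (fa hw θ).IsMultiplicative := by
  refine ArithmeticFunction.IsMultiplicative.iff_ne_zero.mpr ⟨?_, ?_⟩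
  · rw [fa_apply hw θ one_ne_zero, chi_one]; simp
  · intro m n hm hn _
    rw [fa_apply hw θ hm, fa_apply hw θ hn, fa_apply hw θ (mul_ne_zero hm hn), chi_mul θ hm hn, Nat.cast_mul,
      Complex.natCast_mul_natCast_cpow]
    ring

/-- the product of the primes -/
def PrN (N : ℕ) : ℕ := ∏ p ∈ Nat.primesBelow N, p

lemma PrN_sq (N : ℕ) : Squarefree (PrN N) := by
  unfold PrN
  refine Finset.squarefree_prod_of_pairwise_isCoprime ?_ ?_
  · intro p hp q hq hpq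
    have h1 := (Nat.mem_primesBelow.mp hp).2
    have h2 := (Nat.mem_primesBelow.mp hq).2
    exact Nat.coprime_iff_isRelPrime.mp ((Nat.coprime_primes h1 h2).mpr hpq)
  · intro p hp
    exact (Nat.mem_primesBelow.mp hp).2.prime.squarefree

lemma PrN_pf (N : ℕ) : (PrN N).primeFactors = Nat.primesBelow N := by
  unfold PrN
  exact Nat.primeFactors_prod fun p hp => (Nat.mem_primesBelow.mp hp).2

lemma PrN_ne (N : ℕ) : PrN N ≠ 0 := (PrN_sq N).ne_zero

lemma dvd_PrN {m : ℕ} (hsq : Squarefree m) (hm : m < N) : m ∣ PrN N := by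
  rw [← Nat.prod_primeFactors_of_squarefree hsq]
  unfold PrN
  refine Finset.prod_dvd_prod_of_subset _ _ _ fun p hp => ?_
  have h2 := Nat.mem_primeFactors.mp hp
  exact Nat.mem_primesBelow.mpr ⟨lt_of_le_of_lt (Nat.le_of_dvd (Nat.pos_of_ne_zero hsq.ne_zero) h2.2.1) hm, h2.1⟩

lemma IZ_sum {w : ℂ} (hw : w ≠ 0) (θ : Ix N → ℝ) :
    IZ w θ = ∑ d ∈ (PrN N).divisors, ((ArithmeticFunction.moebius d : ℤ) : ℂ) * ((d : ℂ) ^ (-w) * chi θ d) := by
  have h := ArithmeticFunction.IsMultiplicative.prodPrimeFactors_one_sub_of_squarefree (fa hw θ) (fa_mult hw θ) (PrN_sq N)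
  rw [PrN_pf] at h
  have e1 : ∏ p ∈ Nat.primesBelow N, (1 - fa hw θ p) = IZ w θ := by
    unfold IZ
    rw [← Finset.prod_coe_sort]
    refine prod_congr rfl fun p _ => ?_
    rw [fa_apply hw θ (Nat.mem_primesBelow.mp p.2).2.ne_zero, chi_prime]
    rfl
  rw [← e1, h]
  refine sum_congr rfl fun d hd => ?_
  rw [fa_apply hw θ (Nat.pos_of_mem_divisors hd).ne']

/-- the mollifier on the torus -/
def SM (k : ℕ) (c D : ℝ) (w : ℂ) (θ : Ix N → ℝ) : ℂ :=
  ∑ m ∈ Icc 1 ⌊Real.exp (D + k * c)⌋₊, (((ArithmeticFunction.moebius m : ℤ) : ℂ) *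
    (cu k c (Real.log m - D) : ℂ)) * ((m : ℂ) ^ (-w) * chi θ m)

/-- the integral representation -/
theorem SM_int {k : ℕ} (hk : 1 ≤ k) {c D x : ℝ} (hc : 0 < c) (hx : 0 < x) {w : ℂ} (hw : 0 < w.re + x)
    (hN : ⌊Real.exp (D + k * c)⌋₊ < N) (θ : Ix N → ℝ) :
    SM k c D w θ = (1 / (2 * Real.pi)) * ∫ v : ℝ, ker k c D x v * IZ (w + ((x : ℂ) + (v : ℂ) * I)) θ := by
  have hki := ker_integrable k hk c D x hc hx.ne'
  have hre : ∀ v : ℝ, (w + ((x : ℂ) + (v : ℂ) * I)).re = w.re + x := by intro v; simp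
  have hne : ∀ v : ℝ, w + ((x : ℂ) + (v : ℂ) * I) ≠ 0 := by
    intro v h0
    have := hre v
    rw [h0, Complex.zero_re] at this
    linarith
  have hterm : ∀ m : ℕ, 1 ≤ m → (cu k c (Real.log m - D) : ℂ) * ((m : ℂ) ^ (-w) * chi θ m) =
      (1 / (2 * Real.pi)) * ∫ v : ℝ, ker k c D x v * ((m : ℂ) ^ (-(w + ((x : ℂ) + (v : ℂ) * I))) * chi θ m) := by
    intro m hm
    have hm0 : (m : ℂ) ≠ 0 := by exact_mod_cast (by omega : m ≠ 0)
    rw [cu_mellin k hk c hc x hx, mul_assoc, ← integral_mul_const]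
    congr 1
    refine integral_congr_ae (Filter.Eventually.of_forall fun v => ?_)
    simp only
    rw [Pool.Agent.H448R2.GC.M0.ker_shift k c D x v m hm, neg_add w, Complex.cpow_add _ _ hm0]
    ring
  have hint : ∀ m : ℕ, m ≠ 0 → Integrable (fun v : ℝ => ker k c D x v *
      ((m : ℂ) ^ (-(w + ((x : ℂ) + (v : ℂ) * I))) * chi θ m)) := by
    intro m hm
    have hm0 : (m : ℂ) ≠ 0 := by exact_mod_cast hm
    have hcn : Continuous fun v : ℝ => (m : ℂ) ^ (-(w + ((x : ℂ) + (v : ℂ) * I))) * chi θ m := by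
      refine Continuous.mul ?_ continuous_const
      exact Continuous.const_cpow (by fun_prop) (Or.inl hm0)
    refine (hki.mul_bdd (c := (m : ℝ) ^ (-(w.re + x))) hcn.aestronglyMeasurable
      (Filter.Eventually.of_forall fun v => ?_))
    rw [norm_mul, chi_norm, mul_one, Complex.norm_natCast_cpow_of_pos (Nat.pos_of_ne_zero hm), Complex.neg_re, hre]
  have e1 : ∀ v : ℝ, ker k c D x v * IZ (w + ((x : ℂ) + (v : ℂ) * I)) θ =
      ∑ d ∈ (PrN N).divisors, ((ArithmeticFunction.moebius d : ℤ) : ℂ) * (ker k c D x v *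
        ((d : ℂ) ^ (-(w + ((x : ℂ) + (v : ℂ) * I))) * chi θ d)) := by
    intro v
    rw [IZ_sum (hne v), mul_sum]
    refine sum_congr rfl fun d _ => ?_
    ring
  simp_rw [e1]
  rw [integral_finsetSum _ fun d hd => (hint d (Nat.pos_of_mem_divisors hd).ne').const_mul _, mul_sum]
  have e2 : ∀ d ∈ (PrN N).divisors, (1 / (2 * Real.pi) : ℂ) * ∫ v : ℝ, ((ArithmeticFunction.moebius d : ℤ) : ℂ) *
      (ker k c D x v * ((d : ℂ) ^ (-(w + ((x : ℂ) + (v : ℂ) * I))) * chi θ d)) =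
      (((ArithmeticFunction.moebius d : ℤ) : ℂ) * (cu k c (Real.log d - D) : ℂ)) * ((d : ℂ) ^ (-w) * chi θ d) := by
    intro d hd
    rw [integral_const_mul, mul_assoc, hterm d (Nat.pos_of_mem_divisors hd)]
    ring
  rw [sum_congr rfl e2]
  unfold SM
  set F : ℕ → ℂ := fun m => (((ArithmeticFunction.moebius m : ℤ) : ℂ) *
    (cu k c (Real.log m - D) : ℂ)) * ((m : ℂ) ^ (-w) * chi θ m) with hF
  have a1 : ∑ m ∈ Icc 1 ⌊Real.exp (D + k * c)⌋₊, F m =
      ∑ m ∈ (Icc 1 ⌊Real.exp (D + k * c)⌋₊).filter (fun m => m ∈ (PrN N).divisors), F m := by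
    rw [sum_filter]
    refine sum_congr rfl fun m hm => ?_
    rw [mem_Icc] at hm
    split_ifs with h
    · rfl
    · have hns : ¬ Squarefree m := by
        intro hsq
        exact h (Nat.mem_divisors.mpr ⟨dvd_PrN hsq (by omega), PrN_ne N⟩)
      rw [hF]; simp only
      rw [ArithmeticFunction.moebius_eq_zero_of_not_squarefree hns]
      simp
  have a2 : ∑ d ∈ (PrN N).divisors, F d =
      ∑ d ∈ (PrN N).divisors.filter (fun m => m ∈ Icc 1 ⌊Real.exp (D + k * c)⌋₊), F d := by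
    rw [sum_filter]
    refine sum_congr rfl fun m hm => ?_
    split_ifs with h
    · rfl
    · rw [hF]; simp only
      rw [cu_out hc (Nat.pos_of_mem_divisors hm).ne' h]
      simp
  rw [a1, a2]
  refine sum_congr ?_ fun _ _ => rfl
  ext m
  rw [mem_filter, mem_filter]
  exact and_comm

/-- a bound of the product -/
lemma IZ_bdd (w : ℂ) (hw : 0 ≤ w.re) (θ : Ix N → ℝ) : ‖IZ w θ‖ ≤ 2 ^ Fintype.card (Ix N) := by
  unfold IZ
  rw [norm_prod]
  calc ∏ p : Ix N, ‖1 - ub N w p * ec (θ p)‖ ≤ ∏ _p : Ix N, (2:ℝ) := by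
        refine prod_le_prod (fun _ _ => norm_nonneg _) fun p _ => ?_
        have h1 : ‖ub N w p‖ ≤ 1 := by
          rw [ub_norm]
          exact Real.rpow_le_one_of_one_le_of_nonpos
            (by exact_mod_cast (Nat.mem_primesBelow.mp p.2).2.one_lt.le) (by linarith)
        calc ‖1 - ub N w p * ec (θ p)‖ ≤ ‖(1:ℂ)‖ + ‖ub N w p * ec (θ p)‖ := norm_sub_le _ _
          _ ≤ 2 := by rw [norm_one, norm_mul, ec_norm, mul_one]; linarith
    _ = _ := by rw [prod_const, Finset.card_univ]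

lemma IZ_cont (w : ℂ) : Continuous fun vθ : ℝ × (Ix N → ℝ) => IZ (w + (vθ.1 : ℂ) * I) vθ.2 := by
  unfold IZ
  refine continuous_finsetProd _ fun p _ => ?_
  refine continuous_const.sub (Continuous.mul ?_ (ec_cont.comp ((continuous_apply p).comp continuous_snd)))
  unfold ub
  have hp0 : ((p.1 : ℕ) : ℂ) ≠ 0 := by exact_mod_cast (ix_pos p).ne'
  exact Continuous.const_cpow (by fun_prop) (Or.inl hp0)

/-- Cauchy and Schwarz -/
theorem SM_sq (η B : ℝ) (k : ℕ) (hη : 0 < η) (hB : 1 ≤ B) (hk : 1 ≤ k) : ∃ C : ℝ, 0 < C ∧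
    ∀ (L D : ℝ) (w : ℂ) (N : ℕ) (θ : Ix N → ℝ), 1 ≤ L → |D| ≤ B * L → 0 < w.re → ⌊Real.exp (D + η * L)⌋₊ < N →
    ‖SM k (η * L / k) D w θ‖ ^ 2 ≤ C * ∫ v : ℝ, L / (1 + L * |v|) ^ (k + 1) *
      ‖IZ (w + ((1 / L : ℝ) : ℂ) + (v : ℂ) * I) θ‖ ^ 2 := by
  obtain ⟨C, hC0, hC⟩ := ker_scale η B k hη (by linarith) hk
  refine ⟨2 * C ^ 2, by positivity, ?_⟩
  intro L D w N θ hL hD hw hN
  have hkp : (0:ℝ) < k := by exact_mod_cast hk
  have hc : 0 < η * L / k := by positivity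
  have hx : 0 < 1 / L := by positivity
  have hkc : (k:ℝ) * (η * L / k) = η * L := by field_simp
  rw [← hkc] at hN
  rw [SM_int hk hc hx (by linarith) hN θ]
  set c := η * L / k with hcdef
  set Z : ℝ → ℂ := fun v => IZ (w + ((1 / L : ℝ) : ℂ) + (v : ℂ) * I) θ with hZ
  have eZ : ∀ v : ℝ, IZ (w + (((1 / L : ℝ) : ℂ) + (v : ℂ) * I)) θ = Z v := fun v => by
    rw [hZ]; simp only; rw [add_assoc]
  simp_rw [eZ]
  set B0 : ℝ := 2 ^ Fintype.card (Ix N) with hB0d
  have hB00 : 0 ≤ B0 := by positivity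
  have hZb : ∀ v, ‖Z v‖ ≤ B0 := fun v => IZ_bdd _ (by simp; positivity) θ
  have hZc : Continuous Z := by
    have h1 := (IZ_cont (N := N) (w := w + ((1 / L : ℝ) : ℂ))).comp
      (Continuous.prodMk continuous_id (continuous_const (y := θ)))
    exact h1
  have hg := scale_integrable L (k + 1) hL (by omega)
  have hg0 : ∀ v : ℝ, 0 ≤ L / (1 + L * |v|) ^ (k + 1) := fun v => by
    have : 0 ≤ L * |v| := by positivity
    positivity
  have h1 : ‖∫ v : ℝ, ker k c D (1 / L) v * Z v‖ ≤ C * ∫ v : ℝ, L / (1 + L * |v|) ^ (k + 1) * ‖Z v‖ := by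
    rw [← integral_const_mul]
    refine norm_integral_le_of_norm_le ?_ (Filter.Eventually.of_forall fun v => ?_)
    · refine Integrable.const_mul ?_ _
      exact hg.mul_bdd (c := B0) hZc.norm.aestronglyMeasurable (Filter.Eventually.of_forall fun v => by
        rw [norm_norm]; exact hZb v)
    · rw [norm_mul, ← mul_assoc]
      refine mul_le_mul_of_nonneg_right ?_ (norm_nonneg _)
      refine hC L D (1 / L) v hL hD (by rw [abs_of_pos hx]) ?_
      rw [abs_of_pos hx]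
      exact div_le_div_of_nonneg_right hB (by linarith)
  have h2 := Pool.Agent.H448R2.GC.M0.cs_weight (fun v => L / (1 + L * |v|) ^ (k + 1)) (fun v => ‖Z v‖) hg0 hg
    (hg.mul_bdd (c := B0) hZc.norm.aestronglyMeasurable (Filter.Eventually.of_forall fun v => by
        rw [norm_norm]; exact hZb v))
    (hg.mul_bdd (c := B0 ^ 2) (hZc.norm.pow 2).aestronglyMeasurable (Filter.Eventually.of_forall fun v => by
        rw [norm_pow, norm_norm]; exact pow_le_pow_left₀ (norm_nonneg _) (hZb v) 2))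
  have h3 := scale_integral L (k + 1) hL (by omega)
  have h4 : 0 ≤ ∫ v : ℝ, L / (1 + L * |v|) ^ (k + 1) * ‖Z v‖ ^ 2 :=
    integral_nonneg fun v => mul_nonneg (hg0 v) (sq_nonneg _)
  have h5 : ‖(1 / (2 * Real.pi) : ℂ)‖ ≤ 1 := by
    rw [norm_div, norm_one, norm_mul, Complex.norm_ofNat, Complex.norm_real, Real.norm_eq_abs,
      abs_of_pos Real.pi_pos, div_le_one (by positivity)]
    have := Real.pi_gt_three
    linarith
  have h6 : 0 ≤ ∫ v : ℝ, L / (1 + L * |v|) ^ (k + 1) * ‖Z v‖ := integral_nonneg fun v => mul_nonneg (hg0 v) (norm_nonneg _)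
  calc ‖(1 / (2 * Real.pi) : ℂ) * ∫ v : ℝ, ker k c D (1 / L) v * Z v‖ ^ 2 =
      (‖(1 / (2 * Real.pi) : ℂ)‖ * ‖∫ v : ℝ, ker k c D (1 / L) v * Z v‖) ^ 2 := by rw [norm_mul]
    _ ≤ (1 * (C * ∫ v : ℝ, L / (1 + L * |v|) ^ (k + 1) * ‖Z v‖)) ^ 2 := by gcongr
    _ = C ^ 2 * (∫ v : ℝ, L / (1 + L * |v|) ^ (k + 1) * ‖Z v‖) ^ 2 := by ring
    _ ≤ C ^ 2 * (2 * ∫ v : ℝ, L / (1 + L * |v|) ^ (k + 1) * ‖Z v‖ ^ 2) := by
        refine mul_le_mul_of_nonneg_left (h2.trans ?_) (by positivity)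
        exact mul_le_mul_of_nonneg_right h3 h4
    _ = _ := by ring

/-- integrability of the main integrand -/
lemma fubM_int {L : ℝ} (hL : 1 ≤ L) {k : ℕ} (hk : 1 ≤ k) {w : ℂ} (hw : 0 ≤ w.re) {Φ : (Ix N → ℝ) → ℝ} (hΦ : Continuous Φ)
    {B : ℝ} (hB : ∀ θ, |Φ θ| ≤ B) :
    Integrable (fun q : (Ix N → ℝ) × ℝ => Φ q.1 * (L / (1 + L * |q.2|) ^ (k + 1) * ‖IZ (w + (q.2 : ℂ) * I) q.1‖ ^ 2))
      ((TT N).prod volume) := by
  set B0 : ℝ := 2 ^ Fintype.card (Ix N) with hB0d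
  have hg := scale_integrable L (k + 1) hL (by omega)
  have hdom : Integrable (fun q : (Ix N → ℝ) × ℝ => (B * B0 ^ 2) * (L / (1 + L * |q.2|) ^ (k + 1)))
      ((TT N).prod volume) := (integrable_const (B * B0 ^ 2)).mul_prod hg
  have hB1 : 0 ≤ B := (abs_nonneg _).trans (hB 0)
  refine hdom.mono' ?_ (Filter.Eventually.of_forall fun q => ?_)
  · refine Continuous.aestronglyMeasurable ?_
    have h1 : Continuous ((fun vθ : ℝ × (Ix N → ℝ) => IZ (w + (vθ.1 : ℂ) * I) vθ.2) ∘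
        (Prod.swap : (Ix N → ℝ) × ℝ → ℝ × (Ix N → ℝ))) :=
      Continuous.comp (IZ_cont (N := N) w) continuous_swap
    have h2 : Continuous fun q : (Ix N → ℝ) × ℝ => L / (1 + L * |q.2|) ^ (k + 1) := by
      refine Continuous.div continuous_const (by fun_prop) fun q => ?_
      have : 0 ≤ L * |q.2| := by positivity
      positivity
    exact (hΦ.comp continuous_fst).mul (h2.mul (h1.norm.pow 2))
  · have h0 : 0 ≤ L * |q.2| := by positivity
    rw [norm_mul, norm_mul, norm_pow, norm_norm, Real.norm_eq_abs, Real.norm_eq_abs,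
      abs_of_nonneg (a := L / (1 + L * |q.2|) ^ (k + 1)) (by positivity)]
    have h3 : ‖IZ (w + (q.2 : ℂ) * I) q.1‖ ^ 2 ≤ B0 ^ 2 :=
      pow_le_pow_left₀ (norm_nonneg _) (IZ_bdd _ (by simpa using hw) _) 2
    calc |Φ q.1| * (L / (1 + L * |q.2|) ^ (k + 1) * ‖IZ (w + (q.2 : ℂ) * I) q.1‖ ^ 2) ≤
        B * (L / (1 + L * |q.2|) ^ (k + 1) * B0 ^ 2) := by
          have := hB q.1
          gcongr
      _ = _ := by ring

/-- the average over the torus of the square of the mollifier -/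
theorem SM_bound (c A η B : ℝ) (k : ℕ) (hη : 0 < η) (hB : 1 ≤ B) (hk : 5 ≤ k) :
    ∃ C : ℝ, 0 < C ∧ ∀ (y L D : ℝ) (N J Rs M : ℕ),
    BL c y J → 1 ≤ Rs → (∀ p : ℕ, p < N → Real.log p ≤ 3 * L) → 1 ≤ L →
    Real.log y ≤ L → L ≤ A * Real.log y → y < N → |D| ≤ B * L →
    Bd M (GP J 1 (RR Rs) (II y)) → ⌊Real.exp (D + η * L)⌋₊ < N →
    ∫ θ : Ix N → ℝ, ‖SM k (η * L / k) D (1 / 2) θ‖ ^ 2 * gt J 1 (RR Rs) (II y) θ ∂(TT N) ≤ C := by
  obtain ⟨C1, hC10, hC1⟩ := SM_sq η B k hη hB (by omega)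
  obtain ⟨C2, hC20, hC2⟩ := torM c A
  refine ⟨C1 * (C2 * 2), by positivity, ?_⟩
  intro y L D N J Rs M hBL hRs hN hL hyL hLy hyN hD hBd hMN'
  set w : ℂ := (1 / 2 : ℂ) with hw
  set G := GP J 1 (RR Rs) (II y) with hG
  have hwre : w.re = 1 / 2 := by rw [hw]; norm_num
  have hL0 : 0 < L := by linarith
  have hLinv : 0 < 1 / L := by positivity
  have hPar : ∀ τ : ℝ, Par L N 0 (1 / L) τ := fun τ =>
    ⟨hL, hN, by rw [norm_zero]; positivity, by positivity, by have : 2 / L = 1 / L + 1 / L := by ring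
                                                              linarith⟩
  have hpr : ∀ i, ∀ p ∈ II y i, p.Prime := fun i p hp => (hBL.rg.pr i p hp).1
  have hev : ∀ θ : Ix N → ℝ, evt θ G = ((gt J 1 (RR Rs) (II y) θ : ℝ) : ℂ) := fun θ => evt_GP θ J _ _ hpr
  set Φ : (Ix N → ℝ) → ℝ := fun θ => gt J 1 (RR Rs) (II y) θ with hΦ
  have hΦc : Continuous Φ := by
    have h1 := Complex.continuous_re.comp (evt_cont (N := N) G)
    refine h1.congr fun θ => ?_
    simp only [Function.comp]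
    rw [hev θ, Complex.ofReal_re]
  have hΦb : ∀ θ : Ix N → ℝ, |Φ θ| ≤ l1 G := by
    intro θ
    have h1 := evt_norm_le hBd θ
    rw [hev θ, Complex.norm_real, Real.norm_eq_abs] at h1
    exact h1
  have hΦ0 : ∀ θ, 0 ≤ Φ θ := fun θ => gt_nonneg _ _ _ _ _
  have hw1 : 0 ≤ (w + ((1 / L : ℝ) : ℂ)).re := by rw [Complex.add_re, Complex.ofReal_re, hwre]; linarith
  have hfub := fubM_int hL (k := k) (by omega) hw1 hΦc hΦb
  have hSF : ∀ θ : Ix N → ℝ, ‖SM k (η * L / k) D w θ‖ ^ 2 ≤ C1 * ∫ v : ℝ, L / (1 + L * |v|) ^ (k + 1) *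
      ‖IZ (w + ((1 / L : ℝ) : ℂ) + (v : ℂ) * I) θ‖ ^ 2 := by
    intro θ
    exact hC1 L D w N θ hL hD (by rw [hwre]; norm_num) hMN'
  have step1 : ∫ θ, ‖SM k (η * L / k) D w θ‖ ^ 2 * gt J 1 (RR Rs) (II y) θ ∂(TT N) ≤
      ∫ θ, (C1 * (∫ v : ℝ, Φ θ * (L / (1 + L * |v|) ^ (k + 1) *
        ‖IZ (w + ((1 / L : ℝ) : ℂ) + (v : ℂ) * I) θ‖ ^ 2))) ∂(TT N) := by
    refine integral_mono_of_nonneg (Filter.Eventually.of_forall fun θ => ?_)
      (hfub.integral_prod_left.const_mul _) (Filter.Eventually.of_forall fun θ => ?_)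
    · exact mul_nonneg (sq_nonneg _) (hΦ0 θ)
    · simp only
      rw [integral_const_mul]
      calc ‖SM k (η * L / k) D w θ‖ ^ 2 * gt J 1 (RR Rs) (II y) θ =
          Φ θ * ‖SM k (η * L / k) D w θ‖ ^ 2 := by rw [hΦ]; ring
        _ ≤ Φ θ * (C1 * ∫ v : ℝ, L / (1 + L * |v|) ^ (k + 1) *
            ‖IZ (w + ((1 / L : ℝ) : ℂ) + (v : ℂ) * I) θ‖ ^ 2) := mul_le_mul_of_nonneg_left (hSF θ) (hΦ0 θ)
        _ = _ := by ring
  refine step1.trans ?_
  rw [integral_const_mul]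
  refine mul_le_mul_of_nonneg_left ?_ hC10.le
  rw [integral_integral_swap hfub]
  have step2 : ∀ v : ℝ, ∫ θ, Φ θ * (L / (1 + L * |v|) ^ (k + 1) *
        ‖IZ (w + ((1 / L : ℝ) : ℂ) + (v : ℂ) * I) θ‖ ^ 2) ∂(TT N) ≤
      C2 * (L / (1 + L * |v|) ^ (k - 3)) := by
    intro v
    have h0 : 0 ≤ L * |v| := by positivity
    have e1 : ∀ θ : Ix N → ℝ, Φ θ * (L / (1 + L * |v|) ^ (k + 1) * ‖IZ (w + ((1 / L : ℝ) : ℂ) + (v : ℂ) * I) θ‖ ^ 2) =
        (L / (1 + L * |v|) ^ (k + 1)) * (‖IZ (wp (1 / L) v) θ‖ ^ 2 *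
          gt J 1 (RR Rs) (II y) θ) := by
      intro θ
      have : w + ((1 / L : ℝ) : ℂ) + (v : ℂ) * I = wp (1 / L) v := by
        rw [hw]; unfold wp; push_cast; ring
      rw [this, hΦ]; ring
    simp_rw [e1]
    rw [integral_const_mul]
    have h1 := hC2 y L (1 / L) v N J Rs hBL hRs (hPar _) hyL hLy hyN
    have h3 : 0 ≤ L / (1 + L * |v|) ^ (k + 1) := by positivity
    calc L / (1 + L * |v|) ^ (k + 1) * _ ≤ L / (1 + L * |v|) ^ (k + 1) * (C2 * (1 + L * |v|) ^ 4) :=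
          mul_le_mul_of_nonneg_left h1 h3
      _ = _ := by
          have e2 : (1 + L * |v|) ^ (k + 1) = (1 + L * |v|) ^ (k - 3) * (1 + L * |v|) ^ 4 := by
            rw [← pow_add]; congr 1; omega
          rw [e2]
          field_simp
  have hgk := scale_integrable L (k - 3) hL (by omega)
  have hg2 := scale_integral L (k - 3) hL (by omega)
  calc ∫ v : ℝ, ∫ θ, Φ θ * (L / (1 + L * |v|) ^ (k + 1) *
        ‖IZ (w + ((1 / L : ℝ) : ℂ) + (v : ℂ) * I) θ‖ ^ 2) ∂(TT N) ≤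
      ∫ v : ℝ, C2 * (L / (1 + L * |v|) ^ (k - 3)) := by
        refine integral_mono_of_nonneg (Filter.Eventually.of_forall fun v => ?_) (hgk.const_mul _)
          (Filter.Eventually.of_forall step2)
        refine integral_nonneg fun θ => mul_nonneg (hΦ0 θ) (mul_nonneg ?_ (sq_nonneg _))
        have h0 : 0 ≤ L * |v| := by positivity
        positivity
    _ ≤ C2 * 2 := by
        rw [integral_const_mul]
        exact mul_le_mul_of_nonneg_left hg2 hC20.le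

end

end Pool.Agent.Y24
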