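import Pool.Agent.Y24.B1
import Pool.Agent.TH806.Om
import Pool.Agent.TH806.X4

set_option autoImplicit false

/-!
The mean square of the mollifier with the multiplier of exponent one.
-/

namespace Pool.Agent.Y24

open Finset Filter MeasureTheory Complex
open Pool.Agent.W184.NZ
open Pool.Agent.TH806
open Pool.Agent.H306R2.SM (om cl Yf)
open Pool.Agent.H262R4.TM (Rng Ck)
open Pool.Agent.H448R2.GC (cu fs cu_nonneg cu_le_one)

noncomputable section

/-- averages without zeta, strong form -/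
theorem avgO2 {N : ℝ} {f : DA} (hf : Bd N f) {κ : ℕ} {T : ℝ} (hT : 0 < T) (hκ : 1 ≤ κ) (hN : 1 ≤ N) :
    |(∫ t in Set.Ioi (0:ℝ), om κ (κ / T) t * (ev t f).re) - lam w0 f| ≤ (N * κ / T) ^ (κ + 1) * l1 f := by
  have hκ0 : (0:ℝ) < κ := by exact_mod_cast hκ
  have hδ : 0 < (κ:ℝ) / T := by positivity
  have e1 : ∀ t : ℝ, om κ (κ / T) t * (ev t f).re = ∑ x ∈ f.coeff.support, f.coeff x * (om κ (κ / T) t * (mh t x).re) := by
    intro t
    rw [ev_re, mul_sum]
    refine sum_congr rfl fun x _ => ?_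
    ring
  have hint : ∀ x ∈ f.coeff.support, IntegrableOn (fun t => om κ (κ / T) t * (mh t x).re) (Set.Ioi 0) := by
    intro x hx
    obtain ⟨⟨h2, h3⟩, _⟩ := hf x hx
    refine (om_int0 κ hδ).mul_bdd (c := 1) (Complex.continuous_re.comp (mh_cont h2 h3)).aestronglyMeasurable
      (Eventually.of_forall fun t => ?_)
    rw [Real.norm_eq_abs]
    exact (Complex.abs_re_le_norm _).trans (mh_norm_le h2 h3)
  simp_rw [e1]
  rw [integral_finsetSum _ fun x hx => (hint x hx).const_mul _, lam_apply, Finsupp.sum, ← sum_sub_distrib]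
  refine (abs_sum_le_sum_abs _ _).trans ?_
  unfold l1
  rw [mul_sum]
  refine sum_le_sum fun x hx => ?_
  rw [integral_const_mul, ← mul_sub, abs_mul, mul_comm]
  refine mul_le_mul_of_nonneg_right ?_ (abs_nonneg _)
  obtain ⟨⟨h2, h3⟩, h4, h5⟩ := hf x hx
  obtain ⟨m, n⟩ := x
  simp only at h2 h3 h4 h5
  have hm0 : (0:ℝ) < m := by exact_mod_cast Nat.pos_of_ne_zero h2
  have hn0 : (0:ℝ) < n := by exact_mod_cast Nat.pos_of_ne_zero h3
  have e2 : ∀ t : ℝ, om κ (κ / T) t * (mh t (m, n)).re =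
      ((m:ℝ) * n) ^ (-(1 / 2 : ℝ)) * (om κ (κ / T) t * Real.cos (t * (Real.log n - Real.log m))) := by
    intro t
    rw [mh_re t h2 h3]; ring
  simp_rw [e2]
  rw [integral_const_mul]
  by_cases hmn : m = n
  · subst hmn
    simp only [sub_self, mul_zero, Real.cos_zero, mul_one]
    rw [om_mass κ hδ]
    have : w0 (m, m) = ((m:ℝ) * m) ^ (-(1 / 2 : ℝ)) := by
      unfold w0
      rw [if_pos rfl, ← pow_two, ← Real.rpow_natCast, ← Real.rpow_mul hm0.le]
      norm_num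
      rw [Real.rpow_neg_one]
    rw [this, mul_one, sub_self, abs_zero]
    positivity
  · have hw : w0 (m, n) = 0 := by unfold w0; rw [if_neg hmn]
    rw [hw, sub_zero, abs_mul]
    have h6 := log_sub_ge h2 h3 h4 h5 hmn
    have hφ : Real.log n - Real.log m ≠ 0 := by
      intro h0
      rw [h0, abs_zero] at h6
      have : 0 < 1 / N := by positivity
      linarith
    have h7 := om_cos κ hδ _ hφ
    have h8 : |((m:ℝ) * n) ^ (-(1 / 2 : ℝ))| ≤ 1 := by
      rw [abs_of_nonneg (by positivity)]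
      refine Real.rpow_le_one_of_one_le_of_nonpos ?_ (by norm_num)
      have a1 : (1:ℝ) ≤ m := by exact_mod_cast Nat.pos_of_ne_zero h2
      have a2 : (1:ℝ) ≤ n := by exact_mod_cast Nat.pos_of_ne_zero h3
      nlinarith
    have h9 : (κ / T / |Real.log n - Real.log m|) ≤ N * κ / T := by
      rw [div_le_iff₀ (abs_pos.mpr hφ)]
      calc (κ:ℝ) / T = N * κ / T * (1 / N) := by field_simp
        _ ≤ _ := by gcongr
    have h10 : (κ / T / |Real.log n - Real.log m|) ^ (κ + 1) ≤ (N * κ / T) ^ (κ + 1) := by gcongr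
    calc _ ≤ 1 * (N * κ / T) ^ (κ + 1) := mul_le_mul h8 (h7.trans h10) (abs_nonneg _) zero_le_one
      _ = _ := one_mul _

/-! ### the mollifier as an element of the algebra -/

/-- real coefficients of the mollifier -/
def mb (k : ℕ) (c D : ℝ) (n : ℕ) : ℝ := ((ArithmeticFunction.moebius n : ℤ) : ℝ) * cu k c (Real.log n - D)

lemma mb_abs {k : ℕ} {c D : ℝ} (hc : 0 < c) (n : ℕ) : |mb k c D n| ≤ 1 := by
  unfold mb
  rw [abs_mul]
  have h1 : |((ArithmeticFunction.moebius n : ℤ) : ℝ)| ≤ 1 := by exact_mod_cast ArithmeticFunction.abs_moebius_le_one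
  have h2 : |cu k c (Real.log n - D)| ≤ 1 := by
    rw [abs_of_nonneg (cu_nonneg k c _ hc)]; exact cu_le_one k c _ hc
  calc _ ≤ (1:ℝ) * 1 := mul_le_mul h1 h2 (abs_nonneg _) zero_le_one
    _ = 1 := one_mul 1

/-- the square of the mollifier -/
def AA (M : ℕ) (b : ℕ → ℝ) : DA :=
  ∑ m ∈ Icc 1 M, ∑ n ∈ Icc 1 M, MonoidAlgebra.single (m, n) (b m * b n)

lemma AA_Bd (M : ℕ) (b : ℕ → ℝ) : Bd M (AA M b) := by
  unfold AA
  refine Bd.sum fun m hm => Bd.sum fun n hn => Bd.single ?_ _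
  rw [mem_Icc] at hm hn
  refine ⟨⟨by simp; omega, by simp; omega⟩, ?_, ?_⟩
  · exact_mod_cast hm.2
  · exact_mod_cast hn.2

lemma AA_l1 (M : ℕ) {b : ℕ → ℝ} (hb : ∀ n, |b n| ≤ 1) : l1 (AA M b) ≤ (M:ℝ) ^ 2 := by
  unfold AA
  refine (l1_sum _ _).trans ?_
  have h1 : ∀ m ∈ Icc 1 M, l1 (∑ n ∈ Icc 1 M, MonoidAlgebra.single (m, n) (b m * b n) : DA) ≤ M := by
    intro m _
    refine (l1_sum _ _).trans ?_
    have h2 : ∀ n ∈ Icc 1 M, l1 (MonoidAlgebra.single (m, n) (b m * b n) : DA) ≤ 1 := by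
      intro n _
      rw [l1_single, abs_mul]
      calc _ ≤ (1:ℝ) * 1 := mul_le_mul (hb m) (hb n) (abs_nonneg _) zero_le_one
        _ = 1 := one_mul 1
    refine (sum_le_sum h2).trans ?_
    simp
  refine (sum_le_sum h1).trans ?_
  simp [sq]

lemma ev_AA (M : ℕ) (b : ℕ → ℝ) (t : ℝ) :
    ev t (AA M b) = ((‖∑ m ∈ Icc 1 M, (b m : ℂ) * (m : ℂ) ^ (-(cl t))‖ ^ 2 : ℝ) : ℂ) := by
  rw [Complex.ofReal_pow, ← Complex.mul_conj', map_sum, sum_mul_sum]
  unfold AA
  rw [map_sum]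
  refine sum_congr rfl fun m hm => ?_
  rw [map_sum]
  refine sum_congr rfl fun n hn => ?_
  rw [mem_Icc] at hm hn
  rw [ev_single, map_mul, Complex.conj_ofReal, ← natCast_cpow_conj n (by omega)]
  have e : (starRingEnd ℂ) (-(cl t)) = -(1 / 2 - (t:ℂ) * Complex.I) := by
    unfold cl
    rw [map_neg, map_add, map_mul, Complex.conj_ofReal, Complex.conj_I, map_div₀, map_one, map_ofNat]
    ring
  rw [e]
  unfold cl
  change _ * ((m : ℂ) ^ (-(1 / 2 + t * Complex.I)) * (n : ℂ) ^ (-(1 / 2 - t * Complex.I))) = _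
  push_cast
  ring

lemma evt_AA {N : ℕ} (M : ℕ) (b : ℕ → ℝ) (θ : Ix N → ℝ) :
    evt θ (AA M b) = ((‖∑ m ∈ Icc 1 M, (b m : ℂ) * ((m : ℂ) ^ (-(1 / 2 : ℂ)) * chi θ m)‖ ^ 2 : ℝ) : ℂ) := by
  rw [Complex.ofReal_pow, ← Complex.mul_conj', map_sum, sum_mul_sum]
  unfold AA
  rw [map_sum]
  refine sum_congr rfl fun m hm => ?_
  rw [map_sum]
  refine sum_congr rfl fun n hn => ?_
  rw [mem_Icc] at hm hn
  rw [evt_single, mt_apply, map_mul, map_mul, Complex.conj_ofReal]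
  simp only
  rw [natCast_half (by omega : n ≠ 0), Complex.conj_ofReal]
  push_cast
  ring

lemma fs_eq (k : ℕ) (c D t : ℝ) : ∑ m ∈ Icc 1 ⌊Real.exp (D + k * c)⌋₊, (mb k c D m : ℂ) * (m : ℂ) ^ (-(cl t)) =
    fs k c D (cl t) := by
  unfold fs mb
  refine sum_congr rfl fun m _ => ?_
  push_cast
  ring

lemma SM_eq {N : ℕ} (k : ℕ) (c D : ℝ) (θ : Ix N → ℝ) :
    ∑ m ∈ Icc 1 ⌊Real.exp (D + k * c)⌋₊, (mb k c D m : ℂ) * ((m : ℂ) ^ (-(1 / 2 : ℂ)) * chi θ m) =
    SM k c D (1 / 2) θ := by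
  unfold SM mb
  refine sum_congr rfl fun m _ => ?_
  push_cast
  ring

/-- the mean square of the mollifier times the multiplier -/
theorem XB (k : ℕ) (hk : 5 ≤ k) (η ε : ℝ) (hη : 0 < η) (hε : 0 < ε) (c A : ℝ) : ∃ C : ℝ, 0 < C ∧ ∀ Rs : ℕ,
    1 ≤ Rs → ∀ᶠ T : ℝ in atTop, ∀ κ : ℕ, Rng T κ → ∀ (y D : ℝ) (J : ℕ), BL c y J →
    320 * ((Rs:ℝ) + 1) * Real.log y ≤ ε / 2 * Real.log T → 320 * ((Rs:ℝ) + 1) * Real.log y ≤ Real.log T →
    Real.log T ≤ A * Real.log y →
    0 ≤ D → D + η * Real.log T ≤ (1 - ε) * Real.log T →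
    ∫ t in Set.Ioi (0:ℝ), om κ (κ / T) t * (‖fs k (η * Real.log T / k) D (cl t)‖ ^ 2 *
        gp J 1 (RR Rs) (II y) t) ≤ C := by
  obtain ⟨C, hC0, hC⟩ := SM_bound c A η 1 k hη le_rfl hk
  refine ⟨C + 1, by positivity, fun Rs hRs => ?_⟩
  have hε4 : 0 < ε / 4 := by positivity
  have hT3 : ∀ᶠ T : ℝ in atTop, 16 * Real.log T ^ 2 ≤ T ^ (ε / 4) := by
    have h1 := (isLittleO_log_rpow_rpow_atTop (2:ℝ) hε4).def (show (0:ℝ) < 1 / 16 by norm_num)
    filter_upwards [h1, eventually_gt_atTop (1:ℝ)] with T h1 h2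
    have h3 : 0 < Real.log T := Real.log_pos h2
    rw [Real.norm_eq_abs, Real.norm_eq_abs, abs_of_nonneg (by positivity), abs_of_nonneg (by positivity)] at h1
    have h4 : Real.log T ^ 2 = Real.log T ^ (2:ℝ) := by norm_cast
    rw [h4]; linarith
  filter_upwards [hT3, eventually_gt_atTop (3:ℝ), Real.tendsto_log_atTop.eventually_ge_atTop (max 400 (40 / ε))] with
    T hT3 hTgt hLL κ hκ y D J hBL hy0 hy1 hy2 hD0 hD1
  set L := Real.log T with hLd
  have hL400 : 400 ≤ L := (le_max_left _ _).trans hLL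
  have hLε : 40 / ε ≤ L := (le_max_right _ _).trans hLL
  have hLε' : 40 ≤ L * ε := by rwa [div_le_iff₀ hε] at hLε
  have hL1 : 1 ≤ L := by linarith
  have hL0 : 0 < L := by linarith
  have hT0 : 0 < T := by linarith
  have hTe : T = Real.exp L := (Real.exp_log hT0).symm
  have hy := hBL.y1
  have hRs1 : (1:ℝ) ≤ Rs := by exact_mod_cast hRs
  have hly : 1 < Real.log y := by
    have := Real.exp_one_lt_d9
    rw [Real.lt_log_iff_exp_lt (by linarith)]; linarith
  have hyL : Real.log y ≤ L := by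
    have : 1 * Real.log y ≤ 320 * ((Rs:ℝ) + 1) * Real.log y :=
      mul_le_mul_of_nonneg_right (by linarith) (by linarith)
    linarith
  have hk1 : 1 ≤ κ := by
    have h1 := hκ.1
    have h2 : (1:ℝ) ≤ Real.log T ^ 2 := one_le_pow₀ hL1
    have : (1:ℝ) ≤ κ := h2.trans h1
    exact_mod_cast this
  have hκ0 : (0:ℝ) < κ := by exact_mod_cast hk1
  have hkp : (0:ℝ) < k := by exact_mod_cast (by omega : 0 < k)
  have hε1 : ε < 1 := by
    by_contra hcon
    push Not at hcon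
    have h1 : 0 < η * L := by positivity
    have h2 : (1 - ε) * L ≤ 0 := mul_nonpos_of_nonpos_of_nonneg (by linarith) hL0.le
    linarith
  set c0 := η * L / k with hc0
  have hc0p : 0 < c0 := by positivity
  have hkc0 : (k:ℝ) * c0 = η * L := by rw [hc0]; field_simp
  set M := ⌊Real.exp (D + k * c0)⌋₊ with hM
  have hMle : (M:ℝ) ≤ Real.exp ((1 - ε) * L) := by
    rw [hM]
    refine (Nat.floor_le (Real.exp_pos _).le).trans (Real.exp_le_exp.mpr ?_)
    rw [hkc0]; linarith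
  have hM1 : 1 ≤ M := by
    rw [hM]
    apply Nat.le_floor
    rw [Nat.cast_one]
    exact Real.one_le_exp (by rw [hkc0]; positivity)
  have hM1' : (1:ℝ) ≤ M := by exact_mod_cast hM1
  set G := GP J 1 (RR Rs) (II y) with hGd
  set B := ⌈Real.exp (Real.log y * (160 * ((Rs:ℝ) + 1)))⌉₊ with hB
  have hBle : (B:ℝ) ≤ 2 * Real.exp (ε / 4 * L) := by
    have h1 : (B:ℝ) < Real.exp (Real.log y * (160 * ((Rs:ℝ) + 1))) + 1 := Nat.ceil_lt_add_one (Real.exp_pos _).le
    have h2 : Real.exp (Real.log y * (160 * ((Rs:ℝ) + 1))) ≤ Real.exp (ε / 4 * L) := by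
      apply Real.exp_le_exp.mpr; linarith
    have h3 : 1 ≤ Real.exp (ε / 4 * L) := Real.one_le_exp (by positivity)
    linarith
  have hB1 : 1 ≤ B := Nat.one_le_ceil_iff.mpr (Real.exp_pos _)
  have hB1' : (1:ℝ) ≤ B := by exact_mod_cast hB1
  have hBd : Bd (B:ℝ) G := by
    have h1 := GP_Bd (Rs := Rs) (by linarith : 1 ≤ y) hBL.rg 1
    exact h1.mono (Nat.le_ceil _)
  have hpr : ∀ i, ∀ p ∈ II y i, p.Prime := fun i p hp => (hBL.rg.pr i p hp).1
  set f : DA := AA M (mb k c0 D) * G with hf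
  have hfBd : Bd ((M * B : ℕ) : ℝ) f := by
    rw [Nat.cast_mul]
    exact (AA_Bd M _).mul hBd
  have hMB1 : (1:ℝ) ≤ ((M * B : ℕ) : ℝ) := by exact_mod_cast Nat.mul_pos hM1 hB1
  have hMBle : ((M * B : ℕ) : ℝ) ≤ 2 * Real.exp ((1 - 3 * ε / 4) * L) := by
    push_cast
    calc (M:ℝ) * B ≤ Real.exp ((1 - ε) * L) * (2 * Real.exp (ε / 4 * L)) := by gcongr
      _ = 2 * (Real.exp ((1 - ε) * L) * Real.exp (ε / 4 * L)) := by ring
      _ = _ := by rw [← Real.exp_add]; congr 2; ring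
  have hl1 : l1 f ≤ Real.exp (4 * L) := by
    have h1 : l1 G ≤ Real.exp (Real.log y * (320 * ((Rs:ℝ) + 1))) := GP_l1' (by linarith) hBL.rg hRs (by norm_num)
    have h2 : l1 G ≤ Real.exp L := h1.trans (Real.exp_le_exp.mpr (by linarith))
    have h3 := AA_l1 M (b := mb k c0 D) (mb_abs hc0p)
    have h4 : (M:ℝ) ^ 2 ≤ Real.exp (2 * L) := by
      calc (M:ℝ) ^ 2 ≤ (Real.exp L) ^ 2 := by
            refine pow_le_pow_left₀ (by positivity) (hMle.trans (Real.exp_le_exp.mpr ?_)) 2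
            have : 0 < ε * L := by positivity
            linarith
        _ = Real.exp (2 * L) := by rw [← Real.exp_nat_mul]; norm_num
    calc l1 f ≤ l1 (AA M (mb k c0 D)) * l1 G := l1_mul _ _
      _ ≤ Real.exp (2 * L) * Real.exp L := mul_le_mul (h3.trans h4) h2 (l1_nonneg _) (Real.exp_pos _).le
      _ = Real.exp (3 * L) := by rw [← Real.exp_add]; congr 1; ring
      _ ≤ _ := Real.exp_le_exp.mpr (by linarith)
  have hmain := avgO2 hfBd hT0 hk1 hMB1
  have hbase : ((M * B : ℕ) : ℝ) * κ / T ≤ Real.exp (-(ε / 4 * L)) := by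
    have h1 : (κ:ℝ) ≤ 4 * L ^ 2 := hκ.2
    have h2 : 2 * (4 * L ^ 2) ≤ Real.exp (ε / 4 * L) := by
      have : T ^ (ε / 4) = Real.exp (ε / 4 * L) := by
        rw [Real.rpow_def_of_pos hT0, ← hLd]; congr 1; ring
      rw [this] at hT3
      nlinarith [sq_nonneg L]
    rw [hTe, div_le_iff₀ (Real.exp_pos _), ← Real.exp_add]
    calc ((M * B : ℕ) : ℝ) * κ ≤ 2 * Real.exp ((1 - 3 * ε / 4) * L) * (4 * L ^ 2) := by gcongr
      _ = Real.exp ((1 - 3 * ε / 4) * L) * (2 * (4 * L ^ 2)) := by ring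
      _ ≤ Real.exp ((1 - 3 * ε / 4) * L) * Real.exp (ε / 4 * L) := by gcongr
      _ ≤ _ := by
          rw [← Real.exp_add]
          apply Real.exp_le_exp.mpr
          nlinarith
  have herr : (((M * B : ℕ) : ℝ) * κ / T) ^ (κ + 1) * l1 f ≤ 1 := by
    have h1 : (((M * B : ℕ) : ℝ) * κ / T) ^ (κ + 1) ≤ Real.exp (-(ε / 4 * L)) ^ (κ + 1) := by gcongr
    have h2 : Real.exp (-(ε / 4 * L)) ^ (κ + 1) ≤ Real.exp (-(4 * L)) := by
      rw [← Real.exp_nat_mul]
      apply Real.exp_le_exp.mpr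
      have h3 : L ^ 2 ≤ κ := hκ.1
      push_cast
      have h5 : 4 * L ≤ (κ + 1) * (ε / 4 * L) := by
        have h6 : 4 ≤ (κ:ℝ) * (ε / 4) := by
          calc (4:ℝ) ≤ L * (L * ε) / 4 := by nlinarith
            _ = L ^ 2 * (ε / 4) := by ring
            _ ≤ _ := by gcongr
        have h7 : 0 ≤ ε / 4 * L := by positivity
        nlinarith
      linarith
    calc _ ≤ Real.exp (-(4 * L)) * Real.exp (4 * L) :=
          mul_le_mul (h1.trans h2) hl1 (l1_nonneg _) (Real.exp_pos _).le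
      _ = 1 := by rw [← Real.exp_add]; simp
  have e1 : ∀ t : ℝ, om κ (κ / T) t * (ev t f).re = om κ (κ / T) t *
      (‖fs k c0 D (cl t)‖ ^ 2 * gp J 1 (RR Rs) (II y) t) := by
    intro t
    rw [hf, map_mul, ev_AA, hM, fs_eq, hGd, ev_GP t J _ _ hpr, ← Complex.ofReal_mul, Complex.ofReal_re]
  simp_rw [e1] at hmain
  -- the torus side
  set N := ⌊Real.exp (3 * L)⌋₊ with hN
  have hNlog : ∀ p : ℕ, p < N → Real.log p ≤ 3 * L := by
    intro p hp
    rcases Nat.eq_zero_or_pos p with h0 | h0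
    · rw [h0]; simp; linarith
    · have hp0 : (0:ℝ) < p := by exact_mod_cast h0
      rw [Real.log_le_iff_le_exp hp0]
      have h1 : (p:ℝ) ≤ N := by exact_mod_cast hp.le
      exact h1.trans (Nat.floor_le (Real.exp_pos _).le)
  have hN2 : 2 * Real.exp L < N := by
    have h1 : Real.exp (3 * L) < N + 1 := Nat.lt_floor_add_one _
    have h2 : Real.exp (3 * L) = Real.exp L * Real.exp L * Real.exp L := by rw [← Real.exp_add, ← Real.exp_add]; congr 1; ring
    have h3 : L + 1 ≤ Real.exp L := Real.add_one_le_exp L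
    have h4 : Real.exp L * 400 ≤ Real.exp L * Real.exp L :=
      mul_le_mul_of_nonneg_left (by linarith) (Real.exp_pos _).le
    have h5 : Real.exp L * Real.exp L * 400 ≤ Real.exp L * Real.exp L * Real.exp L :=
      mul_le_mul_of_nonneg_left (by linarith) (by positivity)
    linarith
  have hyN : y < N := by
    have h1 : y ≤ Real.exp L := by
      rw [← Real.log_le_iff_le_exp (by linarith)]; exact hyL
    have := Real.exp_pos L
    linarith
  have hMBN : M * B < N := by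
    have h1 : ((M * B : ℕ) : ℝ) < N := by
      refine lt_of_le_of_lt hMBle (lt_of_le_of_lt ?_ hN2)
      have : Real.exp ((1 - 3 * ε / 4) * L) ≤ Real.exp L := by
        apply Real.exp_le_exp.mpr
        have : 0 < ε * L := by positivity
        linarith
      linarith
    exact_mod_cast h1
  have hMN : ⌊Real.exp (D + η * L)⌋₊ < N := by
    rw [← hkc0, ← hM]
    exact lt_of_le_of_lt (Nat.le_mul_of_pos_right _ (by omega)) hMBN
  have hlam := lam0_int (N := N) hfBd hMBN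
  have e2 : ∀ θ : Ix N → ℝ, evt θ f = ((‖SM k c0 D (1 / 2) θ‖ ^ 2 * gt J 1 (RR Rs) (II y) θ : ℝ) : ℂ) := by
    intro θ
    rw [hf, map_mul, evt_AA, hM, SM_eq, hGd, evt_GP θ J _ _ hpr, ← Complex.ofReal_mul]
  simp_rw [e2] at hlam
  rw [integral_complex_ofReal] at hlam
  have hlam2 : lam w0 f = ∫ θ : Ix N → ℝ, ‖SM k c0 D (1 / 2) θ‖ ^ 2 * gt J 1 (RR Rs) (II y) θ ∂(TT N) := by
    exact_mod_cast hlam
  have hb := hC y L D N J Rs B hBL hRs hNlog hL1 hyL hy2 hyN (by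
    rw [abs_of_nonneg hD0]
    have : 0 < ε * L := by positivity
    have : 0 < η * L := by positivity
    linarith) hBd hMN
  rw [← hlam2] at hb
  have h9 := (abs_le.mp hmain).2
  linarith

end

end Pool.Agent.Y24
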