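import Pool.Agent.Y24.A5
import Pool.Agent.Y24.B2

set_option autoImplicit false

/-!
The mean of the power `4/3` of the mollified zeta function.
-/

namespace Pool.Agent.Y24

open Finset Filter MeasureTheory Complex
open Pool.Agent.W184.NZ
open Pool.Agent.TH806
open Pool.Agent.H306R2.SM (om cl Yf)
open Pool.Agent.H262R4.TM (Rng Ck)
open Pool.Agent.H448R2.GC (cu fs cu_nonneg cu_le_one)

noncomputable section

/-- the pointwise inequality -/
lemma star21 {R : ℕ} (hR : 1 ≤ R) (z : ℂ) :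
    (1 - Real.exp (-(R:ℝ))) ^ 6 ≤ gf (20 * R) (-2) R z * gf (20 * R) 1 R z ^ 2 := by
  have hR' : (0:ℝ) < R := by exact_mod_cast hR
  set d := 1 - Real.exp (-(R:ℝ)) with hd
  have hd0 : 0 ≤ d := by
    have : Real.exp (-(R:ℝ)) ≤ 1 := Real.exp_le_one_iff.mpr (by simp)
    linarith
  have hd1 : d ≤ 1 := by
    have := Real.exp_pos (-(R:ℝ))
    linarith
  have key : ∀ a : ℝ, |a| ≤ 2 → ‖z‖ ≤ R → d ^ 2 * Real.exp (2 * a * z.re) ≤ gf (20 * R) a R z := by
    intro a ha hz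
    have h3 := pow_le_pow_left₀ (mul_nonneg hd0 (norm_nonneg _)) (NK_ge_of_cl (cl_two hR ha) hz) 2
    rw [mul_pow, norm_exp_sq] at h3
    have h4 : 0 ≤ (‖z‖ / R) ^ (2 * R) := by positivity
    unfold gf; linarith
  rcases le_or_gt ‖z‖ (R:ℝ) with hz | hz
  · have h1 := key (-2) (by norm_num) hz
    have h2 := key 1 (by norm_num) hz
    have h3 : (d ^ 2 * Real.exp (2 * 1 * z.re)) ^ 2 ≤ gf (20 * R) 1 R z ^ 2 :=
      pow_le_pow_left₀ (by positivity) h2 2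
    calc d ^ 6 = (d ^ 2 * Real.exp (2 * (-2) * z.re)) * (d ^ 2 * Real.exp (2 * 1 * z.re)) ^ 2 := by
          have : Real.exp (2 * (-2) * z.re) * Real.exp (2 * 1 * z.re) ^ 2 = 1 := by
            rw [← Real.exp_nat_mul, ← Real.exp_add]
            have : 2 * (-2) * z.re + ((2:ℕ):ℝ) * (2 * 1 * z.re) = 0 := by push_cast; ring
            rw [this, Real.exp_zero]
          calc d ^ 6 = d ^ 6 * (Real.exp (2 * (-2) * z.re) * Real.exp (2 * 1 * z.re) ^ 2) := by rw [this, mul_one]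
            _ = _ := by ring
      _ ≤ _ := mul_le_mul h1 h3 (by positivity) (gf_nonneg _ _ _ _)
  · have hq : 1 ≤ (‖z‖ / R) ^ (2 * R) := one_le_pow₀ (by rw [one_le_div hR']; exact hz.le)
    have h1 : ∀ a : ℝ, 1 ≤ gf (20 * R) a R z := by
      intro a
      unfold gf; nlinarith [sq_nonneg ‖NK (20 * R) a z‖]
    calc d ^ 6 ≤ 1 := pow_le_one₀ hd0 hd1
      _ ≤ gf (20 * R) (-2) R z * gf (20 * R) 1 R z ^ 2 :=
          one_le_mul_of_one_le_of_one_le (h1 _) (one_le_pow₀ (h1 _))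

lemma gp21 {J Rs : ℕ} (hRs : 1 ≤ Rs) (I : ℕ → Finset ℕ) (t : ℝ) :
    Real.exp (-24) ≤ gp J (-2) (RR Rs) I t * gp J 1 (RR Rs) I t ^ 2 := by
  have h1 : ∀ i ∈ range J, (1 - Real.exp (-(RR Rs i:ℝ))) ^ 6 ≤
      gf (20 * RR Rs i) (-2) (RR Rs i) (PI (I i) (1 / 2 + t * Complex.I)) *
      gf (20 * RR Rs i) 1 (RR Rs i) (PI (I i) (1 / 2 + t * Complex.I)) ^ 2 := by
    intro i _
    have hR : 1 ≤ RR Rs i := by unfold RR; omega
    exact star21 hR _
  have h2 : ∏ i ∈ range J, (1 - Real.exp (-(RR Rs i:ℝ))) ^ 6 ≤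
      gp J (-2) (RR Rs) I t * gp J 1 (RR Rs) I t ^ 2 := by
    have h0 : ∀ i ∈ range J, 0 ≤ (1 - Real.exp (-(RR Rs i:ℝ))) ^ 6 := fun i _ => by positivity
    refine (prod_le_prod h0 h1).trans (le_of_eq ?_)
    rw [prod_mul_distrib, prod_pow]
    rfl
  refine le_trans ?_ h2
  have e1 : ∀ i ∈ range J, Real.exp (-(12 * Real.exp (-(RR Rs i:ℝ)))) ≤ (1 - Real.exp (-(RR Rs i:ℝ))) ^ 6 := by
    intro i _
    set x := Real.exp (-(RR Rs i:ℝ)) with hx
    have hx0 : 0 < x := Real.exp_pos _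
    have hR : (1:ℝ) ≤ RR Rs i := by
      have : 1 ≤ RR Rs i := by unfold RR; omega
      exact_mod_cast this
    have hx1 : x ≤ 1 / 2 := by
      have : x ≤ Real.exp (-1) := Real.exp_le_exp.mpr (by linarith)
      have h2 := Real.exp_neg_one_lt_d9
      linarith
    have h4 : Real.exp (-(2 * x)) ≤ 1 - x := by
      have h5 := Real.add_one_le_exp (2 * x)
      rw [Real.exp_neg, inv_le_comm₀ (Real.exp_pos _) (by linarith)]
      refine le_trans ?_ h5
      rw [inv_eq_one_div, div_le_iff₀ (by linarith)]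
      nlinarith
    calc Real.exp (-(12 * x)) = Real.exp (-(2 * x)) ^ 6 := by
          rw [← Real.exp_nat_mul]; congr 1; push_cast; ring
      _ ≤ (1 - x) ^ 6 := pow_le_pow_left₀ (Real.exp_pos _).le h4 6
  refine le_trans ?_ (prod_le_prod (fun i _ => (Real.exp_pos _).le) e1)
  rw [← Real.exp_sum]
  refine Real.exp_le_exp.mpr ?_
  rw [sum_neg_distrib, ← mul_sum]
  have := sum_exp_le J Rs (RR_ge Rs)
  have h6 : Real.exp (-(Rs:ℝ)) ≤ 1 := Real.exp_le_one_iff.mpr (by simp)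
  linarith

lemma hoelder43 {J Rs : ℕ} (hRs : 1 ≤ Rs) (I : ℕ → Finset ℕ) (t : ℝ) {X Y : ℝ} (hX : 0 ≤ X) (hY : 0 ≤ Y) :
    (X * Y) ^ (4 / 3 : ℝ) ≤ Real.exp 8 * (X ^ 4 * gp J (-2) (RR Rs) I t + Y ^ 2 * gp J 1 (RR Rs) I t) := by
  have hg1 := gp_nonneg J (-2) (RR Rs) I t
  have hg2 := gp_nonneg J 1 (RR Rs) I t
  have h0 := gp21 (J := J) hRs I t
  have h1 := Real.geom_mean_le_arith_mean2_weighted (w₁ := 1 / 3) (w₂ := 2 / 3)
    (p₁ := X ^ 4 * gp J (-2) (RR Rs) I t) (p₂ := Y ^ 2 * gp J 1 (RR Rs) I t) (by norm_num) (by norm_num)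
    (by positivity) (by positivity) (by norm_num)
  set g1 := gp J (-2) (RR Rs) I t with hg1d
  set g2 := gp J 1 (RR Rs) I t with hg2d
  have e1 : (X ^ 4 * g1) ^ (1 / 3 : ℝ) * (Y ^ 2 * g2) ^ (2 / 3 : ℝ) =
      (X * Y) ^ (4 / 3 : ℝ) * (g1 * g2 ^ 2) ^ (1 / 3 : ℝ) := by
    rw [Real.mul_rpow (by positivity) hg1, Real.mul_rpow (by positivity) hg2, Real.mul_rpow hX hY,
      Real.mul_rpow hg1 (by positivity), ← Real.rpow_natCast X 4, ← Real.rpow_natCast Y 2,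
      ← Real.rpow_natCast g2 2, ← Real.rpow_mul hX, ← Real.rpow_mul hY, ← Real.rpow_mul hg2]
    have a1 : ((4:ℕ):ℝ) * (1 / 3) = 4 / 3 := by norm_num
    have a2 : ((2:ℕ):ℝ) * (2 / 3) = 4 / 3 := by norm_num
    have a3 : ((2:ℕ):ℝ) * (1 / 3) = 2 / 3 := by norm_num
    rw [a1, a2, a3]
    ring
  rw [e1] at h1
  have h2 : Real.exp (-8) ≤ (g1 * g2 ^ 2) ^ (1 / 3 : ℝ) := by
    have h3 : Real.exp (-8) = Real.exp (-24) ^ (1 / 3 : ℝ) := by
      rw [← Real.exp_mul]; congr 1; norm_num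
    rw [h3]
    exact Real.rpow_le_rpow (Real.exp_pos _).le h0 (by norm_num)
  have h4 : (X * Y) ^ (4 / 3 : ℝ) * Real.exp (-8) ≤ X ^ 4 * g1 + Y ^ 2 * g2 := by
    have h5 : (X * Y) ^ (4 / 3 : ℝ) * Real.exp (-8) ≤ (X * Y) ^ (4 / 3 : ℝ) * (g1 * g2 ^ 2) ^ (1 / 3 : ℝ) :=
      mul_le_mul_of_nonneg_left h2 (by positivity)
    have h6 : 0 ≤ X ^ 4 * g1 := by positivity
    have h7 : 0 ≤ Y ^ 2 * g2 := by positivity
    linarith
  calc (X * Y) ^ (4 / 3 : ℝ) = Real.exp 8 * ((X * Y) ^ (4 / 3 : ℝ) * Real.exp (-8)) := by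
        have : Real.exp 8 * Real.exp (-8) = 1 := by rw [← Real.exp_add]; simp
        calc _ = (X * Y) ^ (4 / 3 : ℝ) * (Real.exp 8 * Real.exp (-8)) := by rw [this, mul_one]
          _ = _ := by ring
    _ ≤ _ := mul_le_mul_of_nonneg_left h4 (Real.exp_pos _).le

lemma fs_cont' (k : ℕ) (c D : ℝ) : Continuous fun t : ℝ => fs k c D (cl t) := by
  have h : (fun t : ℝ => fs k c D (cl t)) = fun t =>
      ∑ m ∈ Icc 1 ⌊Real.exp (D + k * c)⌋₊, (mb k c D m : ℂ) * (m : ℂ) ^ (-(cl t)) := by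
    funext t; exact (fs_eq k c D t).symm
  rw [h]
  refine continuous_finsetSum _ fun m hm => continuous_const.mul ?_
  have hcl : Continuous cl := by unfold cl; fun_prop
  rw [mem_Icc] at hm
  exact Continuous.const_cpow (by fun_prop) (Or.inl (by exact_mod_cast (by omega : m ≠ 0)))

/-- the mollified mean value of exponent `4/3` -/
theorem MC (k : ℕ) (hk : 5 ≤ k) (η ε : ℝ) (hη : 0 < η) (hε : 0 < ε) : ∃ C : ℝ, 0 < C ∧
    ∀ᶠ T : ℝ in atTop, ∀ κ : ℕ, Rng T κ → ∀ D : ℝ, 0 ≤ D → D + η * Real.log T ≤ (1 - ε) * Real.log T →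
    IntegrableOn (fun t => om κ (κ / T) t *
      (‖riemannZeta (cl t)‖ * ‖fs k (η * Real.log T / k) D (cl t)‖) ^ (4 / 3 : ℝ)) (Set.Ioi 0) ∧
    ∫ t in Set.Ioi (0:ℝ), om κ (κ / T) t *
      (‖riemannZeta (cl t)‖ * ‖fs k (η * Real.log T / k) D (cl t)‖) ^ (4 / 3 : ℝ) ≤ C := by
  obtain ⟨c, hc0, hc⟩ := ranges
  obtain ⟨η1, hη1, hη18, hX⟩ := X42
  set β : ℝ := min (min (η1 / 640) (ε / 1280)) (1 / 640) with hβ
  have hβ0 : 0 < β := lt_min (lt_min (by positivity) (by positivity)) (by norm_num)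
  have hβ1 : β ≤ η1 / 640 := (min_le_left _ _).trans (min_le_left _ _)
  have hβ2 : β ≤ ε / 1280 := (min_le_left _ _).trans (min_le_right _ _)
  have hβ3 : β ≤ 1 / 640 := min_le_right _ _
  obtain ⟨CX, hCX, hX⟩ := hX c (1 / β)
  obtain ⟨CB, hCB, hB⟩ := XB k hk η ε hη hε c (1 / β)
  refine ⟨Real.exp 8 * (CX * (1 / β) * Real.exp c + CB), by positivity, ?_⟩
  filter_upwards [hX 1 le_rfl, hB 1 le_rfl, eventually_gt_atTop (3:ℝ),
    Real.tendsto_log_atTop.eventually_ge_atTop (max 1 (5 / β))] with T hX hB hT3 hLL κ hκ D hD0 hD1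
  set L := Real.log T with hLd
  have hL1 : 1 ≤ L := (le_max_left _ _).trans hLL
  have hL5 : 5 / β ≤ L := (le_max_right _ _).trans hLL
  have hLβ : 5 ≤ β * L := by rw [div_le_iff₀ hβ0] at hL5; linarith
  have hL0 : 0 < L := by linarith
  have hT0 : 0 < T := by linarith
  have hκ1 : 1 ≤ κ := by
    have h1 := hκ.1
    have h2 : (1:ℝ) ≤ Real.log T ^ 2 := one_le_pow₀ hL1
    have : (1:ℝ) ≤ κ := h2.trans h1
    exact_mod_cast this
  have hκ0 : (0:ℝ) < κ := by exact_mod_cast hκ1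
  have hδ : 0 < (κ:ℝ) / T := by positivity
  set y := Real.exp (β * L) with hy
  have hly : Real.log y = β * L := by rw [hy, Real.log_exp]
  have hy144 : 144 ≤ y := by
    have h1 : Real.exp 5 ≤ y := Real.exp_le_exp.mpr hLβ
    have e : Real.exp 5 = Real.exp 1 ^ 5 := by rw [← Real.exp_nat_mul]; norm_num
    have h2 : (2.71:ℝ) ≤ Real.exp 1 := by have := Real.exp_one_gt_d9; linarith
    have h3 : (144:ℝ) ≤ Real.exp 5 := by
      rw [e]
      calc (144:ℝ) ≤ 2.71 ^ 5 := by norm_num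
        _ ≤ _ := by gcongr
    linarith
  obtain ⟨J, hJ1, hJ2, hJ3, hJ4⟩ := hc y hy144
  have hBL : BL c y J := ⟨hc0, hy144, hJ1, hJ3, hJ4⟩
  have hA : L ≤ 1 / β * Real.log y := by rw [hly]; field_simp; exact le_rfl
  have h640 : 320 * (((1:ℕ):ℝ) + 1) * Real.log y = 640 * β * L := by rw [hly]; push_cast; ring
  obtain ⟨iX, bX⟩ := hX κ hκ y J hBL (by
    rw [h640]
    have : 640 * β ≤ η1 := by linarith
    exact mul_le_mul_of_nonneg_right this hL0.le) hA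
  have bB := hB κ hκ y D J hBL (by
    rw [h640]
    have : 640 * β ≤ ε / 2 := by linarith
    exact mul_le_mul_of_nonneg_right this hL0.le) (by
    rw [h640]
    have : 640 * β ≤ 1 := by linarith
    nlinarith) hA hD0 hD1
  have bX2 : ∫ t in Set.Ioi (0:ℝ), om κ (κ / T) t * (‖riemannZeta (cl t)‖ ^ 4 * gp J (-2) (RR 1) (II y) t) ≤
      CX * (1 / β) * Real.exp c := by
    refine bX.trans ?_
    have h1 := (abs_le.mp hJ4).1
    have h2 : Real.exp (-∑ i ∈ range J, vI (II y i)) ≤ Real.exp c / Real.log y := by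
      have hly0 : 0 < Real.log y := by rw [hly]; linarith
      rw [div_eq_mul_inv]
      have e : (Real.log y)⁻¹ = Real.exp (-Real.log (Real.log y)) := by rw [Real.exp_neg, Real.exp_log hly0]
      rw [e, ← Real.exp_add]
      exact Real.exp_le_exp.mpr (by linarith)
    calc CX * L * Real.exp (-∑ i ∈ range J, vI (II y i)) ≤ CX * L * (Real.exp c / Real.log y) := by gcongr
      _ = _ := by rw [hly]; field_simp
  set c0 := η * L / k with hc0'
  set F : ℝ → ℝ := fun t => (‖riemannZeta (cl t)‖ * ‖fs k c0 D (cl t)‖) ^ (4 / 3 : ℝ) with hF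
  have hzc : Continuous fun t : ℝ => riemannZeta (cl t) := Pool.Agent.H262R4.TM.TTW.zeta_cont
  have hFc : Continuous F :=
    ((hzc.norm).mul (fs_cont' k c0 D).norm).rpow_const (fun _ => Or.inr (by norm_num))
  have hF0 : ∀ t, 0 ≤ F t := fun t => by rw [hF]; positivity
  -- integrability of the second piece
  have hpr : ∀ i, ∀ p ∈ II y i, p.Prime := hBL.pr
  have iB : IntegrableOn (fun t => om κ (κ / T) t * (‖fs k c0 D (cl t)‖ ^ 2 * gp J 1 (RR 1) (II y) t)) (Set.Ioi 0) := by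
    have hc1 : Continuous fun t => ‖fs k c0 D (cl t)‖ ^ 2 * gp J 1 (RR 1) (II y) t :=
      ((fs_cont' k c0 D).norm.pow 2).mul (gp_cont hBL _ _)
    have hkp : (0:ℝ) < k := by exact_mod_cast (by omega : 0 < k)
    have hc0p : 0 < c0 := by positivity
    set M := ⌊Real.exp (D + k * c0)⌋₊ with hM
    have hfb : ∀ t, ‖fs k c0 D (cl t)‖ ≤ M := by
      intro t
      rw [← fs_eq]
      have h := DP_norm (f := fun n => (mb k c0 D n : ℂ)) (fun n _ => by
        rw [Complex.norm_real, Real.norm_eq_abs]; exact mb_abs hc0p n) M t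
      unfold DP at h
      exact h
    refine (om_int0 κ hδ).mul_bdd (c := (M:ℝ) ^ 2 * Real.exp (Real.log y * (320 * (((1:ℕ):ℝ) + 1))))
      hc1.aestronglyMeasurable (Eventually.of_forall fun t => ?_)
    have hg0 := gp_nonneg J 1 (RR 1) (II y) t
    rw [Real.norm_eq_abs, abs_of_nonneg (by positivity)]
    have h1 := gp_le hBL le_rfl (a := 1) (by norm_num) t
    have h2 : ‖fs k c0 D (cl t)‖ ^ 2 ≤ (M:ℝ) ^ 2 := pow_le_pow_left₀ (norm_nonneg _) (hfb t) 2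
    exact mul_le_mul h2 h1 hg0 (by positivity)
  have iS : IntegrableOn (fun t => Real.exp 8 * (om κ (κ / T) t * (‖riemannZeta (cl t)‖ ^ 4 * gp J (-2) (RR 1) (II y) t) +
      om κ (κ / T) t * (‖fs k c0 D (cl t)‖ ^ 2 * gp J 1 (RR 1) (II y) t))) (Set.Ioi 0) :=
    (iX.add iB).const_mul _
  have hpt : ∀ t ∈ Set.Ioi (0:ℝ), om κ (κ / T) t * F t ≤
      Real.exp 8 * (om κ (κ / T) t * (‖riemannZeta (cl t)‖ ^ 4 * gp J (-2) (RR 1) (II y) t) +
      om κ (κ / T) t * (‖fs k c0 D (cl t)‖ ^ 2 * gp J 1 (RR 1) (II y) t)) := by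
    intro t ht
    have h1 := hoelder43 (J := J) (Rs := 1) le_rfl (II y) t (norm_nonneg (riemannZeta (cl t)))
      (norm_nonneg (fs k c0 D (cl t)))
    have h2 := mul_le_mul_of_nonneg_left h1 (om_nn κ hδ (le_of_lt ht))
    refine h2.trans (le_of_eq ?_)
    ring
  have iF : IntegrableOn (fun t => om κ (κ / T) t * F t) (Set.Ioi 0) := by
    refine iS.mono' ((Pool.Agent.H262R4.TM.TTW.om_cont κ _).mul hFc).aestronglyMeasurable ?_
    refine (ae_restrict_iff' measurableSet_Ioi).mpr (Eventually.of_forall fun t ht => ?_)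
    rw [Real.norm_eq_abs, abs_of_nonneg (mul_nonneg (om_nn κ hδ (le_of_lt ht)) (hF0 t))]
    exact hpt t ht
  refine ⟨iF, ?_⟩
  calc ∫ t in Set.Ioi (0:ℝ), om κ (κ / T) t * F t ≤ ∫ t in Set.Ioi (0:ℝ),
      Real.exp 8 * (om κ (κ / T) t * (‖riemannZeta (cl t)‖ ^ 4 * gp J (-2) (RR 1) (II y) t) +
      om κ (κ / T) t * (‖fs k c0 D (cl t)‖ ^ 2 * gp J 1 (RR 1) (II y) t)) :=
        setIntegral_mono_on iF iS measurableSet_Ioi hpt
    _ = Real.exp 8 * ((∫ t in Set.Ioi (0:ℝ), om κ (κ / T) t * (‖riemannZeta (cl t)‖ ^ 4 * gp J (-2) (RR 1) (II y) t)) +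
        ∫ t in Set.Ioi (0:ℝ), om κ (κ / T) t * (‖fs k c0 D (cl t)‖ ^ 2 * gp J 1 (RR 1) (II y) t)) := by
        rw [integral_const_mul]
        congr 1
        exact integral_add iX iB
    _ ≤ _ := mul_le_mul_of_nonneg_left (add_le_add bX2 bB) (Real.exp_pos _).le

end

end Pool.Agent.Y24
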