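import Mathlib

set_option autoImplicit false

/-!
Convexity of the mean values of exponent `p > 1` of an analytic function on the vertical lines of a strip.
-/

namespace Pool.Agent.Y24

open Filter MeasureTheory Complex Topology Set

noncomputable section

lemma shift_le {u v : ℝ} (h : |u - v| ≤ 1) : 1 / (1 + u ^ 2) ≤ 3 / (1 + v ^ 2) := by
  rw [div_le_div_iff₀ (by positivity) (by positivity)]
  obtain ⟨h1, h2⟩ := abs_le.mp h
  nlinarith [sq_nonneg (u + (u - v)), sq_nonneg (2 * u - v)]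

lemma int_shift (τ : ℝ) : Integrable (fun y : ℝ => 1 / (1 + (τ + y) ^ 2)) := by
  have h := integrable_inv_one_add_sq
  have h2 := h.comp_add_left τ
  refine h2.congr (Eventually.of_forall fun y => ?_)
  simp [one_div]

/-- the strip data -/
structure SD (g : ℂ → ℂ) (a b r C : ℝ) : Prop where
  r0 : 0 < r
  r1 : r ≤ 1
  C0 : 0 ≤ C
  df : ∀ z : ℂ, a - 2 * r < z.re → z.re < b + 2 * r → DifferentiableAt ℂ g z
  dec : ∀ z : ℂ, a - 2 * r < z.re → z.re < b + 2 * r → ‖g z‖ ≤ C * (1 / (1 + z.im ^ 2))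

variable {g : ℂ → ℂ} {a b r C : ℝ}

lemma SD.deriv_le (h : SD g a b r C) {z : ℂ} (h1 : a - r < z.re) (h2 : z.re < b + r) :
    ‖deriv g z‖ ≤ 3 * C / r * (1 / (1 + z.im ^ 2)) := by
  have hr := h.r0
  have hball : ∀ w ∈ Metric.closedBall z r, a - 2 * r < w.re ∧ w.re < b + 2 * r ∧ |w.im - z.im| ≤ 1 := by
    intro w hw
    rw [mem_closedBall_iff_norm] at hw
    have e1 := (Complex.abs_re_le_norm (w - z)).trans hw
    have e2 := (Complex.abs_im_le_norm (w - z)).trans hw
    rw [Complex.sub_re] at e1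
    rw [Complex.sub_im] at e2
    obtain ⟨e3, e4⟩ := abs_le.mp e1
    exact ⟨by linarith, by linarith, e2.trans h.r1⟩
  have hd : DifferentiableOn ℂ g (Metric.closedBall z r) := fun w hw =>
    (h.df w (hball w hw).1 (hball w hw).2.1).differentiableWithinAt
  have hb : ∀ w ∈ Metric.sphere z r, ‖g w‖ ≤ C * (3 / (1 + z.im ^ 2)) := by
    intro w hw
    obtain ⟨a1, a2, a3⟩ := hball w (Metric.sphere_subset_closedBall hw)
    refine (h.dec w a1 a2).trans (mul_le_mul_of_nonneg_left (shift_le a3) h.C0)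
  have := Complex.norm_deriv_le_of_forall_mem_sphere_norm_le hr
    ((hd.mono (closure_minimal Metric.ball_subset_closedBall Metric.isClosed_closedBall)).diffContOnCl) hb
  refine this.trans (le_of_eq ?_)
  field_simp

/-- the convolution -/
def Cv (g : ℂ → ℂ) (ψ : ℝ → ℂ) (z : ℂ) : ℂ := ∫ y : ℝ, g (z + (y : ℂ) * I) * ψ y

lemma SD.line_cont (h : SD g a b r C) {z : ℂ} (h1 : a - 2 * r < z.re) (h2 : z.re < b + 2 * r) :
    Continuous fun y : ℝ => g (z + (y : ℂ) * I) := by
  refine continuous_iff_continuousAt.mpr fun y => ?_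
  have hd := (h.df (z + (y : ℂ) * I) (by simpa using h1) (by simpa using h2)).continuousAt
  exact ContinuousAt.comp (f := fun y : ℝ => z + (y : ℂ) * I) hd (by fun_prop)

lemma SD.int (h : SD g a b r C) {ψ : ℝ → ℂ} (hψm : AEStronglyMeasurable ψ volume) {K : ℝ} (hK : ∀ y, ‖ψ y‖ ≤ K)
    {z : ℂ} (h1 : a - 2 * r < z.re) (h2 : z.re < b + 2 * r) :
    Integrable (fun y : ℝ => g (z + (y : ℂ) * I) * ψ y) := by
  have hi := ((int_shift z.im).const_mul C).mul_const K
  refine hi.mono' ((h.line_cont h1 h2).aestronglyMeasurable.mul hψm) (Eventually.of_forall fun y => ?_)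
  rw [norm_mul]
  have h3 := h.dec (z + (y : ℂ) * I) (by simpa using h1) (by simpa using h2)
  have e : (z + (y : ℂ) * I).im = z.im + y := by simp
  rw [e] at h3
  have hK0 : 0 ≤ K := (norm_nonneg _).trans (hK 0)
  have hC := h.C0
  exact mul_le_mul h3 (hK y) (norm_nonneg _) (by positivity)

lemma SD.hasDeriv (h : SD g a b r C) {ψ : ℝ → ℂ} (hψm : AEStronglyMeasurable ψ volume) {K : ℝ} (hK : ∀ y, ‖ψ y‖ ≤ K)
    {z : ℂ} (h1 : a - r < z.re) (h2 : z.re < b + r) :
    DifferentiableAt ℂ (Cv g ψ) z := by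
  have hr := h.r0
  have hC := h.C0
  have hK0 : 0 ≤ K := (norm_nonneg _).trans (hK 0)
  set s : Set ℂ := {w : ℂ | a - r < w.re ∧ w.re < b + r ∧ |w.im - z.im| < 1} with hs
  have hso : IsOpen s := by
    refine IsOpen.and (isOpen_lt continuous_const Complex.continuous_re)
      (IsOpen.and (isOpen_lt Complex.continuous_re continuous_const)
        (isOpen_lt (by fun_prop) continuous_const))
  have hzs : z ∈ s := ⟨h1, h2, by simp⟩
  have key := hasDerivAt_integral_of_dominated_loc_of_deriv_le (μ := (volume : Measure ℝ)) (𝕜 := ℂ)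
    (F := fun (w : ℂ) (y : ℝ) => g (w + (y : ℂ) * I) * ψ y)
    (F' := fun (w : ℂ) (y : ℝ) => deriv g (w + (y : ℂ) * I) * ψ y) (x₀ := z) (s := s)
    (bound := fun y : ℝ => (3 * C / r) * (3 * (1 / (1 + (z.im + y) ^ 2))) * K) (hso.mem_nhds hzs)
    (by
      filter_upwards [hso.mem_nhds hzs] with w hw
      exact (h.line_cont (by linarith [hw.1]) (by linarith [hw.2.1])).aestronglyMeasurable.mul hψm)
    (h.int hψm hK (by linarith) (by linarith))
    (by
      refine AEStronglyMeasurable.mul ?_ hψm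
      have hm : Measurable fun y : ℝ => deriv g (z + (y : ℂ) * I) :=
        (measurable_deriv g).comp (by fun_prop)
      exact hm.aestronglyMeasurable)
    (Eventually.of_forall fun y w hw => by
      rw [norm_mul]
      have h3 := h.deriv_le (z := w + (y : ℂ) * I) (by simpa using hw.1) (by simpa using hw.2.1)
      have e : (w + (y : ℂ) * I).im = w.im + y := by simp
      rw [e] at h3
      have h4 : 1 / (1 + (w.im + y) ^ 2) ≤ 3 * (1 / (1 + (z.im + y) ^ 2)) := by
        have := shift_le (u := w.im + y) (v := z.im + y) (by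
          have : w.im + y - (z.im + y) = w.im - z.im := by ring
          rw [this]; exact hw.2.2.le)
        rw [mul_one_div]; exact this
      have h5 : 0 ≤ 3 * C / r := by positivity
      calc ‖deriv g (w + (y : ℂ) * I)‖ * ‖ψ y‖ ≤ (3 * C / r * (1 / (1 + (w.im + y) ^ 2))) * K :=
            mul_le_mul h3 (hK y) (norm_nonneg _) (by positivity)
        _ ≤ _ := by gcongr)
    (by
      exact ((((int_shift z.im).const_mul 3).const_mul (3 * C / r)).mul_const K))
    (Eventually.of_forall fun y w hw => by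
      have h3 := (h.df (w + (y : ℂ) * I) (by simp; linarith [hw.1]) (by simp; linarith [hw.2.1])).hasDerivAt
      have h4 : HasDerivAt (fun w : ℂ => w + (y : ℂ) * I) 1 w := (hasDerivAt_id w).add_const _
      have h5 := HasDerivAt.comp w h3 h4
      rw [mul_one] at h5
      exact h5.mul_const _)
  exact key.2.differentiableAt

/-- convexity of the mean values -/
theorem conv_lp (h : SD g a b r C) {p : ℝ} (hp : 1 < p) {σ : ℝ} (hab : a < b) (ha : a ≤ σ) (hb : σ ≤ b) {A B : ℝ}
    (hA : ∫ y : ℝ, ‖g ((a : ℂ) + (y : ℂ) * I)‖ ^ p ≤ A) (hB : ∫ y : ℝ, ‖g ((b : ℂ) + (y : ℂ) * I)‖ ^ p ≤ B) :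
    ∫ y : ℝ, ‖g ((σ : ℂ) + (y : ℂ) * I)‖ ^ p ≤ A ^ (1 - (σ - a) / (b - a)) * B ^ ((σ - a) / (b - a)) := by
  have hr := h.r0
  have hC := h.C0
  have hp0 : 0 < p := by linarith
  set θ := (σ - a) / (b - a) with hθ
  have hθ0 : 0 ≤ θ := div_nonneg (by linarith) (by linarith)
  have hθ1 : θ ≤ 1 := by rw [hθ, div_le_one (by linarith)]; linarith
  set q : ℝ := p / (p - 1) with hq
  have hpq : p.HolderConjugate q := Real.HolderConjugate.conjExponent hp
  have hq0 : 0 < q := hpq.symm.pos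
  -- lines
  have hline : ∀ x : ℝ, a ≤ x → x ≤ b → Continuous fun y : ℝ => g ((x : ℂ) + (y : ℂ) * I) := fun x h1 h2 =>
    h.line_cont (by simp; linarith) (by simp; linarith)
  have hdec : ∀ x : ℝ, a ≤ x → x ≤ b → ∀ y : ℝ, ‖g ((x : ℂ) + (y : ℂ) * I)‖ ≤ C * (1 / (1 + y ^ 2)) := by
    intro x h1 h2 y
    have := h.dec ((x : ℂ) + (y : ℂ) * I) (by simp; linarith) (by simp; linarith)
    simpa using this
  have hintp : ∀ x : ℝ, a ≤ x → x ≤ b → Integrable fun y : ℝ => ‖g ((x : ℂ) + (y : ℂ) * I)‖ ^ p := by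
    intro x h1 h2
    have hi : Integrable fun y : ℝ => C ^ p * (1 / (1 + (0 + y) ^ 2)) := (int_shift 0).const_mul _
    refine hi.mono' (((hline x h1 h2).norm.rpow_const fun _ => Or.inr hp0.le).aestronglyMeasurable)
      (Eventually.of_forall fun y => ?_)
    rw [Real.norm_eq_abs, abs_of_nonneg (by positivity), zero_add]
    have h3 : 0 ≤ 1 / (1 + y ^ 2) := by positivity
    have h4 : 1 / (1 + y ^ 2) ≤ 1 := by rw [div_le_one (by positivity)]; nlinarith [sq_nonneg y]
    calc ‖g ((x : ℂ) + (y : ℂ) * I)‖ ^ p ≤ (C * (1 / (1 + y ^ 2))) ^ p :=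
          Real.rpow_le_rpow (norm_nonneg _) (hdec x h1 h2 y) hp0.le
      _ = C ^ p * (1 / (1 + y ^ 2)) ^ p := Real.mul_rpow hC h3
      _ ≤ C ^ p * (1 / (1 + y ^ 2)) := by
          refine mul_le_mul_of_nonneg_left ?_ (by positivity)
          exact Real.rpow_le_self_of_le_one h3 h4 hp.le
  set N := ∫ y : ℝ, ‖g ((σ : ℂ) + (y : ℂ) * I)‖ ^ p with hN
  have hN0 : 0 ≤ N := integral_nonneg fun y => by positivity
  have hA0 : 0 ≤ A := (integral_nonneg fun y => by positivity).trans hA
  have hB0 : 0 ≤ B := (integral_nonneg fun y => by positivity).trans hB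
  rcases hN0.eq_or_lt with hN1 | hN1
  · rw [← hN1]; positivity
  -- the dual function
  set ψ : ℝ → ℂ := fun y => (starRingEnd ℂ) (g ((σ : ℂ) + (y : ℂ) * I)) *
    ((‖g ((σ : ℂ) + (y : ℂ) * I)‖ ^ (p - 2) : ℝ) : ℂ) with hψ
  have hσc := hline σ ha hb
  have hψn : ∀ y, ‖ψ y‖ = ‖g ((σ : ℂ) + (y : ℂ) * I)‖ ^ (p - 1) := by
    intro y
    rw [hψ]; simp only
    rw [norm_mul, Complex.norm_conj, Complex.norm_real, Real.norm_eq_abs, abs_of_nonneg (by positivity)]
    rcases (norm_nonneg (g ((σ : ℂ) + (y : ℂ) * I))).eq_or_lt with h0 | h0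
    · rw [← h0, zero_mul, Real.zero_rpow (by linarith)]
    · rw [← Real.rpow_one_add' h0.le (by linarith)]
      congr 1; ring
  have hψm : AEStronglyMeasurable ψ volume := by
    have h1 : Measurable fun y : ℝ => ‖g ((σ : ℂ) + (y : ℂ) * I)‖ ^ (p - 2) :=
      (hσc.norm.measurable).pow_const _
    have h2 : Measurable ψ := (Complex.continuous_conj.comp hσc).measurable.mul (Complex.measurable_ofReal.comp h1)
    exact h2.aestronglyMeasurable
  have hψK : ∀ y, ‖ψ y‖ ≤ C ^ (p - 1) := by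
    intro y
    rw [hψn]
    refine Real.rpow_le_rpow (norm_nonneg _) ((hdec σ ha hb y).trans ?_) (by linarith)
    have h4 : 1 / (1 + y ^ 2) ≤ 1 := by rw [div_le_one (by positivity)]; nlinarith [sq_nonneg y]
    exact mul_le_of_le_one_right hC h4
  have hψq : ∀ y, ‖ψ y‖ ^ q = ‖g ((σ : ℂ) + (y : ℂ) * I)‖ ^ p := by
    intro y
    rw [hψn, ← Real.rpow_mul (norm_nonneg _)]
    congr 1
    rw [hq]
    have : p - 1 ≠ 0 := by linarith
    field_simp
  set Φ : ℂ → ℂ := Cv g ψ with hΦ
  have hΦσ : Φ σ = (N : ℂ) := by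
    rw [hΦ]; unfold Cv
    rw [hN, ← integral_complex_ofReal]
    refine integral_congr_ae (Eventually.of_forall fun y => ?_)
    simp only [hψ]
    rw [← mul_assoc, Complex.mul_conj, Complex.normSq_eq_norm_sq, ← Complex.ofReal_mul]
    congr 1
    rcases (norm_nonneg (g ((σ : ℂ) + (y : ℂ) * I))).eq_or_lt with h0 | h0
    · rw [← h0, Real.zero_rpow (by linarith : p ≠ 0)]; simp
    · rw [← Real.rpow_natCast, ← Real.rpow_add h0]
      congr 1; push_cast; ring
  have hΦd : ∀ z : ℂ, a - r < z.re → z.re < b + r → DifferentiableAt ℂ Φ z := fun z h1 h2 =>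
    h.hasDeriv hψm hψK h1 h2
  -- Hoelder on a line
  have hmemψ : MemLp (fun y => ‖ψ y‖) (ENNReal.ofReal q) volume := by
    have hm : AEStronglyMeasurable (fun y => ‖ψ y‖) volume := hψm.norm
    rw [← integrable_norm_rpow_iff hm (by simpa using hq0) ENNReal.ofReal_ne_top]
    rw [ENNReal.toReal_ofReal hq0.le]
    simp only [norm_norm]
    simp_rw [hψq]
    exact hintp σ ha hb
  have hhold : ∀ x : ℝ, a ≤ x → x ≤ b → ∀ τ : ℝ, ‖Φ ((x : ℂ) + (τ : ℂ) * I)‖ ≤
      (∫ y : ℝ, ‖g ((x : ℂ) + (y : ℂ) * I)‖ ^ p) ^ (1 / p) * N ^ (1 / q) := by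
    intro x h1 h2 τ
    have e0 : ∀ y : ℝ, ((x : ℂ) + (τ : ℂ) * I) + (y : ℂ) * I = (x : ℂ) + ((τ + y : ℝ) : ℂ) * I := by
      intro y; push_cast; ring
    have hm1 : MemLp (fun y : ℝ => ‖g ((x : ℂ) + ((τ + y : ℝ) : ℂ) * I)‖) (ENNReal.ofReal p) volume := by
      have hc : Continuous fun y : ℝ => ‖g ((x : ℂ) + ((τ + y : ℝ) : ℂ) * I)‖ :=
        ((hline x h1 h2).comp (by fun_prop : Continuous fun y : ℝ => τ + y)).norm
      rw [← integrable_norm_rpow_iff hc.aestronglyMeasurable (by simpa using hp0) ENNReal.ofReal_ne_top]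
      rw [ENNReal.toReal_ofReal hp0.le]
      simp only [norm_norm]
      exact (hintp x h1 h2).comp_add_left τ
    have h3 := integral_mul_le_Lp_mul_Lq_of_nonneg hpq (μ := volume)
      (f := fun y : ℝ => ‖g ((x : ℂ) + ((τ + y : ℝ) : ℂ) * I)‖) (g := fun y => ‖ψ y‖)
      (Eventually.of_forall fun _ => norm_nonneg _) (Eventually.of_forall fun _ => norm_nonneg _) hm1 hmemψ
    have h4 : ∫ y : ℝ, ‖g ((x : ℂ) + ((τ + y : ℝ) : ℂ) * I)‖ ^ p = ∫ y : ℝ, ‖g ((x : ℂ) + (y : ℂ) * I)‖ ^ p :=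
      integral_add_left_eq_self (fun y : ℝ => ‖g ((x : ℂ) + (y : ℂ) * I)‖ ^ p) τ
    have h5 : ∫ y : ℝ, ‖ψ y‖ ^ q = N := by
      rw [hN]; simp_rw [hψq]
    rw [h4, h5] at h3
    rw [hΦ]; unfold Cv
    refine (norm_integral_le_integral_norm _).trans (le_trans (le_of_eq ?_) h3)
    refine integral_congr_ae (Eventually.of_forall fun y => ?_)
    simp only
    rw [norm_mul, e0]
  -- three lines
  have hmono : ∀ x y : ℝ, 0 ≤ x → x ≤ y → x ^ (1 / p) * N ^ (1 / q) ≤ y ^ (1 / p) * N ^ (1 / q) := by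
    intro x y h1 h2
    exact mul_le_mul_of_nonneg_right (Real.rpow_le_rpow h1 h2 (by positivity)) (by positivity)
  have eform : ∀ z : ℂ, z = (z.re : ℂ) + (z.im : ℂ) * I := fun z => (Complex.re_add_im z).symm
  have h3l := Complex.HadamardThreeLines.norm_le_interp_of_mem_verticalClosedStrip' (f := Φ) (z := (σ : ℂ))
    (a := A ^ (1 / p) * N ^ (1 / q)) (b := B ^ (1 / p) * N ^ (1 / q)) (l := a) (u := b) hab
    (by simp [Complex.HadamardThreeLines.verticalClosedStrip, ha, hb])
    (by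
      constructor
      · intro z hz
        simp only [Complex.HadamardThreeLines.verticalStrip, mem_preimage, mem_Ioo] at hz
        exact (hΦd z (by linarith [hz.1]) (by linarith [hz.2])).differentiableWithinAt
      · have hcl : closure (Complex.HadamardThreeLines.verticalStrip a b) ⊆
            Complex.HadamardThreeLines.verticalClosedStrip a b := by
          refine closure_minimal ?_ (isClosed_Icc.preimage Complex.continuous_re)
          intro z hz
          exact Ioo_subset_Icc_self hz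
        intro z hz
        have hz' := hcl hz
        simp only [Complex.HadamardThreeLines.verticalClosedStrip, mem_preimage, mem_Icc] at hz'
        exact (hΦd z (by linarith [hz'.1]) (by linarith [hz'.2])).continuousAt.continuousWithinAt)
    (by
      -- bounded
      refine ⟨(∫ y : ℝ, C * (1 / (1 + (0 + y) ^ 2)) * C ^ (p - 1)), ?_⟩
      rintro _ ⟨z, hz, rfl⟩
      simp only [Complex.HadamardThreeLines.verticalClosedStrip, mem_preimage, mem_Icc] at hz
      simp only [Function.comp]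
      rw [hΦ]; unfold Cv
      have hi : Integrable fun y : ℝ => C * (1 / (1 + (z.im + y) ^ 2)) * C ^ (p - 1) :=
        ((int_shift z.im).const_mul C).mul_const _
      refine (norm_integral_le_of_norm_le hi (Eventually.of_forall fun y => ?_)).trans (le_of_eq ?_)
      · rw [norm_mul]
        have h3 := h.dec (z + (y : ℂ) * I) (by simp; linarith [hz.1]) (by simp; linarith [hz.2])
        have e : (z + (y : ℂ) * I).im = z.im + y := by simp
        rw [e] at h3
        exact mul_le_mul h3 (hψK y) (norm_nonneg _) (by positivity)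
      · have e1 := integral_add_left_eq_self (fun y : ℝ => C * (1 / (1 + y ^ 2)) * C ^ (p - 1)) z.im (μ := volume)
        have e2 := integral_add_left_eq_self (fun y : ℝ => C * (1 / (1 + y ^ 2)) * C ^ (p - 1)) 0 (μ := volume)
        rw [e1, ← e2])
    (by
      intro z hz
      simp only [mem_preimage, mem_singleton_iff] at hz
      have h4 := hhold a le_rfl hab.le z.im
      have e : (a : ℂ) + (z.im : ℂ) * I = z := by rw [← hz]; exact Complex.re_add_im z
      rw [e] at h4
      exact h4.trans (hmono _ _ (integral_nonneg fun y => by positivity) hA))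
    (by
      intro z hz
      simp only [mem_preimage, mem_singleton_iff] at hz
      have h4 := hhold b hab.le le_rfl z.im
      have e : (b : ℂ) + (z.im : ℂ) * I = z := by rw [← hz]; exact Complex.re_add_im z
      rw [e] at h4
      exact h4.trans (hmono _ _ (integral_nonneg fun y => by positivity) hB))
  rw [hΦσ, Complex.norm_real, Real.norm_eq_abs, abs_of_pos hN1, Complex.ofReal_re, ← hθ] at h3l
  -- conclude
  have e1 : (A ^ (1 / p) * N ^ (1 / q)) ^ (1 - θ) * (B ^ (1 / p) * N ^ (1 / q)) ^ θ =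
      (A ^ (1 - θ) * B ^ θ) ^ (1 / p) * N ^ (1 / q) := by
    have hAp : 0 ≤ A ^ (1 / p) := by positivity
    have hBp : 0 ≤ B ^ (1 / p) := by positivity
    have hNq : 0 < N ^ (1 / q) := by positivity
    rw [Real.mul_rpow hAp hNq.le, Real.mul_rpow hBp hNq.le, Real.mul_rpow (by positivity) (by positivity),
      ← Real.rpow_mul hA0, ← Real.rpow_mul hB0, ← Real.rpow_mul hA0, ← Real.rpow_mul hB0,
      mul_comm (1 / p) (1 - θ), mul_comm (1 / p) θ]
    have e2 : (N ^ (1 / q)) ^ (1 - θ) * (N ^ (1 / q)) ^ θ = N ^ (1 / q) := by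
      rw [← Real.rpow_add hNq]; simp
    calc _ = A ^ ((1 - θ) * (1 / p)) * B ^ (θ * (1 / p)) * ((N ^ (1 / q)) ^ (1 - θ) * (N ^ (1 / q)) ^ θ) := by ring
      _ = _ := by rw [e2]
  rw [e1] at h3l
  have h5 : N = N ^ (1 / p) * N ^ (1 / q) := by
    rw [← Real.rpow_add hN1]
    have : 1 / p + 1 / q = 1 := by
      have := hpq.inv_add_inv_eq_one
      rw [one_div, one_div]; exact this
    rw [this, Real.rpow_one]
  have h6 : N ^ (1 / p) ≤ (A ^ (1 - θ) * B ^ θ) ^ (1 / p) := by
    have hNq : 0 < N ^ (1 / q) := by positivity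
    have h7 : N ^ (1 / p) * N ^ (1 / q) ≤ (A ^ (1 - θ) * B ^ θ) ^ (1 / p) * N ^ (1 / q) := by
      rw [← h5]; exact h3l
    exact le_of_mul_le_mul_right h7 hNq
  exact (Real.rpow_le_rpow_iff hN0 (by positivity) (by positivity)).mp h6

end

end Pool.Agent.Y24
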