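import Pool.Agent.Y24.C1
import Pool.Agent.Y24.D1
import Pool.Agent.H448R2.GC.X2
import Pool.Agent.H448R2.GC.F0
import Pool.Agent.H448R2.GC.MV
import Pool.Agent.H448R2.GC.K1

set_option autoImplicit false

/-!
The functions to which convexity is applied: bounds at a point.
-/

namespace Pool.Agent.Y24

open Finset Filter MeasureTheory Complex
open Pool.Agent.H306R2.SM (om cl Yf)
open Pool.Agent.H262R4.TM (Rng Ck)
open Pool.Agent.H448R2.GC (cu fs cu_nonneg cu_le_one cu_one cu_zero)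

noncomputable section

lemma fact_le {n : ℕ} (hn : 1 ≤ n) :
    (n.factorial : ℝ) ≤ Real.exp 1 * Real.sqrt n * ((n : ℝ) / Real.exp 1) ^ n := by
  obtain ⟨m, rfl⟩ : ∃ m, n = m + 1 := ⟨n - 1, by omega⟩
  have h := Stirling.stirlingSeq'_antitone (Nat.zero_le m)
  have h0 : (Stirling.stirlingSeq ∘ Nat.succ) 0 = Real.exp 1 / Real.sqrt 2 := by
    simp [Stirling.stirlingSeq_one]
  rw [h0] at h
  have h1 : (Stirling.stirlingSeq ∘ Nat.succ) m = ((m + 1).factorial : ℝ) /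
      (Real.sqrt (2 * ((m + 1 : ℕ) : ℝ)) * (((m + 1 : ℕ) : ℝ) / Real.exp 1) ^ (m + 1)) := rfl
  rw [h1, div_le_iff₀ (by positivity)] at h
  refine h.trans (le_of_eq ?_)
  rw [Real.sqrt_mul (by norm_num)]
  have : Real.sqrt 2 ≠ 0 := by positivity
  field_simp

lemma log_lb {x : ℝ} (hx : 1 / 2 ≤ x) : -(2 * (x - 1) ^ 2) ≤ Real.log x - x + 1 := by
  have hx0 : 0 < x := by linarith
  have h := Real.one_sub_inv_le_log_of_pos hx0
  have h2 : (1 - x⁻¹) - x + 1 = -((x - 1) ^ 2 / x) := by field_simp; ring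
  have h3 : (x - 1) ^ 2 / x ≤ 2 * (x - 1) ^ 2 := by
    rw [div_le_iff₀ hx0]
    nlinarith [sq_nonneg (x - 1)]
  linarith

lemma om_lb {κ : ℕ} (hκ : 1 ≤ κ) {T t : ℝ} (hT : 0 < T) (ht : T / 2 ≤ t) :
    Real.sqrt κ / (Real.exp 1 * T) * Real.exp (-(2 * κ * ((t - T) / T) ^ 2)) ≤ om κ (κ / T) t := by
  have hκ0 : (0:ℝ) < κ := by exact_mod_cast hκ
  set x := t / T with hx
  have hxT : t = x * T := by rw [hx]; field_simp
  have hx2 : 1 / 2 ≤ x := by rw [hx, le_div_iff₀ hT]; linarith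
  have hx0 : 0 < x := by linarith
  have h1 : om κ (κ / T) t = (κ / T) * ((κ : ℝ) ^ κ * x ^ κ * Real.exp (-(κ * x))) / κ.factorial := by
    unfold Pool.Agent.H306R2.SM.om
    rw [hxT]
    have e1 : (κ : ℝ) / T * (x * T) = κ * x := by field_simp
    rw [e1, pow_succ, mul_pow, div_pow]
    field_simp
  rw [h1]
  have h2 := fact_le hκ
  have h3 : (κ / T) * ((κ : ℝ) ^ κ * x ^ κ * Real.exp (-(κ * x))) /
      (Real.exp 1 * Real.sqrt κ * ((κ : ℝ) / Real.exp 1) ^ κ) ≤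
      (κ / T) * ((κ : ℝ) ^ κ * x ^ κ * Real.exp (-(κ * x))) / κ.factorial := by
    apply div_le_div_of_nonneg_left (by positivity) (by positivity) h2
  refine le_trans ?_ h3
  have e2 : (κ / T) * ((κ : ℝ) ^ κ * x ^ κ * Real.exp (-(κ * x))) /
      (Real.exp 1 * Real.sqrt κ * ((κ : ℝ) / Real.exp 1) ^ κ) =
      Real.sqrt κ / (Real.exp 1 * T) * Real.exp (κ * (Real.log x - x + 1)) := by
    have e3 : Real.exp (κ * (Real.log x - x + 1)) = x ^ κ * Real.exp (-(κ * x)) * Real.exp 1 ^ κ := by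
      have : (κ:ℝ) * (Real.log x - x + 1) = κ * Real.log x + (-(κ * x)) + κ * 1 := by ring
      rw [this, Real.exp_add, Real.exp_add, Real.exp_nat_mul, Real.exp_nat_mul, Real.exp_log hx0]
    rw [e3, div_pow (κ:ℝ) (Real.exp 1)]
    have e4 : (κ : ℝ) = Real.sqrt κ * Real.sqrt κ := (Real.mul_self_sqrt hκ0.le).symm
    have hs : Real.sqrt κ ≠ 0 := by positivity
    have e5 : (κ:ℝ) / Real.sqrt κ = Real.sqrt κ := by
      rw [div_eq_iff hs]; exact e4
    calc (κ / T) * ((κ : ℝ) ^ κ * x ^ κ * Real.exp (-(κ * x))) /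
        (Real.exp 1 * Real.sqrt κ * ((κ : ℝ) ^ κ / Real.exp 1 ^ κ)) =
        ((κ:ℝ) / Real.sqrt κ) / (Real.exp 1 * T) * (x ^ κ * Real.exp (-(κ * x)) * Real.exp 1 ^ κ) := by
          field_simp
      _ = _ := by rw [e5]
  rw [e2]
  apply mul_le_mul_of_nonneg_left _ (by positivity)
  apply Real.exp_le_exp.mpr
  have h4 := log_lb hx2
  have h5 : (t - T) / T = x - 1 := by rw [hx]; field_simp
  rw [h5]
  nlinarith

/-- the entire function `(w-1) ζ(w)` -/
def Z1 : ℂ → ℂ := Function.update (fun w : ℂ => (w - 1) * riemannZeta w) 1 1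

lemma Z1_ne {w : ℂ} (hw : w ≠ 1) : Z1 w = (w - 1) * riemannZeta w := by
  unfold Z1
  rw [Function.update_of_ne hw]

lemma Z1_diff : Differentiable ℂ Z1 := Pool.Agent.H448R2.GC.zeta_one_entire

/-- growth in a right half plane, horizontally bounded -/
lemma Z1_growth (A : ℝ) : ∃ (C : ℝ) (B : ℕ), 0 < C ∧ ∀ w : ℂ, 0 ≤ w.re → w.re ≤ A →
    ‖Z1 w‖ ≤ C * (1 + |w.im|) ^ B := by
  obtain ⟨C, B, hC, h⟩ := Pool.Agent.H448R2.GC.zeta_one_growth 0
  obtain ⟨C2, hC2, h2⟩ := Pool.Agent.H448R2.GC.X1.zeta_bdd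
  refine ⟨C + (|A| + 2) * C2, B + 1, by positivity, fun w h0 hA => ?_⟩
  have him : 0 ≤ |w.im| := abs_nonneg _
  have h1 : (1:ℝ) ≤ 1 + |w.im| := by linarith
  rcases le_or_gt w.re 3 with h3 | h3
  · have := h w (by simpa using h0) h3
    calc ‖Z1 w‖ ≤ C * (1 + |w.im|) ^ B := this
      _ ≤ (C + (|A| + 2) * C2) * (1 + |w.im|) ^ (B + 1) := by
        gcongr
        · have : 0 ≤ (|A| + 2) * C2 := by positivity
          linarith
        · omega
  · have hne : w ≠ 1 := by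
      intro h; rw [h] at h3; norm_num at h3
    rw [Z1_ne hne, norm_mul]
    have e1 : ‖w - 1‖ ≤ (|A| + 2) * (1 + |w.im|) := by
      have a1 := Complex.norm_le_abs_re_add_abs_im (w - 1)
      have a2 : |(w - 1).re| ≤ |A| + 1 := by
        rw [Complex.sub_re, Complex.one_re, abs_le]
        have := le_abs_self A
        constructor
        · have := abs_nonneg A
          linarith
        · linarith
      have a3 : |(w - 1).im| = |w.im| := by simp
      rw [a3] at a1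
      have := abs_nonneg A
      nlinarith
    have e2 := h2 w (by linarith)
    have e3 : (1 + |w.im|) ≤ (1 + |w.im|) ^ (B + 1) := le_self_pow₀ h1 (by omega)
    calc ‖w - 1‖ * ‖riemannZeta w‖ ≤ ((|A| + 2) * (1 + |w.im|)) * C2 :=
          mul_le_mul e1 e2 (norm_nonneg _) (by positivity)
      _ = (|A| + 2) * C2 * (1 + |w.im|) := by ring
      _ ≤ (C + (|A| + 2) * C2) * (1 + |w.im|) ^ (B + 1) := by
        gcongr
        linarith

/-- the function to be estimated, without the smooth weight -/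
def FF (k : ℕ) (c D : ℝ) (z : ℂ) : ℂ := (Z1 z * fs k c D z - (z - 1)) / (z + 1)

/-- the function to be estimated -/
def gg (k : ℕ) (c D T H : ℝ) (z : ℂ) : ℂ := FF k c D z * cexp (((z - T * I) / H) ^ 2)

lemma FF_ne {k : ℕ} {c D : ℝ} {z : ℂ} (hz : z ≠ 1) :
    FF k c D z = (z - 1) / (z + 1) * (riemannZeta z * fs k c D z - 1) := by
  unfold FF
  rw [Z1_ne hz]
  ring

lemma fs_diff (k : ℕ) (c D : ℝ) : Differentiable ℂ (fs k c D) := by
  unfold Pool.Agent.H448R2.GC.fs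
  refine Differentiable.fun_sum fun n hn => ?_
  have hn1 := (Finset.mem_Icc.mp hn).1
  have hn0 : (n : ℂ) ≠ 0 := by
    have : n ≠ 0 := by omega
    exact_mod_cast this
  refine (differentiable_const _).mul ?_
  exact (differentiable_neg).const_cpow (Or.inl hn0)

lemma FF_diff {k : ℕ} {c D : ℝ} {z : ℂ} (hz : 0 < z.re) : DifferentiableAt ℂ (FF k c D) z := by
  unfold FF
  have h1 : z + 1 ≠ 0 := by
    intro h
    have := congrArg Complex.re h
    simp at this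
    linarith
  refine DifferentiableAt.div ?_ (by fun_prop) h1
  exact ((Z1_diff z).mul (fs_diff k c D z)).sub (by fun_prop)

lemma gg_diff {k : ℕ} {c D T H : ℝ} {z : ℂ} (hz : 0 < z.re) : DifferentiableAt ℂ (gg k c D T H) z := by
  unfold gg
  refine (FF_diff hz).mul ?_
  fun_prop

lemma norm_gauss (T H : ℝ) (z : ℂ) :
    ‖cexp (((z - T * I) / H) ^ 2)‖ = Real.exp ((z.re / H) ^ 2) * Real.exp (-((z.im - T) / H) ^ 2) := by
  rw [Complex.norm_exp, ← Real.exp_add]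
  congr 1
  have : ((z - T * I) / H) = (((z.re / H : ℝ) : ℂ) + ((z.im - T) / H : ℝ) * I) := by
    apply Complex.ext
    · simp
    · simp
  rw [this, sq, Complex.mul_re]
  simp
  ring

lemma norm_gg (k : ℕ) (c D T H : ℝ) (z : ℂ) :
    ‖gg k c D T H z‖ = ‖FF k c D z‖ * (Real.exp ((z.re / H) ^ 2) * Real.exp (-((z.im - T) / H) ^ 2)) := by
  unfold gg
  rw [norm_mul, norm_gauss]

lemma norm_ratio {z : ℂ} (hz : 0 ≤ z.re) : ‖(z - 1) / (z + 1)‖ ≤ 1 := by
  have h1 : z + 1 ≠ 0 := by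
    intro h
    have := congrArg Complex.re h
    simp at this
    linarith
  rw [norm_div, div_le_one (norm_pos_iff.mpr h1)]
  apply le_of_sq_le_sq _ (norm_nonneg _) |>.trans le_rfl
  rw [← Complex.normSq_eq_norm_sq, ← Complex.normSq_eq_norm_sq, Complex.normSq_apply, Complex.normSq_apply]
  simp
  nlinarith

lemma norm_FF_le {k : ℕ} {c D : ℝ} {z : ℂ} (hz : 0 ≤ z.re) (h1 : z ≠ 1) :
    ‖FF k c D z‖ ≤ ‖riemannZeta z * fs k c D z - 1‖ := by
  rw [FF_ne h1, norm_mul]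
  exact mul_le_of_le_one_left (norm_nonneg _) (norm_ratio hz)

/-- crude bound -/
lemma FF_crude (A : ℝ) : ∃ (C : ℝ) (B : ℕ), 0 < C ∧ ∀ (k : ℕ) (c D : ℝ), 0 < c → 0 ≤ D → ∀ z : ℂ, 0 ≤ z.re → z.re ≤ A →
    ‖FF k c D z‖ ≤ C * Real.exp (D + k * c) * (1 + |z.im|) ^ B := by
  obtain ⟨C, B, hC, h⟩ := Z1_growth A
  refine ⟨C + (|A| + 2), B + 1, by positivity, fun k c D hc hD z h0 hA => ?_⟩
  have h1 : z + 1 ≠ 0 := by
    intro h
    have := congrArg Complex.re h
    simp at this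
    linarith
  have him : 0 ≤ |z.im| := abs_nonneg _
  have h11 : (1:ℝ) ≤ 1 + |z.im| := by linarith
  have hn : 1 ≤ ‖z + 1‖ := by
    have := Complex.abs_re_le_norm (z + 1)
    rw [Complex.add_re, Complex.one_re] at this
    have h3 := le_abs_self (z.re + 1)
    linarith
  have hfs := Pool.Agent.H448R2.GC.F0.fs_norm_le cu_nonneg cu_le_one k c D hc z h0
  have hE : 1 ≤ Real.exp (D + k * c) := by
    rw [← Real.exp_zero]; exact Real.exp_le_exp.mpr (by positivity)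
  have hz1 : ‖z - 1‖ ≤ (|A| + 2) * (1 + |z.im|) := by
    have a1 := Complex.norm_le_abs_re_add_abs_im (z - 1)
    have a2 : |(z - 1).re| ≤ |A| + 1 := by
      rw [Complex.sub_re, Complex.one_re, abs_le]
      have := le_abs_self A
      constructor
      · have := abs_nonneg A
        linarith
      · linarith
    have a3 : |(z - 1).im| = |z.im| := by simp
    rw [a3] at a1
    have := abs_nonneg A
    nlinarith
  unfold FF
  rw [norm_div]
  have hnum : ‖Z1 z * fs k c D z - (z - 1)‖ ≤ (C + (|A| + 2)) * Real.exp (D + k * c) * (1 + |z.im|) ^ (B + 1) := by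
    have e0 : (1 + |z.im|) ^ B ≤ (1 + |z.im|) ^ (B + 1) := pow_le_pow_right₀ h11 (by omega)
    have e3 : (1 + |z.im|) ≤ (1 + |z.im|) ^ (B + 1) := le_self_pow₀ h11 (by omega)
    calc ‖Z1 z * fs k c D z - (z - 1)‖ ≤ ‖Z1 z * fs k c D z‖ + ‖z - 1‖ := norm_sub_le _ _
      _ ≤ (C * (1 + |z.im|) ^ B) * Real.exp (D + k * c) + (|A| + 2) * (1 + |z.im|) := by
          rw [norm_mul]
          exact add_le_add (mul_le_mul (h z h0 hA) hfs (norm_nonneg _) (by positivity)) hz1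
      _ ≤ (C * (1 + |z.im|) ^ (B + 1)) * Real.exp (D + k * c) + (|A| + 2) * (Real.exp (D + k * c) * (1 + |z.im|) ^ (B + 1)) := by
          refine add_le_add (by gcongr) (mul_le_mul_of_nonneg_left ?_ (by positivity))
          calc (1 + |z.im|) ≤ 1 * (1 + |z.im|) ^ (B + 1) := by rw [one_mul]; exact e3
            _ ≤ _ := by gcongr
      _ = _ := by ring
  exact (div_le_self (norm_nonneg _) hn).trans hnum

lemma one_add_abs_le {y T H : ℝ} (hT : 0 ≤ T) (hH : 0 < H) :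
    1 + |y| ≤ (1 + T + H) * (1 + |(y - T) / H|) := by
  have h1 : |y| ≤ T + H * |(y - T) / H| := by
    rw [abs_div, abs_of_pos hH]
    have e : H * (|y - T| / H) = |y - T| := by field_simp
    rw [e]
    have e2 : y = T + (y - T) := by ring
    calc |y| = |T + (y - T)| := by rw [← e2]
      _ ≤ |T| + |y - T| := abs_add_le _ _
      _ = _ := by rw [abs_of_nonneg hT]
  have h2 : 0 ≤ |(y - T) / H| := abs_nonneg _
  nlinarith [mul_nonneg hT h2]

lemma gg_SD {k : ℕ} {c D T H A : ℝ} (hc : 0 < c) (hD : 0 ≤ D) (hT : 0 ≤ T) (hH : 0 < H) :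
    ∃ C : ℝ, SD (gg k c D T H) (1 / 2) A (1 / 4) C := by
  obtain ⟨C, B, hC, h⟩ := FF_crude (A + 1)
  obtain ⟨K, hK, hK2⟩ := Pool.Agent.H448R2.GC.F0.poly_le_exp (B + 2) 1 one_pos
  refine ⟨C * Real.exp (D + k * c) * Real.exp (((A + 1) / H) ^ 2) * (1 + T + H) ^ (B + 2) * K,
    ⟨by norm_num, by norm_num, by positivity, fun z h1 _ => gg_diff (by linarith), fun z h1 h2 => ?_⟩⟩
  have hz0 : 0 < z.re := by linarith
  have hzA : z.re ≤ A + 1 := by linarith
  rw [norm_gg]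
  have e1 := h k c D hc hD z hz0.le hzA
  have e2 : Real.exp ((z.re / H) ^ 2) ≤ Real.exp (((A + 1) / H) ^ 2) := by
    apply Real.exp_le_exp.mpr
    gcongr
  set v := (z.im - T) / H with hv
  have e3 := hK2 v
  have e4 : 1 + |z.im| ≤ (1 + T + H) * (1 + |v|) := one_add_abs_le hT hH
  have him : 0 ≤ |z.im| := abs_nonneg _
  have e5 : (1 + |z.im|) ^ (B + 2) ≤ (1 + T + H) ^ (B + 2) * (K * Real.exp (1 * v ^ 2)) := by
    calc (1 + |z.im|) ^ (B + 2) ≤ ((1 + T + H) * (1 + |v|)) ^ (B + 2) := by gcongr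
      _ = (1 + T + H) ^ (B + 2) * (1 + |v|) ^ (B + 2) := mul_pow _ _ _
      _ ≤ _ := by gcongr
  have e6 : 1 + z.im ^ 2 ≤ (1 + |z.im|) ^ 2 := by
    rw [← sq_abs]; nlinarith
  have e7 : (1 + |z.im|) ^ B * Real.exp (-v ^ 2) ≤ (1 + T + H) ^ (B + 2) * K * (1 / (1 + z.im ^ 2)) := by
    rw [mul_one_div, le_div_iff₀ (by positivity)]
    calc (1 + |z.im|) ^ B * Real.exp (-v ^ 2) * (1 + z.im ^ 2)
        ≤ (1 + |z.im|) ^ B * Real.exp (-v ^ 2) * (1 + |z.im|) ^ 2 := by gcongr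
      _ = (1 + |z.im|) ^ (B + 2) * Real.exp (-v ^ 2) := by ring
      _ ≤ ((1 + T + H) ^ (B + 2) * (K * Real.exp (1 * v ^ 2))) * Real.exp (-v ^ 2) := by gcongr
      _ = (1 + T + H) ^ (B + 2) * K * (Real.exp (1 * v ^ 2) * Real.exp (-v ^ 2)) := by ring
      _ = (1 + T + H) ^ (B + 2) * K := by
          rw [← Real.exp_add]
          have : 1 * v ^ 2 + -v ^ 2 = 0 := by ring
          rw [this, Real.exp_zero, mul_one]
  calc ‖FF k c D z‖ * (Real.exp ((z.re / H) ^ 2) * Real.exp (-v ^ 2))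
      ≤ (C * Real.exp (D + k * c) * (1 + |z.im|) ^ B) * (Real.exp (((A + 1) / H) ^ 2) * Real.exp (-v ^ 2)) := by
        gcongr
    _ = C * Real.exp (D + k * c) * Real.exp (((A + 1) / H) ^ 2) * ((1 + |z.im|) ^ B * Real.exp (-v ^ 2)) := by ring
    _ ≤ C * Real.exp (D + k * c) * Real.exp (((A + 1) / H) ^ 2) * ((1 + T + H) ^ (B + 2) * K * (1 / (1 + z.im ^ 2))) := by
        gcongr
    _ = _ := by ring

end

end Pool.Agent.Y24
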