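import Pool.Agent.Y24.D2

set_option autoImplicit false

/-!
The mean values on the two lines and between them.
-/

namespace Pool.Agent.Y24

open Finset Filter MeasureTheory Complex
open Pool.Agent.H306R2.SM (om cl Yf)
open Pool.Agent.H262R4.TM (Rng Ck)
open Pool.Agent.H448R2.GC (cu fs cu_nonneg cu_le_one cu_one cu_zero)

noncomputable section

lemma gs_int {b : ℝ} (hb : 0 < b) (T : ℝ) {H : ℝ} (hH : 0 < H) :
    Integrable (fun y : ℝ => Real.exp (-b * ((y - T) / H) ^ 2)) := by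
  have h1 := ((integrable_exp_neg_mul_sq hb).comp_div hH.ne').comp_sub_right T
  exact h1

lemma gs_val {b : ℝ} (T : ℝ) {H : ℝ} (hH : 0 < H) :
    ∫ y : ℝ, Real.exp (-b * ((y - T) / H) ^ 2) = H * Real.sqrt (Real.pi / b) := by
  have h1 := integral_sub_right_eq_self (μ := (volume : Measure ℝ)) (fun y : ℝ => Real.exp (-b * (y / H) ^ 2)) T
  rw [h1]
  have h2 := Measure.integral_comp_div (fun y : ℝ => Real.exp (-b * y ^ 2)) H
  rw [h2, integral_gaussian, abs_of_pos hH, smul_eq_mul]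

lemma four_thirds_add {X : ℝ} (hX : 0 ≤ X) : (X + 1) ^ (4 / 3 : ℝ) ≤ 4 * (X ^ (4 / 3 : ℝ) + 1) := by
  have h2 : (2:ℝ) ^ (4 / 3 : ℝ) ≤ 4 := by
    calc (2:ℝ) ^ (4 / 3 : ℝ) ≤ 2 ^ (2:ℝ) := Real.rpow_le_rpow_of_exponent_le (by norm_num) (by norm_num)
      _ = 4 := by norm_num
  have hX43 : 0 ≤ X ^ (4 / 3 : ℝ) := Real.rpow_nonneg hX _
  rcases le_total X 1 with h | h
  · calc (X + 1) ^ (4 / 3 : ℝ) ≤ 2 ^ (4 / 3 : ℝ) := Real.rpow_le_rpow (by linarith) (by linarith) (by norm_num)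
      _ ≤ 4 := h2
      _ ≤ _ := by linarith
  · calc (X + 1) ^ (4 / 3 : ℝ) ≤ (2 * X) ^ (4 / 3 : ℝ) := Real.rpow_le_rpow (by linarith) (by linarith) (by norm_num)
      _ = 2 ^ (4 / 3 : ℝ) * X ^ (4 / 3 : ℝ) := Real.mul_rpow (by norm_num) hX
      _ ≤ 4 * X ^ (4 / 3 : ℝ) := by gcongr
      _ ≤ _ := by linarith

lemma exp_rpow (x y : ℝ) : Real.exp x ^ y = Real.exp (y * x) := by
  rw [← Real.exp_mul, mul_comm]

/-- the pointwise bound on the left line -/
lemma left_pt : ∃ C : ℝ, 0 < C ∧ ∀ᶠ T : ℝ in atTop, ∀ (k : ℕ) (c D : ℝ), 0 < c → 0 ≤ D → D + k * c ≤ Real.log T →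
    ∀ κ : ℕ, Real.log T ^ 2 ≤ κ → (κ:ℝ) ≤ 2 * Real.log T ^ 2 → ∀ y : ℝ,
    ‖gg k c D T (T / (2 * Real.log T)) (((1 / 2 : ℝ) : ℂ) + (y : ℂ) * I)‖ ^ (4 / 3 : ℝ) ≤
    Set.indicator (Set.Ioi 0) (fun t => 96 * (T / (2 * Real.log T)) * (om κ (κ / T) t *
      (‖riemannZeta (cl t)‖ * ‖fs k c D (cl t)‖) ^ (4 / 3 : ℝ))) y +
    C * Real.exp (-(1 / 3) * ((y - T) / (T / (2 * Real.log T))) ^ 2) := by
  obtain ⟨C1, B, hC1, hZ⟩ := Z1_growth 1
  obtain ⟨K, hK, hK2⟩ := Pool.Agent.H448R2.GC.F0.poly_le_exp (2 * B) (1 / 2) (by norm_num)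
  refine ⟨16 * (1 + (1 + 2 * C1) ^ 2 * K), by positivity, ?_⟩
  have evL : ∀ᶠ T : ℝ in atTop, (4 * (B + 1) * 4 : ℝ) ≤ Real.log T :=
    Real.tendsto_log_atTop.eventually_ge_atTop _
  have evH : ∀ᶠ T : ℝ in atTop, Real.log T ≤ T / 2 := by
    have h := Real.isLittleO_log_id_atTop.bound (show (0:ℝ) < 1 / 2 by norm_num)
    filter_upwards [h, eventually_ge_atTop 1] with T hT hT1
    simp only [id, Real.norm_eq_abs, abs_of_nonneg (Real.log_nonneg hT1), abs_of_nonneg (zero_le_one.trans hT1)] at hT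
    linarith
  filter_upwards [evL, evH, eventually_ge_atTop 2] with T hL hH1 hT2 k c D hc hD hDk κ hκ1 hκ2 y
  set L := Real.log T with hLdef
  have hB0 : (0:ℝ) ≤ B := Nat.cast_nonneg B
  have hL1 : 16 ≤ L := by linarith
  have hL0 : 0 < L := by linarith
  have hT0 : 0 < T := by linarith
  set H := T / (2 * L) with hH
  have hHpos : 0 < H := by positivity
  have hHge : 1 ≤ H := by rw [hH, le_div_iff₀ (by positivity)]; linarith
  have hHT : H ≤ T := by
    rw [hH]; exact div_le_self hT0.le (by linarith)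
  set v := (y - T) / H with hv
  set z : ℂ := ((1 / 2 : ℝ) : ℂ) + (y : ℂ) * I with hz
  have hzre : z.re = 1 / 2 := by simp [hz]
  have hzim : z.im = y := by simp [hz]
  have hcl : cl y = z := by
    unfold Pool.Agent.H306R2.SM.cl
    rw [hz]; push_cast; ring
  have hz1 : z ≠ 1 := by
    intro h; rw [h] at hzre; norm_num at hzre
  set X := ‖riemannZeta z‖ * ‖fs k c D z‖ with hX
  have hX0 : 0 ≤ X := by positivity
  have hF : ‖FF k c D z‖ ≤ X + 1 := by
    refine (norm_FF_le (by rw [hzre]; norm_num) hz1).trans ?_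
    refine (norm_sub_le _ _).trans ?_
    rw [norm_mul, norm_one]
  have hW0 : 0 ≤ X ^ (4 / 3 : ℝ) := Real.rpow_nonneg hX0 _
  have hgg : ‖gg k c D T H z‖ ^ (4 / 3 : ℝ) ≤ 16 * (X ^ (4 / 3 : ℝ) + 1) * Real.exp (-(4 / 3) * v ^ 2) := by
    rw [norm_gg, hzre, hzim]
    have e1 : Real.exp ((1 / 2 / H) ^ 2) ≤ 2 := by
      have : (1 / 2 / H) ^ 2 ≤ 1 / 4 := by
        have h3 : 1 / 2 / H ≤ 1 / 2 := div_le_self (by norm_num) hHge
        have h4 : 0 ≤ 1 / 2 / H := by positivity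
        exact (pow_le_pow_left₀ h4 h3 2).trans (by norm_num)
      calc Real.exp ((1 / 2 / H) ^ 2) ≤ Real.exp (1 / 4) := Real.exp_le_exp.mpr this
        _ ≤ 2 := by
          have h5 : Real.exp (1 / 4) ^ 4 = Real.exp 1 := by
            rw [← Real.exp_nat_mul]; norm_num
          have h6 := Real.exp_one_lt_d9
          by_contra hcon
          push Not at hcon
          have h7 : (2:ℝ) ^ 4 ≤ Real.exp (1 / 4) ^ 4 := pow_le_pow_left₀ (by norm_num) hcon.le 4
          rw [h5] at h7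
          norm_num at h7
          linarith
    have e2 : ‖FF k c D z‖ * (Real.exp ((1 / 2 / H) ^ 2) * Real.exp (-v ^ 2)) ≤ (X + 1) * 2 * Real.exp (-v ^ 2) := by
      calc ‖FF k c D z‖ * (Real.exp ((1 / 2 / H) ^ 2) * Real.exp (-v ^ 2)) ≤ (X + 1) * (2 * Real.exp (-v ^ 2)) := by
            gcongr
        _ = _ := by ring
    calc (‖FF k c D z‖ * (Real.exp ((1 / 2 / H) ^ 2) * Real.exp (-v ^ 2))) ^ (4 / 3 : ℝ)
        ≤ ((X + 1) * 2 * Real.exp (-v ^ 2)) ^ (4 / 3 : ℝ) :=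
          Real.rpow_le_rpow (by positivity) e2 (by norm_num)
      _ = (X + 1) ^ (4 / 3 : ℝ) * 2 ^ (4 / 3 : ℝ) * Real.exp (-(4 / 3) * v ^ 2) := by
          rw [Real.mul_rpow (by positivity) (Real.exp_pos _).le, Real.mul_rpow (by positivity) (by norm_num), exp_rpow]
          congr 2; ring
      _ ≤ (4 * (X ^ (4 / 3 : ℝ) + 1)) * 4 * Real.exp (-(4 / 3) * v ^ 2) := by
          gcongr
          · exact four_thirds_add hX0
          · calc (2:ℝ) ^ (4 / 3 : ℝ) ≤ 2 ^ (2:ℝ) := Real.rpow_le_rpow_of_exponent_le (by norm_num) (by norm_num)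
              _ = 4 := by norm_num
      _ = _ := by ring
  refine hgg.trans ?_
  have hCK : 0 ≤ (1 + 2 * C1) ^ 2 * K := by positivity
  have hv0 : 0 ≤ v ^ 2 := sq_nonneg v
  rcases le_or_gt (T / 2) y with hy | hy
  · have hy0 : y ∈ Set.Ioi (0:ℝ) := by
      rw [Set.mem_Ioi]; linarith
    rw [Set.indicator_of_mem hy0, hcl]
    have hκpos : 1 ≤ κ := by
      have : (1:ℝ) ≤ κ := by
        have := one_le_pow₀ (n := 2) (show 1 ≤ L by linarith)
        linarith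
      exact_mod_cast this
    have h1 := om_lb hκpos hT0 hy
    have h2 : Real.exp (-(4 / 3) * v ^ 2) ≤ 6 * H * om κ (κ / T) y := by
      have h3 : (y - T) / T = v / (2 * L) := by
        rw [hv, hH]; field_simp
      rw [h3] at h1
      have h4 : 2 * (κ:ℝ) * (v / (2 * L)) ^ 2 ≤ v ^ 2 := by
        rw [div_pow, ← mul_div_assoc, div_le_iff₀ (by positivity)]
        calc 2 * (κ:ℝ) * v ^ 2 ≤ 2 * (2 * L ^ 2) * v ^ 2 := by gcongr
          _ = v ^ 2 * (2 * L) ^ 2 := by ring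
      have h5 : L ≤ Real.sqrt κ := Real.le_sqrt_of_sq_le hκ1
      have h6 : L / (Real.exp 1 * T) * Real.exp (-(4 / 3) * v ^ 2) ≤ om κ (κ / T) y := by
        refine le_trans ?_ h1
        apply mul_le_mul _ _ (Real.exp_pos _).le (by positivity)
        · gcongr
        · apply Real.exp_le_exp.mpr; linarith
      have h7 : Real.exp (-(4 / 3) * v ^ 2) ≤ (Real.exp 1 * T) / L * om κ (κ / T) y := by
        calc Real.exp (-(4 / 3) * v ^ 2) = (Real.exp 1 * T) / L * (L / (Real.exp 1 * T) * Real.exp (-(4 / 3) * v ^ 2)) := by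
              field_simp
          _ ≤ _ := by gcongr
      have hom : 0 ≤ om κ (κ / T) y := le_trans (by positivity) h6
      refine h7.trans (mul_le_mul_of_nonneg_right ?_ hom)
      rw [hH]
      have h8 := Real.exp_one_lt_d9
      rw [div_le_iff₀ hL0]
      have : 6 * (T / (2 * L)) * L = 3 * T := by field_simp; norm_num
      rw [this]
      exact mul_le_mul_of_nonneg_right (by linarith) hT0.le
    have h3 : Real.exp (-(4 / 3) * v ^ 2) ≤ Real.exp (-(1 / 3) * v ^ 2) := by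
      apply Real.exp_le_exp.mpr; linarith
    calc 16 * (X ^ (4 / 3 : ℝ) + 1) * Real.exp (-(4 / 3) * v ^ 2)
        = 16 * X ^ (4 / 3 : ℝ) * Real.exp (-(4 / 3) * v ^ 2) + 16 * Real.exp (-(4 / 3) * v ^ 2) := by ring
      _ ≤ 16 * X ^ (4 / 3 : ℝ) * (6 * H * om κ (κ / T) y) + 16 * Real.exp (-(1 / 3) * v ^ 2) := by gcongr
      _ = 96 * H * (om κ (κ / T) y * X ^ (4 / 3 : ℝ)) + 16 * 1 * Real.exp (-(1 / 3) * v ^ 2) := by ring
      _ ≤ _ := by gcongr; linarith
  · have hind : 0 ≤ Set.indicator (Set.Ioi 0) (fun t => 96 * H * (om κ (κ / T) t *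
      (‖riemannZeta (cl t)‖ * ‖fs k c D (cl t)‖) ^ (4 / 3 : ℝ))) y := by
      apply Set.indicator_nonneg
      intro t ht
      have ht0 : (0:ℝ) < t := ht
      have : 0 ≤ om κ (κ / T) t := by
        unfold Pool.Agent.H306R2.SM.om
        have : 0 ≤ (κ:ℝ) / T := by positivity
        positivity
      positivity
    -- the crude bound for `X`
    have hXle : X ≤ 2 * C1 * (1 + |y|) ^ B * T := by
      have h1 := hZ z (by rw [hzre]; norm_num) (by rw [hzre]; norm_num)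
      rw [Z1_ne hz1, norm_mul, hzim] at h1
      have h2 : (1:ℝ) / 2 ≤ ‖z - 1‖ := by
        have := Complex.abs_re_le_norm (z - 1)
        rw [Complex.sub_re, Complex.one_re, hzre] at this
        norm_num at this
        linarith
      have h3 : ‖riemannZeta z‖ ≤ 2 * C1 * (1 + |y|) ^ B := by
        have := mul_le_mul_of_nonneg_right h2 (norm_nonneg (riemannZeta z))
        linarith
      have h4 := Pool.Agent.H448R2.GC.F0.fs_norm_le cu_nonneg cu_le_one k c D hc z (by rw [hzre]; norm_num)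
      have h5 : Real.exp (D + k * c) ≤ T := by
        calc Real.exp (D + k * c) ≤ Real.exp L := Real.exp_le_exp.mpr hDk
          _ = T := Real.exp_log hT0
      exact mul_le_mul h3 (h4.trans h5) (norm_nonneg _) (by positivity)
    have hX2 : X ^ (4 / 3 : ℝ) ≤ (1 + X) ^ 2 := by
      calc X ^ (4 / 3 : ℝ) ≤ (1 + X) ^ (4 / 3 : ℝ) := Real.rpow_le_rpow hX0 (by linarith) (by norm_num)
        _ ≤ (1 + X) ^ (2:ℝ) := Real.rpow_le_rpow_of_exponent_le (by linarith) (by norm_num)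
        _ = _ := by norm_num
    have hv1 : 0 ≤ |v| := abs_nonneg v
    have hy1 : 0 ≤ |y| := abs_nonneg y
    have hyv' : 1 + |y| ≤ (1 + T + H) * (1 + |v|) := one_add_abs_le hT0.le hHpos
    have hTH : 1 + T + H ≤ T ^ 3 := by
      have h1 : (2:ℝ) ^ 2 ≤ T ^ 2 := pow_le_pow_left₀ (by norm_num) hT2 2
      have h2 : T ^ 3 = T ^ 2 * T := by ring
      have h3 : 2 ^ 2 * T ≤ T ^ 2 * T := mul_le_mul_of_nonneg_right h1 hT0.le
      rw [h2]; linarith
    have hyv2 : 1 + |y| ≤ T ^ 3 * (1 + |v|) := hyv'.trans (by gcongr)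
    have h1X : 1 + X ≤ (1 + 2 * C1) * T * (T ^ 3 * (1 + |v|)) ^ B := by
      have h1 : 1 ≤ (T ^ 3 * (1 + |v|)) ^ B := by
        apply one_le_pow₀
        have : 1 ≤ T ^ 3 := one_le_pow₀ (by linarith)
        exact one_le_mul_of_one_le_of_one_le this (by linarith)
      have h2 : (1 + |y|) ^ B ≤ (T ^ 3 * (1 + |v|)) ^ B := by gcongr
      calc 1 + X ≤ 1 * (T * (T ^ 3 * (1 + |v|)) ^ B) + 2 * C1 * (T ^ 3 * (1 + |v|)) ^ B * T := by
            refine add_le_add ?_ (hXle.trans (by gcongr))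
            rw [one_mul]
            exact one_le_mul_of_one_le_of_one_le (by linarith) h1
        _ = _ := by ring
    have hX3 : (1 + X) ^ 2 ≤ (1 + 2 * C1) ^ 2 * T ^ (6 * B + 2) * (1 + |v|) ^ (2 * B) := by
      calc (1 + X) ^ 2 ≤ ((1 + 2 * C1) * T * (T ^ 3 * (1 + |v|)) ^ B) ^ 2 := by gcongr
        _ = _ := by
          rw [mul_pow, mul_pow, ← pow_mul, mul_pow, ← pow_mul]
          ring
    have hvL : L ^ 2 ≤ v ^ 2 := by
      have h1 : L ≤ -v := by
        rw [hv, hH, ← neg_div, neg_sub, le_div_iff₀ (by positivity)]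
        have : L * (T / (2 * L)) = T / 2 := by field_simp
        rw [this]; linarith
      have h2 := pow_le_pow_left₀ hL0.le h1 2
      rwa [neg_sq] at h2
    have hTpow : T ^ (6 * B + 2) * Real.exp (-(1 / 2) * v ^ 2) ≤ 1 := by
      have h1 : T ^ (6 * B + 2) = Real.exp ((6 * B + 2 : ℕ) * L) := by
        rw [Real.exp_nat_mul, Real.exp_log hT0]
      rw [h1, ← Real.exp_add]
      apply Real.exp_le_one_iff.mpr
      push_cast
      have h2 : 2 * (6 * (B:ℝ) + 2) ≤ L := by linarith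
      have h3 : 2 * (6 * (B:ℝ) + 2) * L ≤ L * L := mul_le_mul_of_nonneg_right h2 hL0.le
      linarith [hvL, sq L]
    have hexp : Real.exp (-(4 / 3) * v ^ 2) = Real.exp (-(1 / 3) * v ^ 2) * Real.exp (-(1 / 2) * v ^ 2) * Real.exp (-(1 / 2) * v ^ 2) := by
      rw [← Real.exp_add, ← Real.exp_add]; congr 1; ring
    have hKv : (1 + |v|) ^ (2 * B) * Real.exp (-(1 / 2) * v ^ 2) ≤ K := by
      calc (1 + |v|) ^ (2 * B) * Real.exp (-(1 / 2) * v ^ 2) ≤ (K * Real.exp (1 / 2 * v ^ 2)) * Real.exp (-(1 / 2) * v ^ 2) := by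
            gcongr; exact hK2 v
        _ = K * (Real.exp (1 / 2 * v ^ 2) * Real.exp (-(1 / 2) * v ^ 2)) := by ring
        _ = K := by
            rw [← Real.exp_add]
            have : 1 / 2 * v ^ 2 + -(1 / 2) * v ^ 2 = 0 := by ring
            rw [this, Real.exp_zero, mul_one]
    have hmain : X ^ (4 / 3 : ℝ) * Real.exp (-(4 / 3) * v ^ 2) ≤ (1 + 2 * C1) ^ 2 * K * Real.exp (-(1 / 3) * v ^ 2) := by
      calc X ^ (4 / 3 : ℝ) * Real.exp (-(4 / 3) * v ^ 2)
          ≤ ((1 + 2 * C1) ^ 2 * T ^ (6 * B + 2) * (1 + |v|) ^ (2 * B)) *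
            (Real.exp (-(1 / 3) * v ^ 2) * Real.exp (-(1 / 2) * v ^ 2) * Real.exp (-(1 / 2) * v ^ 2)) := by
            rw [hexp]
            gcongr
            exact hX2.trans hX3
        _ = (1 + 2 * C1) ^ 2 * (T ^ (6 * B + 2) * Real.exp (-(1 / 2) * v ^ 2)) *
            ((1 + |v|) ^ (2 * B) * Real.exp (-(1 / 2) * v ^ 2)) * Real.exp (-(1 / 3) * v ^ 2) := by ring
        _ ≤ (1 + 2 * C1) ^ 2 * 1 * K * Real.exp (-(1 / 3) * v ^ 2) := by gcongr
        _ = _ := by ring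
    have h3 : Real.exp (-(4 / 3) * v ^ 2) ≤ Real.exp (-(1 / 3) * v ^ 2) := by
      apply Real.exp_le_exp.mpr; linarith
    calc 16 * (X ^ (4 / 3 : ℝ) + 1) * Real.exp (-(4 / 3) * v ^ 2)
        = 16 * (X ^ (4 / 3 : ℝ) * Real.exp (-(4 / 3) * v ^ 2)) + 16 * Real.exp (-(4 / 3) * v ^ 2) := by ring
      _ ≤ 16 * ((1 + 2 * C1) ^ 2 * K * Real.exp (-(1 / 3) * v ^ 2)) + 16 * Real.exp (-(1 / 3) * v ^ 2) := by gcongr
      _ = 0 + 16 * (1 + (1 + 2 * C1) ^ 2 * K) * Real.exp (-(1 / 3) * v ^ 2) := by ring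
      _ ≤ _ := by gcongr

end

end Pool.Agent.Y24
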