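import Pool.Agent.Y24.D3

set_option autoImplicit false

/-!
The mean values on the two lines and between them.
-/

namespace Pool.Agent.Y24

open Finset Filter MeasureTheory Complex
open Pool.Agent.H306R2.SM (om cl Yf)
open Pool.Agent.H262R4.TM (Rng Ck)
open Pool.Agent.H448R2.GC (cu fs cu_nonneg cu_le_one cu_one cu_zero)

noncomputable section

theorem left_line (k : ℕ) (hk : 5 ≤ k) (η ε : ℝ) (hη : 0 < η) (hε : 0 < ε) : ∃ C : ℝ, 0 < C ∧
    ∀ᶠ T : ℝ in atTop, ∀ D : ℝ, 0 ≤ D → D + η * Real.log T ≤ (1 - ε) * Real.log T →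
    ∫ y : ℝ, ‖gg k (η * Real.log T / k) D T (T / (2 * Real.log T)) (((1 / 2 : ℝ) : ℂ) + (y : ℂ) * I)‖ ^ (4 / 3 : ℝ) ≤
      C * (T / (2 * Real.log T)) := by
  obtain ⟨C1, hC1, h1⟩ := MC k hk η ε hη hε
  obtain ⟨C2, hC2, h2⟩ := left_pt
  refine ⟨96 * C1 + C2 * Real.sqrt (Real.pi / (1 / 3)), by positivity, ?_⟩
  filter_upwards [h1, h2, Real.tendsto_log_atTop.eventually_ge_atTop 1, eventually_ge_atTop 2] with T h1 h2 hL hT2 D hD hDη
  set L := Real.log T with hLdef
  have hL0 : 0 < L := by linarith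
  have hk0 : (0:ℝ) < k := by exact_mod_cast (show 0 < k by omega)
  set H := T / (2 * L) with hH
  have hT0 : 0 < T := by linarith
  have hHpos : 0 < H := by positivity
  set κ := ⌈L ^ 2⌉₊ with hκ
  have hκ1 : L ^ 2 ≤ κ := Nat.le_ceil _
  have hκ2 : (κ:ℝ) ≤ 2 * L ^ 2 := by
    have := Nat.ceil_lt_add_one (sq_nonneg L)
    have h3 : (1:ℝ) ≤ L ^ 2 := one_le_pow₀ hL
    linarith
  have hR : Rng T κ := by
    refine ⟨hκ1, ?_⟩
    have h3 : (0:ℝ) ≤ L ^ 2 := sq_nonneg L
    rw [← hLdef]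
    linarith
  have hc : 0 < η * L / k := by positivity
  have hDk : D + k * (η * L / k) ≤ L := by
    have : (k:ℝ) * (η * L / k) = η * L := by field_simp
    rw [this]
    have : (1 - ε) * L ≤ L := by nlinarith
    linarith
  obtain ⟨i1, i2⟩ := h1 κ hR D hD hDη
  have hp := h2 k (η * L / k) D hc hD hDk κ hκ1 hκ2
  have hi1 : Integrable (Set.indicator (Set.Ioi 0) (fun t => 96 * H * (om κ (κ / T) t *
      (‖riemannZeta (cl t)‖ * ‖fs k (η * L / k) D (cl t)‖) ^ (4 / 3 : ℝ)))) := by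
    rw [integrable_indicator_iff measurableSet_Ioi]
    exact i1.const_mul _
  have hi2 : Integrable (fun y : ℝ => C2 * Real.exp (-(1 / 3) * ((y - T) / H) ^ 2)) :=
    (gs_int (by norm_num) T hHpos).const_mul _
  calc ∫ y : ℝ, ‖gg k (η * L / k) D T H (((1 / 2 : ℝ) : ℂ) + (y : ℂ) * I)‖ ^ (4 / 3 : ℝ)
      ≤ ∫ y : ℝ, (Set.indicator (Set.Ioi 0) (fun t => 96 * H * (om κ (κ / T) t *
      (‖riemannZeta (cl t)‖ * ‖fs k (η * L / k) D (cl t)‖) ^ (4 / 3 : ℝ))) y +
      C2 * Real.exp (-(1 / 3) * ((y - T) / H) ^ 2)) :=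
        integral_mono_of_nonneg (Eventually.of_forall fun y => Real.rpow_nonneg (norm_nonneg _) _)
          (hi1.add hi2) (Eventually.of_forall hp)
    _ = 96 * H * (∫ t in Set.Ioi (0:ℝ), om κ (κ / T) t *
      (‖riemannZeta (cl t)‖ * ‖fs k (η * L / k) D (cl t)‖) ^ (4 / 3 : ℝ)) + C2 * (H * Real.sqrt (Real.pi / (1 / 3))) := by
        rw [integral_add hi1 hi2, integral_indicator measurableSet_Ioi, integral_const_mul, integral_const_mul,
          gs_val T hHpos]
    _ ≤ 96 * H * C1 + C2 * (H * Real.sqrt (Real.pi / (1 / 3))) := by gcongr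
    _ = _ := by ring

lemma right_pt : ∃ C : ℝ, 0 < C ∧ ∀ (k : ℕ) (c D : ℝ), 0 < c → 0 ≤ D → ∀ s : ℂ, 2 ≤ s.re →
    ‖riemannZeta s * fs k c D s - 1‖ ≤ C * Real.exp (-((s.re - 2) * D)) := by
  obtain ⟨C2, hC2, h2⟩ := Pool.Agent.H448R2.GC.X1.zeta_bdd
  have hsum : Summable (fun n : ℕ => 1 / ((n:ℝ) ^ 2)) := Real.summable_one_div_nat_pow.mpr (by norm_num)
  set S := ∑' n : ℕ, 1 / ((n:ℝ) ^ 2) with hS
  have hS0 : 0 ≤ S := tsum_nonneg fun n => by positivity
  refine ⟨C2 * S + 1, by positivity, fun k c D hc hD s hs => ?_⟩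
  have hs1 : 1 < s.re := by linarith
  have hmu : riemannZeta s * LSeries (fun n => ((ArithmeticFunction.moebius n : ℤ) : ℂ)) s = 1 := by
    have h := ArithmeticFunction.LSeries_zeta_mul_Lseries_moebius hs1
    rwa [ArithmeticFunction.LSeries_zeta_eq_riemannZeta hs1] at h
  have hsm : LSeriesSummable (fun n => ((ArithmeticFunction.moebius n : ℤ) : ℂ)) s :=
    ArithmeticFunction.LSeriesSummable_moebius_iff.mpr hs1
  -- the truncated series as an infinite series
  set u : ℕ → ℂ := fun n => LSeries.term (fun n => ((ArithmeticFunction.moebius n : ℤ) : ℂ)) s n with hu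
  set w : ℕ → ℂ := fun n => (cu k c (Real.log n - D) : ℂ) * u n with hw
  have hfs : fs k c D s = ∑' n, w n := by
    unfold Pool.Agent.H448R2.GC.fs
    rw [tsum_eq_sum (s := Finset.Icc 1 ⌊Real.exp (D + k * c)⌋₊)]
    · refine Finset.sum_congr rfl fun n hn => ?_
      have hn1 := (Finset.mem_Icc.mp hn).1
      rw [hw, hu]
      simp only
      rw [LSeries.term_of_ne_zero (by omega), Complex.cpow_neg]
      ring
    · intro n hn
      rw [hw]
      simp only
      rcases Nat.eq_zero_or_pos n with h0 | h0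
      · rw [h0, hu]; simp
      · have h3 : ⌊Real.exp (D + k * c)⌋₊ < n := by
          by_contra hcon
          exact hn (Finset.mem_Icc.mpr ⟨h0, by omega⟩)
        have h4 : Real.exp (D + k * c) < n := (Nat.floor_lt (Real.exp_pos _).le).mp h3
        have h5 : D + k * c < Real.log n := by
          rw [Real.lt_log_iff_exp_lt (by exact_mod_cast h0)]
          exact h4
        rw [cu_zero k c _ hc (by linarith)]
        simp
  have hun : ∀ n, ‖u n‖ ≤ 1 / ((n:ℝ) ^ 2) := by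
    intro n
    rcases Nat.eq_zero_or_pos n with h0 | h0
    · rw [h0, hu]; simp
    · rw [hu]
      simp only
      rw [LSeries.term_of_ne_zero (by omega), norm_div]
      have h3 := Pool.Agent.H448R2.GC.F0.norm_moebius_le n
      rw [Complex.norm_natCast_cpow_of_pos h0]
      have hn1 : (1:ℝ) ≤ n := by exact_mod_cast h0
      have h4 : (n:ℝ) ^ 2 ≤ (n:ℝ) ^ s.re := by
        rw [← Real.rpow_natCast]
        exact Real.rpow_le_rpow_of_exponent_le hn1 (by exact_mod_cast hs)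
      apply div_le_div₀ (by norm_num) h3 (by positivity) h4
  have hun2 : ∀ n : ℕ, D < Real.log n → ‖u n‖ ≤ Real.exp (-((s.re - 2) * D)) * (1 / ((n:ℝ) ^ 2)) := by
    intro n hn
    rcases Nat.eq_zero_or_pos n with h0 | h0
    · rw [h0, hu]; simp
    · rw [hu]
      simp only
      rw [LSeries.term_of_ne_zero (by omega), norm_div]
      have h3 := Pool.Agent.H448R2.GC.F0.norm_moebius_le n
      rw [Complex.norm_natCast_cpow_of_pos h0]
      have hn0 : (0:ℝ) < n := by exact_mod_cast h0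
      have h4 : (n:ℝ) ^ s.re = (n:ℝ) ^ (s.re - 2) * (n:ℝ) ^ 2 := by
        rw [← Real.rpow_natCast, ← Real.rpow_add hn0]
        congr 1; push_cast; ring
      rw [h4]
      have h5 : Real.exp ((s.re - 2) * D) ≤ (n:ℝ) ^ (s.re - 2) := by
        rw [Real.rpow_def_of_pos hn0]
        apply Real.exp_le_exp.mpr
        rw [mul_comm]
        exact mul_le_mul_of_nonneg_right hn.le (by linarith)
      calc ‖((ArithmeticFunction.moebius n : ℤ) : ℂ)‖ / ((n:ℝ) ^ (s.re - 2) * (n:ℝ) ^ 2)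
          ≤ 1 / (Real.exp ((s.re - 2) * D) * (n:ℝ) ^ 2) := by
            apply div_le_div₀ (by norm_num) h3 (by positivity)
            gcongr
        _ = _ := by rw [Real.exp_neg]; field_simp
  have hwle : ∀ n, ‖w n - u n‖ ≤ Real.exp (-((s.re - 2) * D)) * (1 / ((n:ℝ) ^ 2)) := by
    intro n
    have e : w n - u n = ((cu k c (Real.log n - D) - 1 : ℝ) : ℂ) * u n := by
      rw [hw]; push_cast; ring
    rw [e, norm_mul, Complex.norm_real, Real.norm_eq_abs]
    rcases le_or_gt (Real.log n) D with h | h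
    · rw [cu_one k c _ hc (by linarith)]
      simp
      positivity
    · have h3 : |cu k c (Real.log n - D) - 1| ≤ 1 := by
        rw [abs_le]
        have a1 := cu_nonneg k c (Real.log n - D) hc
        have a2 := cu_le_one k c (Real.log n - D) hc
        constructor <;> linarith
      calc |cu k c (Real.log n - D) - 1| * ‖u n‖ ≤ 1 * ‖u n‖ := by gcongr
        _ ≤ _ := by rw [one_mul]; exact hun2 n h
  have hwu : Summable fun n => w n - u n :=
    Summable.of_norm_bounded (hsum.mul_left _) hwle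
  have husum : Summable u := hsm
  have hwsum : Summable w := by
    have := hwu.add husum
    simpa using this
  have hdiff : fs k c D s - LSeries (fun n => ((ArithmeticFunction.moebius n : ℤ) : ℂ)) s = ∑' n, (w n - u n) := by
    rw [hwsum.tsum_sub husum, ← hfs]
    rfl
  have hnorm : ‖fs k c D s - LSeries (fun n => ((ArithmeticFunction.moebius n : ℤ) : ℂ)) s‖ ≤
      Real.exp (-((s.re - 2) * D)) * S := by
    rw [hdiff, hS, ← tsum_mul_left]
    exact tsum_of_norm_bounded (hsum.mul_left _).hasSum hwle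
  have e : riemannZeta s * fs k c D s - 1 = riemannZeta s *
      (fs k c D s - LSeries (fun n => ((ArithmeticFunction.moebius n : ℤ) : ℂ)) s) := by
    rw [mul_sub, hmu]
  rw [e, norm_mul]
  have h3 := h2 s (by linarith)
  have hE := Real.exp_pos (-((s.re - 2) * D))
  calc ‖riemannZeta s‖ * ‖fs k c D s - LSeries (fun n => ((ArithmeticFunction.moebius n : ℤ) : ℂ)) s‖
      ≤ C2 * (Real.exp (-((s.re - 2) * D)) * S) := mul_le_mul h3 hnorm (norm_nonneg _) hC2.le
    _ ≤ _ := by nlinarith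

theorem right_line {A : ℝ} (hA : 3 ≤ A) : ∃ C : ℝ, 0 < C ∧ ∀ (k : ℕ) (c D T H : ℝ), 0 < c → 0 ≤ D → A ≤ H →
    ∫ y : ℝ, ‖gg k c D T H ((A : ℂ) + (y : ℂ) * I)‖ ^ (4 / 3 : ℝ) ≤
      C * H * Real.exp (-((4 / 3) * ((A - 2) * D))) := by
  obtain ⟨C1, hC1, h1⟩ := right_pt
  refine ⟨(C1 * 3) ^ (4 / 3 : ℝ) * Real.sqrt (Real.pi / (4 / 3)), by positivity, fun k c D T H hc hD hAH => ?_⟩
  have hH : 0 < H := by linarith
  have hpt : ∀ y : ℝ, ‖gg k c D T H ((A : ℂ) + (y : ℂ) * I)‖ ^ (4 / 3 : ℝ) ≤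
      (C1 * 3) ^ (4 / 3 : ℝ) * Real.exp (-((4 / 3) * ((A - 2) * D))) * Real.exp (-(4 / 3) * ((y - T) / H) ^ 2) := by
    intro y
    set z : ℂ := (A : ℂ) + (y : ℂ) * I with hz
    have hzre : z.re = A := by simp [hz]
    have hzim : z.im = y := by simp [hz]
    have hz1 : z ≠ 1 := by
      intro h; rw [h] at hzre; norm_num at hzre; linarith
    have h2 := h1 k c D hc hD z (by rw [hzre]; linarith)
    rw [hzre] at h2
    have h3 := (norm_FF_le (k := k) (c := c) (D := D) (z := z) (by rw [hzre]; linarith) hz1).trans h2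
    rw [norm_gg, hzre, hzim]
    have h4 : Real.exp ((A / H) ^ 2) ≤ 3 := by
      have h5 : A / H ≤ 1 := (div_le_one hH).mpr hAH
      have h6 : 0 ≤ A / H := by positivity
      have h7 : (A / H) ^ 2 ≤ 1 := pow_le_one₀ h6 h5
      have := Real.exp_one_lt_d9
      calc Real.exp ((A / H) ^ 2) ≤ Real.exp 1 := Real.exp_le_exp.mpr h7
        _ ≤ 3 := by linarith
    calc (‖FF k c D z‖ * (Real.exp ((A / H) ^ 2) * Real.exp (-((y - T) / H) ^ 2))) ^ (4 / 3 : ℝ)
        ≤ ((C1 * 3) * Real.exp (-((A - 2) * D)) * Real.exp (-((y - T) / H) ^ 2)) ^ (4 / 3 : ℝ) := by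
          apply Real.rpow_le_rpow (by positivity) _ (by norm_num)
          calc ‖FF k c D z‖ * (Real.exp ((A / H) ^ 2) * Real.exp (-((y - T) / H) ^ 2))
              ≤ (C1 * Real.exp (-((A - 2) * D))) * (3 * Real.exp (-((y - T) / H) ^ 2)) := by gcongr
            _ = _ := by ring
      _ = _ := by
          rw [Real.mul_rpow (by positivity) (Real.exp_pos _).le, Real.mul_rpow (by positivity) (Real.exp_pos _).le,
            exp_rpow, exp_rpow]
          congr 2
          · congr 1; ring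
          · ring
  calc ∫ y : ℝ, ‖gg k c D T H ((A : ℂ) + (y : ℂ) * I)‖ ^ (4 / 3 : ℝ)
      ≤ ∫ y : ℝ, (C1 * 3) ^ (4 / 3 : ℝ) * Real.exp (-((4 / 3) * ((A - 2) * D))) * Real.exp (-(4 / 3) * ((y - T) / H) ^ 2) :=
        integral_mono_of_nonneg (Eventually.of_forall fun y => Real.rpow_nonneg (norm_nonneg _) _)
          ((gs_int (by norm_num) T hH).const_mul _) (Eventually.of_forall hpt)
    _ = _ := by
        rw [integral_const_mul, gs_val T hH]
        ring

/-- the mean value between the lines -/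
theorem conv_gg {A : ℝ} (hA : 3 ≤ A) (k : ℕ) (hk : 5 ≤ k) (η ε : ℝ) (hη : 0 < η) (hε : 0 < ε) : ∃ C : ℝ, 0 < C ∧
    ∀ᶠ T : ℝ in atTop, ∀ D : ℝ, 0 ≤ D → D + η * Real.log T ≤ (1 - ε) * Real.log T → ∀ x : ℝ, 1 / 2 ≤ x → x ≤ A →
    ∫ y : ℝ, ‖gg k (η * Real.log T / k) D T (T / (2 * Real.log T)) ((x : ℂ) + (y : ℂ) * I)‖ ^ (4 / 3 : ℝ) ≤
      C * (T / (2 * Real.log T)) * Real.exp (-((4 / 3) * ((A - 2) / (A - 1 / 2)) * ((x - 1 / 2) * D))) := by
  obtain ⟨C1, hC1, h1⟩ := left_line k hk η ε hη hε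
  obtain ⟨C2, hC2, h2⟩ := right_line hA
  refine ⟨max C1 C2, lt_max_of_lt_left hC1, ?_⟩
  have evH : ∀ᶠ T : ℝ in atTop, 2 * A * Real.log T ≤ T := by
    have h := Real.isLittleO_log_id_atTop.bound (show (0:ℝ) < 1 / (2 * A) by positivity)
    filter_upwards [h, eventually_ge_atTop 1] with T hT hT1
    simp only [id, Real.norm_eq_abs, abs_of_nonneg (Real.log_nonneg hT1), abs_of_nonneg (zero_le_one.trans hT1)] at hT
    calc 2 * A * Real.log T ≤ 2 * A * (1 / (2 * A) * T) := by gcongr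
      _ = T := by field_simp
  filter_upwards [h1, evH, Real.tendsto_log_atTop.eventually_ge_atTop 1, eventually_ge_atTop 2] with T h1 hH1 hL hT2 D hD hDη x hx hxA
  set L := Real.log T with hLdef
  have hL0 : 0 < L := by linarith
  have hk0 : (0:ℝ) < k := by exact_mod_cast (show 0 < k by omega)
  have hT0 : 0 < T := by linarith
  set H := T / (2 * L) with hH
  have hHpos : 0 < H := by positivity
  have hAH : A ≤ H := by rw [hH, le_div_iff₀ (by positivity)]; linarith
  have hc : 0 < η * L / k := by positivity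
  set c := η * L / k with hcdef
  have l1 := h1 D hD hDη
  have l2 := h2 k c D T H hc hD hAH
  obtain ⟨K, hK⟩ := gg_SD (k := k) (c := c) (D := D) (T := T) (H := H) (A := A) hc hD hT0.le hHpos
  set M := max C1 C2 with hM
  have hM0 : 0 < M := lt_max_of_lt_left hC1
  have l1' : ∫ y : ℝ, ‖gg k c D T H (((1 / 2 : ℝ) : ℂ) + (y : ℂ) * I)‖ ^ (4 / 3 : ℝ) ≤ M * H :=
    l1.trans (by gcongr; exact le_max_left _ _)
  set E := Real.exp (-((4 / 3) * ((A - 2) * D))) with hE
  have l2' : ∫ y : ℝ, ‖gg k c D T H ((A : ℂ) + (y : ℂ) * I)‖ ^ (4 / 3 : ℝ) ≤ M * H * E :=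
    l2.trans (by gcongr; exact le_max_right _ _)
  have key := conv_lp hK (p := 4 / 3) (by norm_num) (σ := x) (by linarith) hx hxA l1' l2'
  refine key.trans (le_of_eq ?_)
  set θ := (x - 1 / 2) / (A - 1 / 2) with hθ
  have hMH : 0 < M * H := by positivity
  rw [Real.mul_rpow hMH.le (Real.exp_pos _).le, ← mul_assoc, ← Real.rpow_add hMH, sub_add_cancel, Real.rpow_one, exp_rpow]
  congr 2
  rw [hθ]
  have : A - 1 / 2 ≠ 0 := by linarith
  field_simp

end

end Pool.Agent.Y24
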