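import Mathlib

set_option autoImplicit false

/-!
Jensen's formula as a lower bound, and averages over circles whose centre moves on a vertical line.
-/

namespace Pool.Agent.Y24

open Filter MeasureTheory Complex Topology Set Metric Real

noncomputable section

theorem jensen_low {h : ℂ → ℂ} {c : ℂ} {R : ℝ} (hR : 0 < R) (hh : AnalyticOnNhd ℂ h (closedBall c R))
    (hc : h c ≠ 0) (S : Finset ℂ) (m : ℂ → ℕ) (w : ℂ → ℝ)
    (hm : ∀ s ∈ S, s ∈ closedBall c R → m s ≤ analyticOrderNatAt h s)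
    (hw0 : ∀ s ∈ S, 0 ≤ w s)
    (hw : ∀ s ∈ S, s ∈ closedBall c R → w s ≤ Real.log (R * ‖c - s‖⁻¹))
    (hout : ∀ s ∈ S, s ∉ closedBall c R → w s = 0) :
    ∑ s ∈ S, (m s : ℝ) * w s ≤ circleAverage (fun z => Real.log ‖h z‖) c R - Real.log ‖h c‖ := by
  classical
  have habs : |R| = R := abs_of_pos hR
  have h1 := AnalyticOnNhd.circleAverage_log_norm (c := c) (R := R) (f := h) hR.ne' (by rw [habs]; exact hh) hc
  rw [habs] at h1
  have e : circleAverage (fun z => Real.log ‖h z‖) c R - Real.log ‖h c‖ =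
      ∑ᶠ u, ((MeromorphicOn.divisor h (closedBall c R) u : ℤ) : ℝ) * Real.log (R * ‖c - u‖⁻¹) := by
    rw [h1]; ring
  rw [e]
  have hdiv : ∀ u ∈ closedBall c R, MeromorphicOn.divisor h (closedBall c R) u =
      (analyticOrderNatAt h u : ℤ) := by
    intro u hu
    rw [MeromorphicOn.AnalyticOnNhd.divisor_apply hh hu]
    unfold analyticOrderNatAt
    cases h : analyticOrderAt h u with
    | top => simp
    | coe n => simp
  have hfin : (MeromorphicOn.divisor h (closedBall c R)).support.Finite :=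
    (MeromorphicOn.divisor h (closedBall c R)).finiteSupport (isCompact_closedBall c R)
  have hlog : ∀ u ∈ closedBall c R, 0 ≤ Real.log (R * ‖c - u‖⁻¹) := by
    intro u hu
    rw [mem_closedBall, dist_eq_norm'] at hu
    rcases (norm_nonneg (c - u)).eq_or_lt with h0 | h0
    · rw [← h0]; simp
    · apply Real.log_nonneg
      rw [← div_eq_mul_inv, one_le_div h0]; exact hu
  rw [finsum_eq_sum_of_support_subset (s := S ∪ hfin.toFinset)]
  · calc ∑ s ∈ S, (m s : ℝ) * w s ≤ ∑ s ∈ S, ((MeromorphicOn.divisor h (closedBall c R) s : ℤ) : ℝ) *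
          Real.log (R * ‖c - s‖⁻¹) := by
          refine Finset.sum_le_sum fun s hs => ?_
          by_cases hu : s ∈ closedBall c R
          · rw [hdiv s hu]
            have a1 : (m s : ℝ) ≤ ((analyticOrderNatAt h s : ℤ) : ℝ) := by
              have := hm s hs hu
              exact_mod_cast this
            exact mul_le_mul a1 (hw s hs hu) (hw0 s hs) (by positivity)
          · rw [hout s hs hu, Function.locallyFinsuppWithin.apply_eq_zero_of_notMem _ hu]
            simp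
      _ ≤ _ := by
          refine Finset.sum_le_sum_of_subset_of_nonneg Finset.subset_union_left ?_
          intro u _ _
          by_cases hu : u ∈ closedBall c R
          · rw [hdiv u hu]
            exact mul_nonneg (by positivity) (hlog u hu)
          · rw [Function.locallyFinsuppWithin.apply_eq_zero_of_notMem _ hu]
            simp
  · intro u hu
    rw [Finset.coe_union, Set.Finite.coe_toFinset]
    right
    rw [Function.mem_support] at hu ⊢
    intro h0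
    rw [h0] at hu
    simp at hu

/-- `log (1 + x^2) ≤ (3/2) x^{4/3}` -/
lemma log_sq_le {x : ℝ} (hx : 0 ≤ x) : Real.log (1 + x ^ 2) ≤ 3 / 2 * x ^ (4 / 3 : ℝ) := by
  have h1 : (1 + x ^ 2) ^ (2 / 3 : ℝ) ≤ 1 + x ^ (4 / 3 : ℝ) := by
    have h2 : (1 + x ^ 2) ^ (2 / 3 : ℝ) ≤ (1:ℝ) ^ (2 / 3 : ℝ) + (x ^ 2) ^ (2 / 3 : ℝ) :=
      Real.rpow_add_le_add_rpow zero_le_one (sq_nonneg x) (by norm_num) (by norm_num)
    have h3 : (x ^ 2) ^ (2 / 3 : ℝ) = x ^ (4 / 3 : ℝ) := by
      rw [← Real.rpow_natCast, ← Real.rpow_mul hx]; norm_num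
    rw [h3, Real.one_rpow] at h2
    exact h2
  have hpos : 0 < 1 + x ^ 2 := by positivity
  have h4 : Real.log ((1 + x ^ 2) ^ (2 / 3 : ℝ)) = 2 / 3 * Real.log (1 + x ^ 2) := Real.log_rpow hpos _
  have h5 : Real.log ((1 + x ^ 2) ^ (2 / 3 : ℝ)) ≤ x ^ (4 / 3 : ℝ) := by
    have h6 := Real.log_le_sub_one_of_pos (Real.rpow_pos_of_pos hpos (2 / 3 : ℝ))
    linarith
  rw [h4] at h5
  linarith

/-- the logarithm of `1 - f^2` -/
lemma log_one_sub_sq_le (f : ℂ) : Real.log ‖1 - f ^ 2‖ ≤ 3 / 2 * ‖f‖ ^ (4 / 3 : ℝ) := by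
  refine le_trans ?_ (log_sq_le (norm_nonneg f))
  rcases (norm_nonneg (1 - f ^ 2)).eq_or_lt with h0 | h0
  · rw [← h0, Real.log_zero]
    exact Real.log_nonneg (by nlinarith [sq_nonneg ‖f‖])
  · apply Real.log_le_log h0
    calc ‖1 - f ^ 2‖ ≤ ‖(1:ℂ)‖ + ‖f ^ 2‖ := norm_sub_le _ _
      _ = 1 + ‖f‖ ^ 2 := by rw [norm_one, norm_pow]

/-- the logarithm of `1 - f^2` from below -/
lemma log_one_sub_sq_ge {f : ℂ} (hf : ‖f‖ ^ 2 ≤ 1 / 2) : 1 - f ^ 2 ≠ 0 ∧ -(2 * ‖f‖ ^ 2) ≤ Real.log ‖1 - f ^ 2‖ := by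
  have h1 : 1 - ‖f‖ ^ 2 ≤ ‖1 - f ^ 2‖ := by
    have := norm_sub_norm_le (1:ℂ) (f ^ 2)
    rwa [norm_one, norm_pow] at this
  have h2 : 0 < ‖1 - f ^ 2‖ := by linarith
  refine ⟨norm_pos_iff.mp h2, ?_⟩
  have h3 := Real.one_sub_inv_le_log_of_pos h2
  have h4 : (‖1 - f ^ 2‖)⁻¹ ≤ 1 + 2 * ‖f‖ ^ 2 := by
    rw [inv_le_comm₀ h2 (by positivity)]
    refine le_trans ?_ h1
    rw [inv_le_comm₀ (by positivity) (by linarith), inv_eq_one_div, div_le_iff₀ (by linarith)]
    nlinarith [sq_nonneg ‖f‖]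
  linarith

lemma cos_le_quad {u : ℝ} (hu : |u| ≤ π) : 2 * u ^ 2 / π ^ 2 ≤ 1 - Real.cos u := by
  have h1 : 1 - Real.cos u = 2 * Real.sin (|u| / 2) ^ 2 := by
    have h2 := Real.cos_two_mul (|u| / 2)
    have h3 := Real.sin_sq_add_cos_sq (|u| / 2)
    have h4 : Real.cos u = Real.cos (2 * (|u| / 2)) := by
      rw [← Real.cos_abs u]; congr 1; ring
    rw [h4, h2]; nlinarith
  have h5 := Real.mul_le_sin (x := |u| / 2) (by positivity) (by linarith)
  rw [h1]
  have h6 : (2 / π * (|u| / 2)) ^ 2 ≤ Real.sin (|u| / 2) ^ 2 := pow_le_pow_left₀ (by positivity) h5 2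
  have h7 : (2 / π * (|u| / 2)) ^ 2 = u ^ 2 / π ^ 2 := by
    rw [mul_pow, div_pow, div_pow, sq_abs]; field_simp
  rw [h7] at h6
  have h8 : 2 * u ^ 2 / π ^ 2 = 2 * (u ^ 2 / π ^ 2) := by ring
  rw [h8]; linarith

/-- the average of `exp(-κ(1+cos θ))` -/
lemma theta_int {κ : ℝ} (hκ : 0 < κ) :
    ∫ θ in (0:ℝ)..2 * π, Real.exp (-(κ * (1 + Real.cos θ))) ≤ 4 * Real.sqrt (π / κ) := by
  have hpi := Real.pi_pos
  have h1 : ∀ θ ∈ Set.Icc (0:ℝ) (2 * π), Real.exp (-(κ * (1 + Real.cos θ))) ≤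
      Real.exp (-(2 * κ / π ^ 2) * (θ - π) ^ 2) := by
    intro θ hθ
    apply Real.exp_le_exp.mpr
    have h2 := cos_le_quad (u := θ - π) (by rw [abs_le]; constructor <;> linarith [hθ.1, hθ.2])
    rw [Real.cos_sub_pi] at h2
    have h3 : κ * (2 * (θ - π) ^ 2 / π ^ 2) ≤ κ * (1 + Real.cos θ) :=
      mul_le_mul_of_nonneg_left (by linarith) hκ.le
    have h4 : -(2 * κ / π ^ 2) * (θ - π) ^ 2 = -(κ * (2 * (θ - π) ^ 2 / π ^ 2)) := by ring
    rw [h4]; linarith
  have hb : 0 < 2 * κ / π ^ 2 := by positivity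
  have hint : Integrable (fun θ : ℝ => Real.exp (-(2 * κ / π ^ 2) * (θ - π) ^ 2)) :=
    (integrable_exp_neg_mul_sq hb).comp_sub_right π
  calc ∫ θ in (0:ℝ)..2 * π, Real.exp (-(κ * (1 + Real.cos θ)))
      ≤ ∫ θ in (0:ℝ)..2 * π, Real.exp (-(2 * κ / π ^ 2) * (θ - π) ^ 2) := by
        apply intervalIntegral.integral_mono_on (by positivity)
        · exact Continuous.intervalIntegrable (by fun_prop) _ _
        · exact Continuous.intervalIntegrable (by fun_prop) _ _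
        · exact h1
    _ ≤ ∫ θ : ℝ, Real.exp (-(2 * κ / π ^ 2) * (θ - π) ^ 2) := by
        rw [intervalIntegral.integral_of_le (by positivity)]
        exact setIntegral_le_integral hint (Eventually.of_forall fun θ => (Real.exp_pos _).le)
    _ = Real.sqrt (π / (2 * κ / π ^ 2)) := by
        rw [integral_sub_right_eq_self (μ := (volume : Measure ℝ)) (fun y : ℝ => Real.exp (-(2 * κ / π ^ 2) * y ^ 2)) π,
          integral_gaussian]
    _ ≤ 4 * Real.sqrt (π / κ) := by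
        have h5 : π / (2 * κ / π ^ 2) ≤ 4 ^ 2 * (π / κ) := by
          have : π / (2 * κ / π ^ 2) = (π ^ 2 / 2) * (π / κ) := by field_simp
          rw [this]
          have h6 : π ^ 2 / 2 ≤ 4 ^ 2 := by nlinarith [Real.pi_lt_d2]
          exact mul_le_mul_of_nonneg_right h6 (by positivity)
        calc Real.sqrt (π / (2 * κ / π ^ 2)) ≤ Real.sqrt (4 ^ 2 * (π / κ)) := Real.sqrt_le_sqrt h5
          _ = _ := by rw [Real.sqrt_mul (by positivity), Real.sqrt_sq (by norm_num)]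

lemma circle_re (c₀ R t θ : ℝ) : circleMap ((c₀ : ℂ) + (t : ℂ) * I) R θ =
    (((c₀ + R * Real.cos θ : ℝ)) : ℂ) + ((t + R * Real.sin θ : ℝ) : ℂ) * I := by
  unfold circleMap
  rw [Complex.exp_mul_I, ← Complex.ofReal_cos, ← Complex.ofReal_sin]
  push_cast; ring

lemma circle_cont {G : ℂ → ℝ} (hG : ContinuousOn G {z : ℂ | 0 < z.re}) {c₀ R : ℝ} (hR : 0 < R)
    (hcR : 0 < c₀ - R) :
    Continuous (Function.uncurry fun t θ : ℝ => G (circleMap ((c₀ : ℂ) + (t : ℂ) * I) R θ)) := by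
  have h1 : Continuous (fun p : ℝ × ℝ => circleMap ((c₀ : ℂ) + (p.1 : ℂ) * I) R p.2) := by
    unfold circleMap
    fun_prop
  refine hG.comp_continuous h1 ?_
  intro p
  change 0 < (circleMap ((c₀ : ℂ) + (p.1 : ℂ) * I) R p.2).re
  rw [circle_re, Complex.add_re, Complex.ofReal_re, Complex.re_ofReal_mul, Complex.I_re, mul_zero, add_zero]
  have := Real.neg_one_le_cos p.2
  nlinarith

lemma avg_cont {G : ℂ → ℝ} (hG : ContinuousOn G {z : ℂ | 0 < z.re}) {c₀ R : ℝ} (hR : 0 < R)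
    (hcR : 0 < c₀ - R) : Continuous fun t : ℝ => circleAverage G ((c₀ : ℂ) + (t : ℂ) * I) R := by
  have h := circle_cont hG hR hcR
  have h2 : Continuous fun t : ℝ => ∫ θ in (0:ℝ)..2 * π, G (circleMap ((c₀ : ℂ) + (t : ℂ) * I) R θ) :=
    intervalIntegral.continuous_parametric_intervalIntegral_of_continuous' h 0 (2 * π)
  have h3 : (fun t : ℝ => circleAverage G ((c₀ : ℂ) + (t : ℂ) * I) R) =
      fun t : ℝ => (2 * π)⁻¹ * ∫ θ in (0:ℝ)..2 * π, G (circleMap ((c₀ : ℂ) + (t : ℂ) * I) R θ) := by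
    funext t
    rw [Real.circleAverage_def, smul_eq_mul]
  rw [h3]
  exact continuous_const.mul h2

/-- averaging over the centre -/
theorem fub {G : ℂ → ℝ} (hG : ContinuousOn G {z : ℂ | 0 < z.re}) (hG0 : ∀ z, 0 ≤ G z) {c₀ R a b K μ σ : ℝ}
    (hR : 0 < R) (hcR : 0 < c₀ - R) (hab : a ≤ b) (hK : 0 ≤ K) (hμ : 0 < μ)
    (hint : ∀ x : ℝ, c₀ - R ≤ x → x ≤ c₀ + R → Integrable (fun y : ℝ => G ((x : ℂ) + (y : ℂ) * I)))
    (hPhi : ∀ x : ℝ, c₀ - R ≤ x → x ≤ c₀ + R → ∫ y : ℝ, G ((x : ℂ) + (y : ℂ) * I) ≤ K * Real.exp (-(μ * (x - σ)))) :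
    ∫ t in a..b, circleAverage G ((c₀ : ℂ) + (t : ℂ) * I) R ≤
      K * Real.exp (-(μ * (c₀ - R - σ))) * Real.sqrt (π / (μ * R)) := by
  have hpi := Real.pi_pos
  have hre : ∀ t θ : ℝ, circleMap ((c₀ : ℂ) + (t : ℂ) * I) R θ =
      (((c₀ + R * Real.cos θ : ℝ)) : ℂ) + ((t + R * Real.sin θ : ℝ) : ℂ) * I := by
    intro t θ
    unfold circleMap
    rw [Complex.exp_mul_I, ← Complex.ofReal_cos, ← Complex.ofReal_sin]
    push_cast; ring
  have hpos : ∀ θ : ℝ, 0 < c₀ + R * Real.cos θ := by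
    intro θ
    have := Real.neg_one_le_cos θ
    nlinarith
  have hcont : Continuous (Function.uncurry fun t θ : ℝ => G (circleMap ((c₀ : ℂ) + (t : ℂ) * I) R θ)) := by
    have h1 : Continuous (fun p : ℝ × ℝ => circleMap ((c₀ : ℂ) + (p.1 : ℂ) * I) R p.2) := by
      unfold circleMap
      fun_prop
    refine hG.comp_continuous h1 ?_
    intro p
    change 0 < (circleMap ((c₀ : ℂ) + (p.1 : ℂ) * I) R p.2).re
    rw [hre, Complex.add_re, Complex.ofReal_re, Complex.re_ofReal_mul, Complex.I_re, mul_zero, add_zero]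
    exact hpos p.2
  have hswap : ∫ t in a..b, ∫ θ in (0:ℝ)..2 * π, G (circleMap ((c₀ : ℂ) + (t : ℂ) * I) R θ) =
      ∫ θ in (0:ℝ)..2 * π, ∫ t in a..b, G (circleMap ((c₀ : ℂ) + (t : ℂ) * I) R θ) := by
    apply intervalIntegral_intervalIntegral_swap
    have hsub : (uIoc a b ×ˢ uIoc (0:ℝ) (2 * π)) ⊆ (uIcc a b ×ˢ uIcc (0:ℝ) (2 * π)) :=
      Set.prod_mono uIoc_subset_uIcc uIoc_subset_uIcc
    exact (hcont.continuousOn.integrableOn_compact (isCompact_uIcc.prod isCompact_uIcc)).mono_set hsub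
  have hinner : ∀ θ ∈ Set.Icc (0:ℝ) (2 * π), ∫ t in a..b, G (circleMap ((c₀ : ℂ) + (t : ℂ) * I) R θ) ≤
      K * Real.exp (-(μ * (c₀ - R - σ))) * Real.exp (-((μ * R) * (1 + Real.cos θ))) := by
    intro θ _
    have hx1 : c₀ - R ≤ c₀ + R * Real.cos θ := by
      have := Real.neg_one_le_cos θ
      nlinarith
    have hx2 : c₀ + R * Real.cos θ ≤ c₀ + R := by
      have := Real.cos_le_one θ
      nlinarith
    have h1 := hint _ hx1 hx2
    have h2 := hPhi _ hx1 hx2
    have h3 : Integrable (fun t : ℝ => G (circleMap ((c₀ : ℂ) + (t : ℂ) * I) R θ)) := by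
      have := h1.comp_add_right (R * Real.sin θ)
      refine this.congr (Eventually.of_forall fun t => ?_)
      simp only
      rw [hre]
    calc ∫ t in a..b, G (circleMap ((c₀ : ℂ) + (t : ℂ) * I) R θ)
        ≤ ∫ t : ℝ, G (circleMap ((c₀ : ℂ) + (t : ℂ) * I) R θ) := by
          rw [intervalIntegral.integral_of_le hab]
          exact setIntegral_le_integral h3 (Eventually.of_forall fun t => hG0 _)
      _ = ∫ y : ℝ, G (((c₀ + R * Real.cos θ : ℝ) : ℂ) + (y : ℂ) * I) := by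
          rw [← integral_add_right_eq_self (μ := (volume : Measure ℝ))
            (fun y : ℝ => G (((c₀ + R * Real.cos θ : ℝ) : ℂ) + (y : ℂ) * I)) (R * Real.sin θ)]
          refine integral_congr_ae (Eventually.of_forall fun t => ?_)
          simp only
          rw [hre]
      _ ≤ K * Real.exp (-(μ * ((c₀ + R * Real.cos θ) - σ))) := h2
      _ = _ := by
          rw [mul_assoc, ← Real.exp_add]
          congr 2; ring
  have hcirc : ∀ t : ℝ, circleAverage G ((c₀ : ℂ) + (t : ℂ) * I) R =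
      (2 * π)⁻¹ * ∫ θ in (0:ℝ)..2 * π, G (circleMap ((c₀ : ℂ) + (t : ℂ) * I) R θ) := by
    intro t
    rw [Real.circleAverage_def, smul_eq_mul]
  simp_rw [hcirc]
  rw [intervalIntegral.integral_const_mul, hswap]
  have hle : ∫ θ in (0:ℝ)..2 * π, ∫ t in a..b, G (circleMap ((c₀ : ℂ) + (t : ℂ) * I) R θ) ≤
      ∫ θ in (0:ℝ)..2 * π, K * Real.exp (-(μ * (c₀ - R - σ))) * Real.exp (-((μ * R) * (1 + Real.cos θ))) := by
    apply intervalIntegral.integral_mono_on (by positivity)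
    · apply Continuous.intervalIntegrable
      have hc2 : Continuous (Function.uncurry fun θ t : ℝ => G (circleMap ((c₀ : ℂ) + (t : ℂ) * I) R θ)) :=
        hcont.comp continuous_swap
      exact intervalIntegral.continuous_parametric_intervalIntegral_of_continuous' hc2 a b
    · exact Continuous.intervalIntegrable (by fun_prop) _ _
    · exact hinner
  have hth := theta_int (κ := μ * R) (by positivity)
  have hE := (Real.exp_pos (-(μ * (c₀ - R - σ)))).le
  calc (2 * π)⁻¹ * ∫ θ in (0:ℝ)..2 * π, ∫ t in a..b, G (circleMap ((c₀ : ℂ) + (t : ℂ) * I) R θ)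
      ≤ (2 * π)⁻¹ * (K * Real.exp (-(μ * (c₀ - R - σ))) * (4 * Real.sqrt (π / (μ * R)))) := by
        apply mul_le_mul_of_nonneg_left _ (by positivity)
        refine hle.trans ?_
        rw [intervalIntegral.integral_const_mul]
        exact mul_le_mul_of_nonneg_left hth (by positivity)
    _ = (4 / (2 * π)) * (K * Real.exp (-(μ * (c₀ - R - σ))) * Real.sqrt (π / (μ * R))) := by
        field_simp
    _ ≤ 1 * (K * Real.exp (-(μ * (c₀ - R - σ))) * Real.sqrt (π / (μ * R))) := by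
        apply mul_le_mul_of_nonneg_right _ (by positivity)
        rw [div_le_one (by positivity)]
        linarith [Real.pi_gt_three]
    _ = _ := one_mul _

end

end Pool.Agent.Y24
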