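import Pool.Agent.Y24.D4
import Pool.Agent.Y24.E1

set_option autoImplicit false

/-!
Counting zeros in a window.
-/

namespace Pool.Agent.Y24

open Finset Filter MeasureTheory Complex Metric
open Pool.Agent.H306R2.SM (om cl Yf)
open Pool.Agent.H262R4.TM (Rng Ck)
open Pool.Agent.H448R2.GC (cu fs cu_nonneg cu_le_one cu_one cu_zero)

noncomputable section

/-- the weight of a zero -/
lemma weight_le {L σ : ℝ} (hL : 1 ≤ L) (h1 : 1 / 2 ≤ σ) (h2 : σ ≤ 1) {ρ : ℂ} (hρ1 : σ + 1 / L ≤ ρ.re) (hρ2 : ρ.re ≤ 1)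
    {t : ℝ} (ht : |t - ρ.im| ≤ 1 / Real.sqrt L) :
    ρ ∈ closedBall ((3 : ℂ) + (t : ℂ) * I) (3 - σ) ∧
    1 / (7 * L) ≤ Real.log ((3 - σ) * ‖((3 : ℂ) + (t : ℂ) * I) - ρ‖⁻¹) := by
  have hL0 : 0 < L := by linarith
  set R := 3 - σ with hR
  have hR2 : 2 ≤ R := by linarith
  have hR3 : R ≤ 5 / 2 := by linarith
  set d := ‖((3 : ℂ) + (t : ℂ) * I) - ρ‖ with hd
  have hd2 : d ^ 2 = (3 - ρ.re) ^ 2 + (t - ρ.im) ^ 2 := by
    rw [hd, ← Complex.normSq_eq_norm_sq, Complex.normSq_apply]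
    simp
    ring
  have hre1 : 3 - ρ.re ≤ R - 1 / L := by linarith
  have hre2 : 2 ≤ 3 - ρ.re := by linarith
  have ht2 : (t - ρ.im) ^ 2 ≤ 1 / L := by
    have h3 := pow_le_pow_left₀ (abs_nonneg _) ht 2
    rw [sq_abs, div_pow, one_pow, Real.sq_sqrt hL0.le] at h3
    exact h3
  have hinv : 1 / L ≤ 1 := by rw [div_le_one hL0]; exact hL
  have hinv0 : 0 < 1 / L := by positivity
  have hd3 : d ^ 2 ≤ R ^ 2 - 2 * (1 / L) := by
    rw [hd2]
    have h4 : (3 - ρ.re) ^ 2 ≤ (R - 1 / L) ^ 2 := pow_le_pow_left₀ (by linarith) hre1 2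
    nlinarith
  have hdpos : 0 < d := by
    rw [hd, norm_pos_iff]
    intro h
    have := congrArg Complex.re h
    simp at this
    linarith
  have hdR : d ≤ R := by
    apply le_of_sq_le_sq _ (by linarith)
    linarith
  refine ⟨?_, ?_⟩
  · rw [mem_closedBall, dist_eq_norm']; exact hdR
  · have h5 : Real.log (R * d⁻¹) = -(1 / 2 * Real.log (d ^ 2 / R ^ 2)) := by
      rw [← div_eq_mul_inv, ← div_pow, Real.log_pow, Real.log_div (by linarith) hdpos.ne', Real.log_div hdpos.ne' (by linarith)]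
      push_cast; ring
    rw [h5]
    have hR0 : 0 < R ^ 2 := by positivity
    have h6 := Real.log_le_sub_one_of_pos (show 0 < d ^ 2 / R ^ 2 by positivity)
    have h7 : d ^ 2 / R ^ 2 ≤ 1 - 2 * (1 / L) / R ^ 2 := by
      rw [div_le_iff₀ hR0, sub_mul, div_mul_cancel₀ _ hR0.ne']; linarith
    have h8 : 1 / (7 * L) ≤ (1 / L) / R ^ 2 := by
      rw [div_div]
      apply one_div_le_one_div_of_le (by positivity)
      rw [mul_comm]
      gcongr
      nlinarith
    have h9 : 2 * (1 / L) / R ^ 2 = 2 * ((1 / L) / R ^ 2) := by ring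
    rw [h9] at h7
    linarith

lemma pt_jensen {k : ℕ} {c' D T H C1 : ℝ}
    (hright : ∀ s : ℂ, 2 ≤ s.re → ‖riemannZeta s * fs k c' D s - 1‖ ≤ C1 * Real.exp (-((s.re - 2) * D)))
    (hsmall : (C1 * Real.exp (-D)) ^ 2 ≤ 1 / 2) (hH : 3 ≤ H) (hTH : H + 5 ≤ T)
    {L : ℝ} (hL : 1 ≤ L) {σ t : ℝ} (hσ1 : 1 / 2 ≤ σ) (hσ2 : σ ≤ 1) (ht : |t - T| ≤ H) (S : Finset ℂ)
    (hS : ∀ ρ ∈ S, σ + 1 / L ≤ ρ.re ∧ ρ.re ≤ 1) :
    ∑ ρ ∈ S, (analyticOrderNatAt riemannZeta ρ : ℝ) *
      Set.indicator (Set.Icc (ρ.im - 1 / Real.sqrt L) (ρ.im + 1 / Real.sqrt L)) (fun _ => 1 / (7 * L)) t ≤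
      3 / 2 * (2 * Real.exp 4) ^ (4 / 3 : ℝ) *
        Real.circleAverage (fun z => ‖gg k c' D T H z‖ ^ (4 / 3 : ℝ)) ((3 : ℂ) + (t : ℂ) * I) (3 - σ) +
      2 * (C1 * Real.exp (-D)) ^ 2 := by
  have hL0 : 0 < L := by linarith
  set R := 3 - σ with hR
  have hR2 : 2 ≤ R := by linarith
  have hR3 : R ≤ 5 / 2 := by linarith
  have hR0 : 0 < R := by linarith
  set c : ℂ := (3 : ℂ) + (t : ℂ) * I with hc
  have hcre : c.re = 3 := by simp [hc]
  have hcim : c.im = t := by simp [hc]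
  obtain ⟨ht1, ht2⟩ := abs_le.mp ht
  have ht5 : 5 ≤ t := by linarith
  -- points of the ball
  have hball : ∀ z ∈ closedBall c R, 1 / 2 ≤ z.re ∧ z.re ≤ 11 / 2 ∧ 2 ≤ z.im ∧ |z.im - T| ≤ 2 * H := by
    intro z hz
    rw [mem_closedBall_iff_norm] at hz
    have e1 := (Complex.abs_re_le_norm (z - c)).trans hz
    have e2 := (Complex.abs_im_le_norm (z - c)).trans hz
    rw [Complex.sub_re, hcre] at e1
    rw [Complex.sub_im, hcim] at e2
    obtain ⟨a1, a2⟩ := abs_le.mp e1
    obtain ⟨a3, a4⟩ := abs_le.mp e2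
    refine ⟨by linarith, by linarith, by linarith, ?_⟩
    rw [abs_le]; constructor <;> linarith
  have hne : ∀ z : ℂ, 2 ≤ z.im → z ≠ 1 := by
    intro z hz h
    rw [h] at hz; norm_num at hz
  set f : ℂ → ℂ := fun z => riemannZeta z * fs k c' D z - 1 with hf
  set h : ℂ → ℂ := fun z => 1 - f z ^ 2 with hh
  set U : Set ℂ := {z | 1 < z.im} with hU
  have hUo : IsOpen U := isOpen_lt continuous_const Complex.continuous_im
  have hζan : AnalyticOnNhd ℂ riemannZeta U := by
    apply DifferentiableOn.analyticOnNhd _ hUo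
    intro z hz
    have hz1 : z ≠ 1 := by
      intro h; rw [hU, h] at hz; norm_num at hz
    exact (differentiableAt_riemannZeta hz1).differentiableWithinAt
  have hfsan : AnalyticOnNhd ℂ (fs k c' D) U := fun z _ => (fs_diff k c' D).analyticAt z
  have hBU : closedBall c R ⊆ U := fun z hz => by
    have := (hball z hz).2.2.1
    change 1 < z.im
    linarith
  have hfan : AnalyticOnNhd ℂ f U := (hζan.mul hfsan).sub analyticOnNhd_const
  have hhan : AnalyticOnNhd ℂ h U := analyticOnNhd_const.sub (hfan.pow 2)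
  have hhB : AnalyticOnNhd ℂ h (closedBall c R) := hhan.mono hBU
  have hcB : c ∈ closedBall c R := mem_closedBall_self hR0.le
  have hfc : ‖f c‖ ≤ C1 * Real.exp (-D) := by
    have := hright c (by rw [hcre]; norm_num)
    rw [hcre] at this
    have e : (3 - 2 : ℝ) * D = D := by ring
    rw [e] at this
    exact this
  have hfc2 : ‖f c‖ ^ 2 ≤ (C1 * Real.exp (-D)) ^ 2 := pow_le_pow_left₀ (norm_nonneg _) hfc 2
  obtain ⟨hc0, hclog⟩ := log_one_sub_sq_ge (hfc2.trans hsmall)
  have hhc : h c ≠ 0 := hc0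
  have horder : ∀ ρ ∈ closedBall c R, analyticOrderNatAt riemannZeta ρ ≤ analyticOrderNatAt h ρ := by
    intro ρ hρ
    have hρU := hBU hρ
    have h1 : analyticOrderAt h ρ ≠ ⊤ :=
      AnalyticOnNhd.analyticOrderAt_ne_top_of_isPreconnected hhB (convex_closedBall c R).isPreconnected hcB hρ
        (by rw [(hhB c hcB).analyticOrderAt_eq_zero.mpr hhc]; simp)
    set q : ℂ → ℂ := fun z => fs k c' D z * (2 - riemannZeta z * fs k c' D z) with hq
    have hqan : AnalyticAt ℂ q ρ :=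
      (hfsan ρ hρU).mul (analyticAt_const.sub ((hζan ρ hρU).mul (hfsan ρ hρU)))
    have hprod : h = riemannZeta * q := by
      funext z
      simp only [hh, hf, hq, Pi.mul_apply]
      ring
    have h2 := analyticOrderAt_mul (hζan ρ hρU) hqan
    rw [← hprod] at h2
    have h3 : analyticOrderAt riemannZeta ρ ≠ ⊤ := by
      intro h4; rw [h4, top_add] at h2; exact h1 h2
    have h4 : analyticOrderAt q ρ ≠ ⊤ := by
      intro h5; rw [h5, add_top] at h2; exact h1 h2
    rw [hprod, analyticOrderNatAt_mul (hζan ρ hρU) hqan h3 h4]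
    omega
  have hJ := jensen_low (h := h) (c := c) (R := R) hR0 hhB hhc S (analyticOrderNatAt riemannZeta)
    (fun ρ => Set.indicator (Set.Icc (ρ.im - 1 / Real.sqrt L) (ρ.im + 1 / Real.sqrt L)) (fun _ => 1 / (7 * L)) t)
    (fun ρ _ hρ => horder ρ hρ)
    (fun ρ _ => Set.indicator_nonneg (fun _ _ => by positivity) _)
    (fun ρ hρ hρB => by
      by_cases hm : t ∈ Set.Icc (ρ.im - 1 / Real.sqrt L) (ρ.im + 1 / Real.sqrt L)
      · rw [Set.indicator_of_mem hm]
        exact (weight_le hL hσ1 hσ2 (hS ρ hρ).1 (hS ρ hρ).2 (by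
          rw [abs_le]; constructor <;> linarith [hm.1, hm.2])).2
      · rw [Set.indicator_of_notMem hm]
        rw [mem_closedBall, dist_eq_norm'] at hρB
        have hpos : 0 < ‖c - ρ‖ := by
          rw [norm_pos_iff]
          intro h5
          have := congrArg Complex.re h5
          rw [Complex.sub_re, hcre] at this
          have := (hS ρ hρ).2
          simp at *
          linarith
        apply Real.log_nonneg
        rw [← div_eq_mul_inv, one_le_div hpos]; exact hρB)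
    (fun ρ hρ hρB => by
      apply Set.indicator_of_notMem
      intro hm
      exact hρB (weight_le hL hσ1 hσ2 (hS ρ hρ).1 (hS ρ hρ).2 (by
          rw [abs_le]; constructor <;> linarith [hm.1, hm.2])).1)
  refine hJ.trans ?_
  -- the circle average
  set K := 3 / 2 * (2 * Real.exp 4) ^ (4 / 3 : ℝ) with hK
  set G : ℂ → ℝ := fun z => ‖gg k c' D T H z‖ ^ (4 / 3 : ℝ) with hG
  have hsph : ∀ z ∈ sphere c |R|, Real.log ‖h z‖ ≤ K * G z := by
    intro z hz
    rw [abs_of_pos hR0] at hz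
    obtain ⟨b1, b2, b3, b4⟩ := hball z (sphere_subset_closedBall hz)
    refine (log_one_sub_sq_le (f z)).trans ?_
    have hz1 := hne z b3
    have hzm : 2 ≤ ‖z - 1‖ := by
      have := Complex.abs_im_le_norm (z - 1)
      rw [Complex.sub_im, Complex.one_im, sub_zero] at this
      have := le_abs_self z.im
      linarith
    have hFF : ‖f z‖ ≤ 2 * ‖FF k c' D z‖ := by
      rw [FF_ne hz1, norm_mul, norm_div]
      have e1 : ‖z + 1‖ ≤ 2 * ‖z - 1‖ := by
        have e2 : z + 1 = (z - 1) + 2 := by ring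
        calc ‖z + 1‖ = ‖(z - 1) + 2‖ := by rw [← e2]
          _ ≤ ‖z - 1‖ + ‖(2:ℂ)‖ := norm_add_le _ _
          _ ≤ 2 * ‖z - 1‖ := by rw [Complex.norm_ofNat]; linarith
      have e3 : 0 < ‖z + 1‖ := by
        rw [norm_pos_iff]
        intro h5
        have := congrArg Complex.re h5
        simp at this
        linarith
      have e4 : 1 ≤ 2 * (‖z - 1‖ / ‖z + 1‖) := by
        rw [← mul_div_assoc, le_div_iff₀ e3]; linarith
      calc ‖f z‖ = 1 * ‖f z‖ := (one_mul _).symm
        _ ≤ 2 * (‖z - 1‖ / ‖z + 1‖) * ‖f z‖ := by gcongr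
        _ = _ := by rw [hf]; ring
    have hgg : ‖FF k c' D z‖ ≤ Real.exp 4 * ‖gg k c' D T H z‖ := by
      rw [norm_gg]
      have e1 : ((z.im - T) / H) ^ 2 ≤ 4 := by
        have e2 : |(z.im - T) / H| ≤ 2 := by
          rw [abs_div, abs_of_pos (show 0 < H by linarith), div_le_iff₀ (by linarith)]
          exact b4
        have e3 := pow_le_pow_left₀ (abs_nonneg _) e2 2
        rw [sq_abs] at e3
        linarith
      have e4 : 1 ≤ Real.exp 4 * (Real.exp ((z.re / H) ^ 2) * Real.exp (-((z.im - T) / H) ^ 2)) := by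
        rw [← Real.exp_add, ← Real.exp_add, ← Real.exp_zero]
        apply Real.exp_le_exp.mpr
        have := sq_nonneg (z.re / H)
        linarith
      calc ‖FF k c' D z‖ = ‖FF k c' D z‖ * 1 := (mul_one _).symm
        _ ≤ ‖FF k c' D z‖ * (Real.exp 4 * (Real.exp ((z.re / H) ^ 2) * Real.exp (-((z.im - T) / H) ^ 2))) := by
            gcongr
        _ = _ := by ring
    have hfg : ‖f z‖ ≤ (2 * Real.exp 4) * ‖gg k c' D T H z‖ := by
      calc ‖f z‖ ≤ 2 * ‖FF k c' D z‖ := hFF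
        _ ≤ 2 * (Real.exp 4 * ‖gg k c' D T H z‖) := by gcongr
        _ = _ := by ring
    calc 3 / 2 * ‖f z‖ ^ (4 / 3 : ℝ) ≤ 3 / 2 * ((2 * Real.exp 4) * ‖gg k c' D T H z‖) ^ (4 / 3 : ℝ) := by
          gcongr
      _ = K * G z := by
          rw [Real.mul_rpow (by positivity) (norm_nonneg _), hK, hG]; ring
  have hGc : ContinuousOn G {z : ℂ | 0 < z.re} := by
    intro z hz
    have h1 : ContinuousAt (gg k c' D T H) z := (gg_diff hz).continuousAt
    exact (h1.norm.rpow_const (Or.inr (by norm_num))).continuousWithinAt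
  have hsub : sphere c |R| ⊆ {z : ℂ | 0 < z.re} := by
    intro z hz
    rw [abs_of_pos hR0] at hz
    have := (hball z (sphere_subset_closedBall hz)).1
    change 0 < z.re
    linarith
  have hci2 : CircleIntegrable (fun z => K * G z) c R := by
    apply ContinuousOn.circleIntegrable'
    exact (continuousOn_const.mul hGc).mono hsub
  have hci1 : CircleIntegrable (fun z => Real.log ‖h z‖) c R := by
    apply MeromorphicOn.circleIntegrable_log_norm
    rw [abs_of_pos hR0]
    exact (hhB.mono sphere_subset_closedBall).meromorphicOn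
  have hmono := Real.circleAverage_mono hci1 hci2 hsph
  have hK2 : Real.circleAverage (fun z => K * G z) c R = K * Real.circleAverage G c R := by
    have := Real.circleAverage_fun_smul (a := K) (f := G) (c := c) (R := R)
    simpa [smul_eq_mul] using this
  rw [hK2] at hmono
  linarith

end

end Pool.Agent.Y24
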