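import Pool.Agent.Y24.E2

set_option autoImplicit false

/-!
The number of zeros in a window.
-/

namespace Pool.Agent.Y24

open Finset Filter MeasureTheory Complex Metric
open Pool.Agent.H306R2.SM (om cl Yf)
open Pool.Agent.H262R4.TM (Rng Ck)
open Pool.Agent.H448R2.GC (cu fs cu_nonneg cu_le_one cu_one cu_zero)

noncomputable section

lemma line_int43 {k : ℕ} {c D T H A : ℝ} (hc : 0 < c) (hD : 0 ≤ D) (hT : 0 ≤ T) (hH : 0 < H) {x : ℝ}
    (hx : 0 < x) (hxA : x ≤ A) :
    Integrable (fun y : ℝ => ‖gg k c D T H ((x : ℂ) + (y : ℂ) * I)‖ ^ (4 / 3 : ℝ)) := by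
  obtain ⟨C, hS⟩ := gg_SD (k := k) (c := c) (D := D) (T := T) (H := H) (A := A) hc hD hT hH
  have hC := hS.C0
  have hre : ∀ y : ℝ, ((x : ℂ) + (y : ℂ) * I).re = x := fun y => by simp
  have him : ∀ y : ℝ, ((x : ℂ) + (y : ℂ) * I).im = y := fun y => by simp
  have hcont : Continuous fun y : ℝ => gg k c D T H ((x : ℂ) + (y : ℂ) * I) := by
    refine continuous_iff_continuousAt.mpr fun y => ?_
    have hd := (gg_diff (k := k) (c := c) (D := D) (T := T) (H := H) (z := (x : ℂ) + (y : ℂ) * I)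
      (by rw [hre]; exact hx)).continuousAt
    exact ContinuousAt.comp (f := fun y : ℝ => (x : ℂ) + (y : ℂ) * I) hd (by fun_prop)
  have hcont2 : Continuous fun y : ℝ => ‖gg k c D T H ((x : ℂ) + (y : ℂ) * I)‖ ^ (4 / 3 : ℝ) :=
    hcont.norm.rpow_const fun y => Or.inr (by norm_num)
  have hb : Integrable (fun y : ℝ => C ^ (4 / 3 : ℝ) * (1 + y ^ 2)⁻¹) := integrable_inv_one_add_sq.const_mul _
  refine hb.mono' hcont2.aestronglyMeasurable (Eventually.of_forall fun y => ?_)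
  rw [Real.norm_eq_abs, abs_of_nonneg (Real.rpow_nonneg (norm_nonneg _) _)]
  have h1 := hS.dec ((x : ℂ) + (y : ℂ) * I) (by rw [hre]; linarith) (by rw [hre]; linarith)
  rw [him] at h1
  have h2 : 0 < 1 + y ^ 2 := by positivity
  have h3 : 1 / (1 + y ^ 2) ≤ 1 := by rw [div_le_one h2]; nlinarith [sq_nonneg y]
  calc ‖gg k c D T H ((x : ℂ) + (y : ℂ) * I)‖ ^ (4 / 3 : ℝ) ≤ (C * (1 / (1 + y ^ 2))) ^ (4 / 3 : ℝ) :=
        Real.rpow_le_rpow (norm_nonneg _) h1 (by norm_num)
    _ = C ^ (4 / 3 : ℝ) * (1 / (1 + y ^ 2)) ^ (4 / 3 : ℝ) := Real.mul_rpow hC (by positivity)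
    _ ≤ C ^ (4 / 3 : ℝ) * (1 / (1 + y ^ 2)) ^ (1 : ℝ) := by
        apply mul_le_mul_of_nonneg_left _ (Real.rpow_nonneg hC _)
        exact Real.rpow_le_rpow_of_exponent_ge (by positivity) h3 (by norm_num)
    _ = _ := by rw [Real.rpow_one, one_div]

lemma ind_int {a b u v w : ℝ} (hu : a < u) (huv : u ≤ v) (hv : v ≤ b) :
    ∫ t in a..b, Set.indicator (Set.Icc u v) (fun _ => w) t = (v - u) * w := by
  rw [intervalIntegral.integral_of_le (by linarith), setIntegral_indicator measurableSet_Icc]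
  have h1 : Set.Ioc a b ∩ Set.Icc u v = Set.Icc u v := by
    apply Set.inter_eq_right.mpr
    intro t ht
    exact ⟨by linarith [ht.1], by linarith [ht.2]⟩
  rw [h1, setIntegral_const, Real.volume_real_Icc_of_le huv, smul_eq_mul]

/-- zeros in a window -/
theorem window {q0 : ℝ} (hq0 : 1 / 2 ≤ q0) (hq1 : q0 < 1) : ∃ C : ℝ, 0 < C ∧ ∀ᶠ T : ℝ in atTop,
    ∀ σ : ℝ, 1 / 2 ≤ σ → σ ≤ 1 → ∀ S : Finset ℂ,
    (∀ ρ ∈ S, σ + 1 / Real.log T ≤ ρ.re ∧ ρ.re ≤ 1 ∧ |ρ.im - T| ≤ T / (4 * Real.log T)) →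
    ∑ ρ ∈ S, (analyticOrderNatAt riemannZeta ρ : ℝ) ≤
      C * T * Real.exp (-(4 / 3 * q0 * (σ - 1 / 2) * Real.log T)) := by
  set r : ℝ := 2 * q0 / (1 + q0) with hr
  have hr1 : r < 1 := by rw [hr, div_lt_one (by linarith)]; linarith
  have hr0 : 0 < r := by rw [hr]; positivity
  set A : ℝ := 2 / (1 - r) + 6 with hA
  have hA6 : 6 ≤ A := by
    rw [hA]
    have : 0 ≤ 2 / (1 - r) := div_nonneg (by norm_num) (by linarith)
    linarith
  have hAr : r ≤ (A - 2) / (A - 1 / 2) := by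
    rw [le_div_iff₀ (by linarith)]
    have h1 : A * (1 - r) = 2 + 6 * (1 - r) := by
      rw [hA, add_mul, div_mul_cancel₀ _ (by linarith)]
    nlinarith
  have hA1 : (A - 2) / (A - 1 / 2) ≤ 1 := by
    rw [div_le_one (by linarith)]; linarith
  set ε : ℝ := (1 - q0) / 4 with hε
  have hε0 : 0 < ε := by rw [hε]; linarith
  have hε1 : 1 - 2 * ε = (1 + q0) / 2 := by rw [hε]; ring
  set s := (A - 2) / (A - 1 / 2) with hs
  have hsq : q0 ≤ s * (1 - 2 * ε) := by
    rw [hε1]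
    calc q0 = r * ((1 + q0) / 2) := by rw [hr]; field_simp
      _ ≤ _ := by apply mul_le_mul_of_nonneg_right hAr; linarith
  have hs0 : 0 < s := hr0.trans_le hAr
  obtain ⟨C, hC, hconv⟩ := conv_gg (A := A) (by linarith) 5 le_rfl ε ε hε0 hε0
  obtain ⟨C1, hC1, hright⟩ := right_pt
  set K := 3 / 2 * (2 * Real.exp 4) ^ (4 / 3 : ℝ) with hK
  have hK0 : 0 < K := by positivity
  refine ⟨7 / 4 * (2 * K * C + 4 * C1 ^ 2), by positivity, ?_⟩
  have evL1 : ∀ᶠ T : ℝ in atTop, (16 + 4 * C1 ^ 2 : ℝ) ≤ Real.log T :=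
    Real.tendsto_log_atTop.eventually_ge_atTop _
  have evT : ∀ᶠ T : ℝ in atTop, 8 * Real.log T ≤ T := by
    have h := Real.isLittleO_log_id_atTop.bound (show (0:ℝ) < 1 / 8 by norm_num)
    filter_upwards [h, eventually_ge_atTop 1] with T hT hT1
    simp only [id, Real.norm_eq_abs, abs_of_nonneg (Real.log_nonneg hT1), abs_of_nonneg (zero_le_one.trans hT1)] at hT
    linarith
  filter_upwards [hconv, evL1, evT] with T hconv hL16 hTL σ hσ1 hσ2 S hS
  set L := Real.log T with hLdef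
  have hL16' : 16 ≤ L := by nlinarith [sq_nonneg C1]
  have hL0 : 0 < L := by linarith
  have hT128 : 128 ≤ T := by linarith
  have hT0 : 0 < T := by linarith
  set H := T / (2 * L) with hH
  have hH0 : 0 < H := by positivity
  have hH4 : 4 ≤ H := by rw [hH, le_div_iff₀ (by positivity)]; linarith
  have hH5 : H + 5 ≤ T := by
    have h1 : H ≤ T / 32 := by
      rw [hH]; apply div_le_div_of_nonneg_left hT0.le (by norm_num); linarith
    linarith
  set D := (1 - 2 * ε) * L with hD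
  have hD34 : 3 / 4 * L ≤ D := by
    rw [hD, hε1]; apply mul_le_mul_of_nonneg_right _ hL0.le; linarith
  have hD0 : 0 ≤ D := by linarith
  have hDc : D + ε * L ≤ (1 - ε) * L := by rw [hD]; linarith
  set c' : ℝ := ε * L / ((5:ℕ) : ℝ) with hc'
  have hc'0 : 0 < c' := by positivity
  set μ := 4 / 3 * s * D with hμ
  have hμL : 4 / 3 * q0 * L ≤ μ := by
    rw [hμ, hD]
    have : 4 / 3 * s * ((1 - 2 * ε) * L) = 4 / 3 * (s * (1 - 2 * ε)) * L := by ring
    rw [this]
    gcongr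
  have hμ0 : 0 < μ := by
    have : 0 < 4 / 3 * q0 * L := by positivity
    linarith
  have hμ1 : L / 2 ≤ μ := by
    have : 2 / 3 * L ≤ 4 / 3 * q0 * L := by
      apply mul_le_mul_of_nonneg_right _ hL0.le; linarith
    linarith
  have hμD : μ ≤ 4 / 3 * D := by
    rw [hμ]
    calc 4 / 3 * s * D ≤ 4 / 3 * 1 * D := by gcongr
      _ = _ := by ring
  set G : ℂ → ℝ := fun z => ‖gg 5 c' D T H z‖ ^ (4 / 3 : ℝ) with hG
  have hGc : ContinuousOn G {z : ℂ | 0 < z.re} := by
    intro z hz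
    have h1 : ContinuousAt (gg 5 c' D T H) z := (gg_diff hz).continuousAt
    exact (h1.norm.rpow_const (Or.inr (by norm_num))).continuousWithinAt
  set R := 3 - σ with hR
  have hR2 : 2 ≤ R := by linarith
  have hR3 : R ≤ 5 / 2 := by linarith
  have hfub := fub (G := G) hGc (fun z => Real.rpow_nonneg (norm_nonneg _) _) (c₀ := 3) (R := R) (a := T - H) (b := T + H)
    (K := C * H) (μ := μ) (σ := 1 / 2) (by linarith) (by linarith) (by linarith) (by positivity) hμ0
    (fun x hx1 hx2 => line_int43 (A := x) hc'0 hD0 hT0.le hH0 (by linarith) le_rfl)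
    (fun x hx1 hx2 => by
      have := hconv D hD0 hDc x (by linarith) (by linarith)
      refine this.trans (le_of_eq ?_)
      rw [hμ]
      congr 2
      ring)
  have h3 : (3:ℝ) - R - 1 / 2 = σ - 1 / 2 := by rw [hR]; ring
  rw [h3] at hfub
  set E := Real.exp (-(μ * (σ - 1 / 2))) with hE
  have hE0 : 0 < E := Real.exp_pos _
  have hsqL : 0 < Real.sqrt L := Real.sqrt_pos.mpr hL0
  have hsq1 : 1 ≤ Real.sqrt L := Real.one_le_sqrt.mpr (by linarith)
  have hsqr : Real.sqrt (Real.pi / (μ * R)) ≤ 2 / Real.sqrt L := by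
    have h1 : Real.pi / (μ * R) ≤ 2 ^ 2 / L := by
      rw [div_le_div_iff₀ (by positivity) hL0]
      have h2 : L / 2 * 2 ≤ μ * R := by gcongr
      nlinarith [Real.pi_lt_four]
    calc Real.sqrt (Real.pi / (μ * R)) ≤ Real.sqrt (2 ^ 2 / L) := Real.sqrt_le_sqrt h1
      _ = _ := by rw [Real.sqrt_div (by positivity), Real.sqrt_sq (by norm_num)]
  -- smallness of the terms at the centre
  have hexpD : Real.exp (-(4 / 3 * D)) ≤ 1 / Real.sqrt L := by
    rw [le_div_iff₀ hsqL, Real.exp_neg, inv_mul_le_iff₀ (Real.exp_pos _), mul_one]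
    have h1 := Real.add_one_le_exp (4 / 3 * D)
    have h2 : Real.sqrt L ≤ L := by
      rw [Real.sqrt_le_left hL0.le]; nlinarith
    linarith
  have hcen : (C1 * Real.exp (-D)) ^ 2 ≤ C1 ^ 2 * (E * (1 / Real.sqrt L)) := by
    rw [mul_pow]
    have h1 : Real.exp (-D) ^ 2 = Real.exp (-(2 / 3 * D)) * Real.exp (-(4 / 3 * D)) := by
      rw [← Real.exp_add, ← Real.exp_nat_mul]; congr 1; push_cast; ring
    rw [h1]
    have h2 : Real.exp (-(2 / 3 * D)) ≤ E := by
      apply Real.exp_le_exp.mpr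
      have h4 : μ * (σ - 1 / 2) ≤ μ * (1 / 2) := mul_le_mul_of_nonneg_left (by linarith) hμ0.le
      linarith
    gcongr
  have hsmall : (C1 * Real.exp (-D)) ^ 2 ≤ 1 / 2 := by
    have h1 : Real.exp (-D) ^ 2 ≤ 1 / L := by
      rw [← Real.exp_nat_mul, le_div_iff₀ hL0]
      have h2 : ((2:ℕ):ℝ) * -D = -(2 * D) := by push_cast; ring
      rw [h2, Real.exp_neg, inv_mul_le_iff₀ (Real.exp_pos _), mul_one]
      have h4 := Real.add_one_le_exp (2 * D)
      linarith
    rw [mul_pow]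
    calc C1 ^ 2 * Real.exp (-D) ^ 2 ≤ C1 ^ 2 * (1 / L) := by gcongr
      _ ≤ 1 / 2 := by
        rw [mul_one_div, div_le_iff₀ hL0]
        linarith
  -- the pointwise inequality
  have hpt : ∀ t ∈ Set.Icc (T - H) (T + H), ∑ ρ ∈ S, (analyticOrderNatAt riemannZeta ρ : ℝ) *
      Set.indicator (Set.Icc (ρ.im - 1 / Real.sqrt L) (ρ.im + 1 / Real.sqrt L)) (fun _ => 1 / (7 * L)) t ≤
      K * Real.circleAverage G (((3:ℝ) : ℂ) + (t : ℂ) * I) R + 2 * (C1 * Real.exp (-D)) ^ 2 := by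
    intro t ht
    exact pt_jensen (k := 5) (c' := c') (D := D) (T := T) (H := H) (C1 := C1)
      (fun s hs => hright 5 c' D hc'0 hD0 s hs) hsmall (by linarith) hH5 (L := L) (by linarith) hσ1 hσ2
      (by rw [abs_le]; constructor <;> linarith [ht.1, ht.2]) S (fun ρ hρ => ⟨(hS ρ hρ).1, (hS ρ hρ).2.1⟩)
  have hintL : IntervalIntegrable (fun t => ∑ ρ ∈ S, (analyticOrderNatAt riemannZeta ρ : ℝ) *
      Set.indicator (Set.Icc (ρ.im - 1 / Real.sqrt L) (ρ.im + 1 / Real.sqrt L)) (fun _ => 1 / (7 * L)) t) volume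
      (T - H) (T + H) := by
    have hh : ∀ ρ ∈ S, IntervalIntegrable (fun t => (analyticOrderNatAt riemannZeta ρ : ℝ) *
      Set.indicator (Set.Icc (ρ.im - 1 / Real.sqrt L) (ρ.im + 1 / Real.sqrt L)) (fun _ => 1 / (7 * L)) t) volume
      (T - H) (T + H) := by
      intro ρ _
      apply IntervalIntegrable.const_mul
      have : Integrable (Set.indicator (Set.Icc (ρ.im - 1 / Real.sqrt L) (ρ.im + 1 / Real.sqrt L)) (fun _ => 1 / (7 * L))) := by
        rw [integrable_indicator_iff measurableSet_Icc]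
        exact integrableOn_const (by simp)
      exact this.intervalIntegrable
    have h5 := IntervalIntegrable.sum S hh
    have e : (∑ ρ ∈ S, fun t => (analyticOrderNatAt riemannZeta ρ : ℝ) *
      Set.indicator (Set.Icc (ρ.im - 1 / Real.sqrt L) (ρ.im + 1 / Real.sqrt L)) (fun _ => 1 / (7 * L)) t) =
      (fun t => ∑ ρ ∈ S, (analyticOrderNatAt riemannZeta ρ : ℝ) *
      Set.indicator (Set.Icc (ρ.im - 1 / Real.sqrt L) (ρ.im + 1 / Real.sqrt L)) (fun _ => 1 / (7 * L)) t) := by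
      funext t
      simp
    rw [e] at h5
    exact h5
  have havgc := avg_cont (G := G) hGc (c₀ := 3) (R := R) (by linarith) (by linarith)
  have hcK : Continuous fun t : ℝ => K * Real.circleAverage G (((3:ℝ) : ℂ) + (t : ℂ) * I) R :=
    continuous_const.mul havgc
  have hcK2 : Continuous fun t : ℝ => K * Real.circleAverage G (((3:ℝ) : ℂ) + (t : ℂ) * I) R +
      2 * (C1 * Real.exp (-D)) ^ 2 := hcK.add continuous_const
  have hI := intervalIntegral.integral_mono_on (μ := volume) (by linarith : T - H ≤ T + H) hintL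
    (hcK2.intervalIntegrable _ _) hpt
  rw [intervalIntegral.integral_finsetSum (fun ρ hρ => by
      apply IntervalIntegrable.const_mul
      have : Integrable (Set.indicator (Set.Icc (ρ.im - 1 / Real.sqrt L) (ρ.im + 1 / Real.sqrt L)) (fun _ => 1 / (7 * L))) := by
        rw [integrable_indicator_iff measurableSet_Icc]
        exact integrableOn_const (by simp)
      exact this.intervalIntegrable)] at hI
  have hlhs : ∑ ρ ∈ S, ∫ t in (T - H)..(T + H), (analyticOrderNatAt riemannZeta ρ : ℝ) *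
      Set.indicator (Set.Icc (ρ.im - 1 / Real.sqrt L) (ρ.im + 1 / Real.sqrt L)) (fun _ => 1 / (7 * L)) t =
      (∑ ρ ∈ S, (analyticOrderNatAt riemannZeta ρ : ℝ)) * (2 / (7 * (L * Real.sqrt L))) := by
    rw [Finset.sum_mul]
    refine Finset.sum_congr rfl fun ρ hρ => ?_
    obtain ⟨_, _, hg⟩ := hS ρ hρ
    obtain ⟨g1, g2⟩ := abs_le.mp hg
    have hHH : T / (4 * L) = H / 2 := by rw [hH]; field_simp; norm_num
    rw [hHH] at g1 g2
    have hsl : 1 / Real.sqrt L ≤ 1 := by rw [div_le_one hsqL]; exact hsq1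
    have hsl0 : 0 < 1 / Real.sqrt L := by positivity
    rw [intervalIntegral.integral_const_mul, ind_int (by linarith) (by linarith) (by linarith)]
    field_simp
    ring
  rw [hlhs] at hI
  have hrhs : ∫ t in (T - H)..(T + H), (K * Real.circleAverage G (((3:ℝ) : ℂ) + (t : ℂ) * I) R + 2 * (C1 * Real.exp (-D)) ^ 2) ≤
      H * E / Real.sqrt L * (2 * K * C + 4 * C1 ^ 2) := by
    rw [intervalIntegral.integral_add (hcK.intervalIntegrable _ _)
      (continuous_const.intervalIntegrable _ _), intervalIntegral.integral_const_mul,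
      intervalIntegral.integral_const]
    have e1 : T + H - (T - H) = 2 * H := by ring
    rw [e1, smul_eq_mul]
    calc K * (∫ t in (T - H)..(T + H), Real.circleAverage G (((3:ℝ) : ℂ) + (t : ℂ) * I) R) + 2 * H * (2 * (C1 * Real.exp (-D)) ^ 2)
        ≤ K * (C * H * E * (2 / Real.sqrt L)) + 2 * H * (2 * (C1 ^ 2 * (E * (1 / Real.sqrt L)))) := by
          gcongr
          refine hfub.trans ?_
          gcongr
      _ = _ := by field_simp; ring
  have hfin := hI.trans hrhs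
  have hN : ∑ ρ ∈ S, (analyticOrderNatAt riemannZeta ρ : ℝ) ≤ 7 / 4 * (2 * K * C + 4 * C1 ^ 2) * T * E := by
    have h4 : 0 < 2 / (7 * (L * Real.sqrt L)) := by positivity
    rw [← le_div_iff₀ h4] at hfin
    refine hfin.trans (le_of_eq ?_)
    rw [hH]
    field_simp
    ring
  refine hN.trans ?_
  have hE2 : E ≤ Real.exp (-(4 / 3 * q0 * (σ - 1 / 2) * L)) := by
    apply Real.exp_le_exp.mpr
    have h4 : 4 / 3 * q0 * L * (σ - 1 / 2) ≤ μ * (σ - 1 / 2) := mul_le_mul_of_nonneg_right hμL (by linarith)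
    linarith
  gcongr

end

end Pool.Agent.Y24
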