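import Pool.Agent.Y24.E3

set_option autoImplicit false

/-!
The total number of zeros.
-/

namespace Pool.Agent.Y24

open Finset Filter MeasureTheory Complex Metric Topology
open Pool.Agent.H448R2.GC (cu fs cu_nonneg cu_le_one cu_one cu_zero)

noncomputable section

/-- the zeros of the Riemann zeta function with real part at least `σ` and imaginary part in `(0, T]` -/
def ZZ (σ T : ℝ) : Set ℂ := {ρ : ℂ | riemannZeta ρ = 0 ∧ σ ≤ ρ.re ∧ 0 < ρ.im ∧ ρ.im ≤ T}

lemma re_lt_one {ρ : ℂ} (h : riemannZeta ρ = 0) : ρ.re < 1 := by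
  by_contra hcon
  push Not at hcon
  exact riemannZeta_ne_zero_of_one_le_re hcon h

lemma ZZ_fin (σ T : ℝ) : (ZZ σ T).Finite := by
  have hK : IsCompact (Set.Icc σ 1 ×ℂ Set.Icc 0 T) := isCompact_Icc.reProdIm isCompact_Icc
  by_contra hinf
  have hsub : ZZ σ T ⊆ Set.Icc σ 1 ×ℂ Set.Icc 0 T := by
    intro ρ hρ
    obtain ⟨h1, h2, h3, h4⟩ := hρ
    exact ⟨⟨h2, (re_lt_one h1).le⟩, ⟨h3.le, h4⟩⟩
  obtain ⟨z₀, _, hz₀⟩ := Set.Infinite.exists_accPt_of_subset_isCompact hinf hK hsub
  have han : AnalyticOnNhd ℂ Z1 Set.univ := fun z _ => Z1_diff.analyticAt z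
  have hfr : ∃ᶠ z in 𝓝[≠] z₀, Z1 z = 0 := by
    have h1 := accPt_iff_frequently_nhdsNE.mp hz₀
    refine h1.mono fun z hz => ?_
    have hz1 : z ≠ 1 := by
      intro h
      have := hz.2.2.1
      rw [h] at this; norm_num at this
    rw [Z1_ne hz1, hz.1, mul_zero]
  have h2 := han.eqOn_zero_of_preconnected_of_frequently_eq_zero isPreconnected_univ
    (Set.mem_univ z₀) hfr (Set.mem_univ (2:ℂ))
  simp only [Pi.zero_apply] at h2
  rw [Z1_ne (by norm_num)] at h2
  have h3 : riemannZeta 2 ≠ 0 := riemannZeta_ne_zero_of_one_le_re (by norm_num)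
  have h4 : (2:ℂ) - 1 ≠ 0 := by norm_num
  exact (mul_ne_zero h4 h3) h2

lemma zeta_lower : ∃ c : ℝ, 0 < c ∧ ∀ s : ℂ, 2 ≤ s.re → c ≤ ‖riemannZeta s‖ := by
  have hsum : Summable (fun n : ℕ => 1 / ((n:ℝ) ^ 2)) := Real.summable_one_div_nat_pow.mpr (by norm_num)
  set S := ∑' n : ℕ, 1 / ((n:ℝ) ^ 2) with hS
  have hS0 : 0 ≤ S := tsum_nonneg fun n => by positivity
  refine ⟨1 / (S + 1), by positivity, fun s hs => ?_⟩
  have hs1 : 1 < s.re := by linarith
  have hmu : riemannZeta s * LSeries (fun n => ((ArithmeticFunction.moebius n : ℤ) : ℂ)) s = 1 := by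
    have h := ArithmeticFunction.LSeries_zeta_mul_Lseries_moebius hs1
    rwa [ArithmeticFunction.LSeries_zeta_eq_riemannZeta hs1] at h
  have hun : ∀ n : ℕ, ‖LSeries.term (fun n => ((ArithmeticFunction.moebius n : ℤ) : ℂ)) s n‖ ≤ 1 / ((n:ℝ) ^ 2) := by
    intro n
    rcases Nat.eq_zero_or_pos n with h0 | h0
    · rw [h0]; simp
    · rw [LSeries.term_of_ne_zero (by omega), norm_div]
      have h3 := Pool.Agent.H448R2.GC.F0.norm_moebius_le n
      rw [Complex.norm_natCast_cpow_of_pos h0]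
      have hn1 : (1:ℝ) ≤ n := by exact_mod_cast h0
      have h4 : (n:ℝ) ^ 2 ≤ (n:ℝ) ^ s.re := by
        rw [← Real.rpow_natCast]
        exact Real.rpow_le_rpow_of_exponent_le hn1 (by exact_mod_cast hs)
      apply div_le_div₀ (by norm_num) h3 (by positivity) h4
  have h1 : ‖LSeries (fun n => ((ArithmeticFunction.moebius n : ℤ) : ℂ)) s‖ ≤ S :=
    tsum_of_norm_bounded hsum.hasSum hun
  have h2 : ‖riemannZeta s‖ * ‖LSeries (fun n => ((ArithmeticFunction.moebius n : ℤ) : ℂ)) s‖ = 1 := by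
    rw [← norm_mul, hmu, norm_one]
  rw [div_le_iff₀ (by positivity)]
  calc 1 = ‖riemannZeta s‖ * ‖LSeries (fun n => ((ArithmeticFunction.moebius n : ℤ) : ℂ)) s‖ := h2.symm
    _ ≤ ‖riemannZeta s‖ * (S + 1) := mul_le_mul_of_nonneg_left (by linarith) (norm_nonneg _)

/-- the number of zeros at distance at most `1/2` from a height -/
lemma unit_count : ∃ C : ℝ, 0 < C ∧ ∀ t : ℝ, 4 ≤ t → ∀ S : Finset ℂ,
    (∀ ρ ∈ S, 1 / 2 ≤ ρ.re ∧ ρ.re ≤ 1 ∧ |ρ.im - t| ≤ 1 / 2) →
    ∑ ρ ∈ S, (analyticOrderNatAt riemannZeta ρ : ℝ) ≤ C * Real.log t := by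
  obtain ⟨c, hc, hlow⟩ := zeta_lower
  obtain ⟨C, B, hC, hZ⟩ := Z1_growth 4
  -- the weight
  have hlog0 : 0 < Real.log (8 / 5 : ℝ) := Real.log_pos (by norm_num)
  refine ⟨5 * (|Real.log (1 + C)| + 2 * B + |Real.log c|) + 5, by positivity, fun t ht S hS => ?_⟩
  have ht0 : 0 < t := by linarith
  have hlt : 1 ≤ Real.log t := by
    rw [Real.le_log_iff_exp_le ht0]
    have := Real.exp_one_lt_d9
    linarith
  set z0 : ℂ := (2 : ℂ) + (t : ℂ) * I with hz0
  have h0re : z0.re = 2 := by simp [hz0]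
  have h0im : z0.im = t := by simp [hz0]
  have hball : ∀ z ∈ closedBall z0 2, 0 ≤ z.re ∧ z.re ≤ 4 ∧ 2 ≤ z.im ∧ z.im ≤ t + 2 := by
    intro z hz
    rw [mem_closedBall_iff_norm] at hz
    have e1 := (Complex.abs_re_le_norm (z - z0)).trans hz
    have e2 := (Complex.abs_im_le_norm (z - z0)).trans hz
    rw [Complex.sub_re, h0re] at e1
    rw [Complex.sub_im, h0im] at e2
    obtain ⟨a1, a2⟩ := abs_le.mp e1
    obtain ⟨a3, a4⟩ := abs_le.mp e2
    refine ⟨by linarith, by linarith, by linarith, by linarith⟩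
  have hne : ∀ z : ℂ, 2 ≤ z.im → z ≠ 1 := by
    intro z hz h
    rw [h] at hz; norm_num at hz
  set U : Set ℂ := {z | 1 < z.im} with hU
  have hUo : IsOpen U := isOpen_lt continuous_const Complex.continuous_im
  have hζan : AnalyticOnNhd ℂ riemannZeta U := by
    apply DifferentiableOn.analyticOnNhd _ hUo
    intro z hz
    have hz1 : z ≠ 1 := by
      intro h; rw [hU, h] at hz; norm_num at hz
    exact (differentiableAt_riemannZeta hz1).differentiableWithinAt
  have hBU : closedBall z0 2 ⊆ U := fun z hz => by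
    have := (hball z hz).2.2.1
    change 1 < z.im
    linarith
  have hlow0 := hlow z0 (by rw [h0re])
  have hz0ne : riemannZeta z0 ≠ 0 := by
    intro h; rw [h, norm_zero] at hlow0; linarith
  have hdist : ∀ ρ ∈ S, 0 < ‖z0 - ρ‖ ∧ ‖z0 - ρ‖ ≤ 8 / 5 := by
    intro ρ hρ
    obtain ⟨h1, h2, h3⟩ := hS ρ hρ
    obtain ⟨h4, h5⟩ := abs_le.mp h3
    have hd2 : ‖z0 - ρ‖ ^ 2 = (2 - ρ.re) ^ 2 + (t - ρ.im) ^ 2 := by
      rw [← Complex.normSq_eq_norm_sq, Complex.normSq_apply, Complex.sub_re, Complex.sub_im, h0re, h0im]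
      ring
    constructor
    · rw [norm_pos_iff]
      intro h6
      have := congrArg Complex.re h6
      rw [Complex.sub_re, h0re] at this
      simp at this
      linarith
    · apply le_of_sq_le_sq _ (by norm_num)
      rw [hd2]
      nlinarith
  have hJ := jensen_low (h := riemannZeta) (c := z0) (R := 2) (by norm_num) (hζan.mono hBU) hz0ne S
    (analyticOrderNatAt riemannZeta) (fun _ => 1 / 5)
    (fun ρ _ _ => le_rfl) (fun ρ _ => by norm_num)
    (fun ρ hρ _ => by
      obtain ⟨h1, h2⟩ := hdist ρ hρ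
      have h3 : (5:ℝ) / 4 ≤ 2 * ‖z0 - ρ‖⁻¹ := by
        rw [← div_eq_mul_inv, le_div_iff₀ h1]; linarith
      have h4 : (1:ℝ) / 5 ≤ Real.log (5 / 4) := by
        have := Real.one_sub_inv_le_log_of_pos (show (0:ℝ) < 5 / 4 by norm_num)
        norm_num at this
        linarith
      exact h4.trans (Real.log_le_log (by norm_num) h3))
    (fun ρ hρ hρB => by
      exfalso
      apply hρB
      rw [mem_closedBall, dist_eq_norm']
      linarith [(hdist ρ hρ).2])
  have hbd : ∀ z ∈ sphere z0 |2|, Real.log ‖riemannZeta z‖ ≤ |Real.log (1 + C)| + 2 * B * Real.log t := by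
    intro z hz
    rw [abs_of_pos (by norm_num : (0:ℝ) < 2)] at hz
    obtain ⟨b1, b2, b3, b4⟩ := hball z (sphere_subset_closedBall hz)
    rcases (norm_nonneg (riemannZeta z)).eq_or_lt with h0 | h0
    · rw [← h0, Real.log_zero]; positivity
    · have h1 := hZ z b1 b2
      rw [Z1_ne (hne z b3), norm_mul, abs_of_nonneg (by linarith)] at h1
      have hzm : 1 ≤ ‖z - 1‖ := by
        have := Complex.abs_im_le_norm (z - 1)
        rw [Complex.sub_im, Complex.one_im, sub_zero] at this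
        have := le_abs_self z.im
        linarith
      have h2 : ‖riemannZeta z‖ ≤ (1 + C) * (t ^ 2) ^ B := by
        calc ‖riemannZeta z‖ = 1 * ‖riemannZeta z‖ := (one_mul _).symm
          _ ≤ ‖z - 1‖ * ‖riemannZeta z‖ := by gcongr
          _ ≤ C * (1 + z.im) ^ B := h1
          _ ≤ (1 + C) * (t ^ 2) ^ B := by
            gcongr
            · linarith
            · nlinarith
      calc Real.log ‖riemannZeta z‖ ≤ Real.log ((1 + C) * (t ^ 2) ^ B) := Real.log_le_log h0 h2
        _ = Real.log (1 + C) + 2 * B * Real.log t := by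
            rw [Real.log_mul (by positivity) (by positivity), Real.log_pow, Real.log_pow]
            push_cast; ring
        _ ≤ _ := by gcongr; exact le_abs_self _
  have hci : CircleIntegrable (fun z => Real.log ‖riemannZeta z‖) z0 2 := by
    apply MeromorphicOn.circleIntegrable_log_norm
    rw [abs_of_pos (by norm_num : (0:ℝ) < 2)]
    exact ((hζan.mono hBU).mono sphere_subset_closedBall).meromorphicOn
  have havg := Real.circleAverage_mono_on_of_le_circle hci hbd
  have hlc : -|Real.log c| ≤ Real.log ‖riemannZeta z0‖ :=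
    (neg_abs_le _).trans (Real.log_le_log hc hlow0)
  rw [← Finset.sum_mul] at hJ
  have hB0 : (0:ℝ) ≤ B := Nat.cast_nonneg B
  have a1 := abs_nonneg (Real.log (1 + C))
  have a2 := abs_nonneg (Real.log c)
  nlinarith

/-- the total number of zeros -/
lemma total_count : ∃ C : ℝ, 0 < C ∧ ∀ T : ℝ, 2 ≤ T → ∀ S : Finset ℂ,
    (∀ ρ ∈ S, ρ ∈ ZZ (1 / 2) T) →
    ∑ ρ ∈ S, (analyticOrderNatAt riemannZeta ρ : ℝ) ≤ C * T * Real.log T := by
  obtain ⟨C, hC, hU⟩ := unit_count
  set M : ℝ := ∑ ρ ∈ (ZZ_fin (1 / 2) 5).toFinset, (analyticOrderNatAt riemannZeta ρ : ℝ) with hM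
  have hM0 : 0 ≤ M := Finset.sum_nonneg fun ρ _ => Nat.cast_nonneg _
  refine ⟨2 * (M + 2 * C) / Real.log 2 + 4 * C, by
    have := Real.log_pos (show (1:ℝ) < 2 by norm_num)
    positivity, fun T hT S hS => ?_⟩
  have hT0 : 0 < T := by linarith
  have hl2 : 0 < Real.log 2 := Real.log_pos (by norm_num)
  have hlT : Real.log 2 ≤ Real.log T := Real.log_le_log (by norm_num) hT
  classical
  have hmaps : ∀ ρ ∈ S, ⌊ρ.im⌋₊ ∈ Finset.range (⌊T⌋₊ + 1) := by
    intro ρ hρ
    rw [Finset.mem_range]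
    have := Nat.floor_le_floor (hS ρ hρ).2.2.2
    omega
  rw [← Finset.sum_fiberwise_of_maps_to hmaps]
  have hterm : ∀ n ∈ Finset.range (⌊T⌋₊ + 1), ∑ ρ ∈ S with ⌊ρ.im⌋₊ = n, (analyticOrderNatAt riemannZeta ρ : ℝ) ≤
      (if n < 4 then M else 0) + 2 * C * Real.log T := by
    intro n hn
    rw [Finset.mem_range] at hn
    have hnT : (n:ℝ) ≤ T := by
      have h1 : n ≤ ⌊T⌋₊ := by omega
      exact (by exact_mod_cast h1 : (n:ℝ) ≤ ⌊T⌋₊).trans (Nat.floor_le hT0.le)
    have hpos : 0 ≤ 2 * C * Real.log T := by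
      have : 0 ≤ Real.log T := by linarith
      positivity
    split_ifs with h4
    · have h5 : ∑ ρ ∈ S with ⌊ρ.im⌋₊ = n, (analyticOrderNatAt riemannZeta ρ : ℝ) ≤ M := by
        apply Finset.sum_le_sum_of_subset_of_nonneg
        · intro ρ hρ
          rw [Finset.mem_filter] at hρ
          obtain ⟨h6, h7⟩ := hρ
          obtain ⟨g1, g2, g3, g4⟩ := hS ρ h6
          rw [Set.Finite.mem_toFinset]
          refine ⟨g1, g2, g3, ?_⟩
          have h8 := Nat.lt_floor_add_one ρ.im
          rw [h7] at h8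
          have h9 : (n:ℝ) + 1 ≤ 4 := by
            have : n + 1 ≤ 4 := by omega
            exact_mod_cast this
          linarith
        · intro ρ _ _
          positivity
      linarith
    · have hn4 : 4 ≤ n := by omega
      have hn4' : (4:ℝ) ≤ n := by exact_mod_cast hn4
      rw [zero_add]
      have h5 := hU ((n:ℝ) + 1 / 2) (by linarith) (S.filter fun ρ => ⌊ρ.im⌋₊ = n) (fun ρ hρ => by
        rw [Finset.mem_filter] at hρ
        obtain ⟨h6, h7⟩ := hρ
        obtain ⟨g1, g2, g3, g4⟩ := hS ρ h6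
        have h8 := Nat.lt_floor_add_one ρ.im
        have h9 := Nat.floor_le g3.le
        rw [h7] at h8 h9
        refine ⟨g2, (re_lt_one g1).le, ?_⟩
        rw [abs_le]; constructor <;> linarith)
      refine h5.trans ?_
      have h6 : Real.log ((n:ℝ) + 1 / 2) ≤ 2 * Real.log T := by
        have : 2 * Real.log T = Real.log (T ^ 2) := by rw [Real.log_pow]; push_cast; ring
        rw [this]
        apply Real.log_le_log (by linarith)
        nlinarith
      calc C * Real.log ((n:ℝ) + 1 / 2) ≤ C * (2 * Real.log T) := by gcongr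
        _ = _ := by ring
  refine (Finset.sum_le_sum hterm).trans ?_
  rw [Finset.sum_add_distrib, Finset.sum_const, Finset.card_range, nsmul_eq_mul]
  have hfl : ((⌊T⌋₊ + 1 : ℕ) : ℝ) ≤ 2 * T := by
    push_cast
    have := Nat.floor_le hT0.le
    linarith
  have hif : ∑ n ∈ Finset.range (⌊T⌋₊ + 1), (if n < 4 then M else 0) ≤ 4 * M := by
    rw [← Finset.sum_filter, Finset.sum_const, nsmul_eq_mul]
    have : ((Finset.range (⌊T⌋₊ + 1)).filter fun n => n < 4).card ≤ 4 := by
      calc ((Finset.range (⌊T⌋₊ + 1)).filter fun n => n < 4).card ≤ (Finset.range 4).card := by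
            apply Finset.card_le_card
            intro n hn
            rw [Finset.mem_filter] at hn
            exact Finset.mem_range.mpr hn.2
        _ = 4 := Finset.card_range 4
    have h4 : (((Finset.range (⌊T⌋₊ + 1)).filter fun n => n < 4).card : ℝ) ≤ 4 := by exact_mod_cast this
    exact mul_le_mul_of_nonneg_right h4 hM0
  have hlT0 : 0 < Real.log T := by linarith
  have hM1 : 4 * M ≤ 2 * M / Real.log 2 * T * Real.log T := by
    rw [div_mul_eq_mul_div, div_mul_eq_mul_div, le_div_iff₀ hl2]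
    calc 4 * M * Real.log 2 ≤ 4 * M * Real.log T := by gcongr
      _ = 2 * M * 2 * Real.log T := by ring
      _ ≤ 2 * M * T * Real.log T := by gcongr
  calc ∑ n ∈ Finset.range (⌊T⌋₊ + 1), (if n < 4 then M else 0) + ((⌊T⌋₊ + 1 : ℕ) : ℝ) * (2 * C * Real.log T)
      ≤ 4 * M + (2 * T) * (2 * C * Real.log T) := by gcongr
    _ ≤ 2 * M / Real.log 2 * T * Real.log T + (2 * T) * (2 * C * Real.log T) := by gcongr
    _ ≤ _ := by
      have : 2 * (M + 2 * C) / Real.log 2 = 2 * M / Real.log 2 + 4 * C / Real.log 2 := by ring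
      rw [this]
      have h5 : 0 ≤ 4 * C / Real.log 2 * T * Real.log T := by positivity
      nlinarith

end

end Pool.Agent.Y24
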